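import Mathlib

set_option autoImplicit false

/-!
# The rational character module of `R_{K/ℚ}(G_m)` and its multiplicities

Let `K` be a number field, embedded in a finite Galois extension `N` of `ℚ` with group `G`. The
character module of the torus `A = R_{K/ℚ}(G_m)` is the permutation module `ℤ[Hom(K, N)]` of `G`
(up to isogeny the subtori and quotients of `A` correspond to the `ℚ[G]`-submodules of
`ℚ[Hom(K, N)]`, and `A` is isogenous to the product of simple tori which correspond to the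
irreducible constituents).
-/

namespace Pool.Agent.H447.Clo

section defs

variable (K N : Type) [Field K] [NumberField K] [Field N] [NumberField N]

/-- The representation of the Galois group of `N` on the rational character module of
`R_{K/ℚ}(G_m)`, i.e. on the functions on the set of the embeddings of `K` in `N`: the function
`g f` is `σ ↦ f (g⁻¹ ∘ σ)`. -/
def charRep : Representation ℚ (N ≃ₐ[ℚ] N) ((K →ₐ[ℚ] N) → ℚ) where
  toFun g :=
    { toFun := fun f σ => f (((g⁻¹ : N ≃ₐ[ℚ] N) : N →ₐ[ℚ] N).comp σ)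
      map_add' := fun a b => rfl
      map_smul' := fun r a => rfl }
  map_one' := by
    apply LinearMap.ext
    intro f
    funext σ
    show f _ = f σ
    congr 1
  map_mul' g h := by
    apply LinearMap.ext
    intro f
    funext σ
    show f _ = f _
    congr 1

theorem charRep_apply (g : N ≃ₐ[ℚ] N) (f : (K →ₐ[ℚ] N) → ℚ) (σ : K →ₐ[ℚ] N) :
    charRep K N g f σ = f (((g⁻¹ : N ≃ₐ[ℚ] N) : N →ₐ[ℚ] N).comp σ) := rfl

/-- The `m`-th power of the representation `ρ` is a quotient of the rational character module of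
`R_{K/ℚ}(G_m)`; for irreducible `ρ` this means that `ρ` is a constituent of multiplicity at least
`m`. -/
def HasPower (m : ℕ) {V : Type} [AddCommGroup V] [Module ℚ V]
    (ρ : Representation ℚ (N ≃ₐ[ℚ] N) V) : Prop :=
  ∃ f : ((K →ₐ[ℚ] N) → ℚ) →ₗ[ℚ] (Fin m → V), Function.Surjective f ∧
    ∀ (g : N ≃ₐ[ℚ] N) (x : (K →ₐ[ℚ] N) → ℚ) (j : Fin m), f (charRep K N g x) j = ρ g (f x j)

/-- No irreducible constituent with a nonzero vector fixed by `c` has multiplicity three or more, and
at most one of them has multiplicity two, and then its only endomorphisms are the rational scalars.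
(For `c = 1` these are all constituents.) -/
structure NearlyMultiplicityFree (c : N ≃ₐ[ℚ] N) : Prop where
  no_three : ∀ (V : Type) [AddCommGroup V] [Module ℚ V] (ρ : Representation ℚ (N ≃ₐ[ℚ] N) V),
    ρ.IsIrreducible → (∃ v, v ≠ 0 ∧ ρ c v = v) → ¬ HasPower K N 3 ρ
  scalar : ∀ (V : Type) [AddCommGroup V] [Module ℚ V] (ρ : Representation ℚ (N ≃ₐ[ℚ] N) V),
    ρ.IsIrreducible → (∃ v, v ≠ 0 ∧ ρ c v = v) → HasPower K N 2 ρ →
    ∀ α : V →ₗ[ℚ] V, (∀ g v, α (ρ g v) = ρ g (α v)) → ∃ r : ℚ, ∀ v, α v = r • v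
  unique : ∀ (V V' : Type) [AddCommGroup V] [Module ℚ V] [AddCommGroup V'] [Module ℚ V']
    (ρ : Representation ℚ (N ≃ₐ[ℚ] N) V) (ρ' : Representation ℚ (N ≃ₐ[ℚ] N) V'),
    ρ.IsIrreducible → ρ'.IsIrreducible → (∃ v, v ≠ 0 ∧ ρ c v = v) → (∃ v, v ≠ 0 ∧ ρ' c v = v) →
    HasPower K N 2 ρ → HasPower K N 2 ρ' → ∃ e : V ≃ₗ[ℚ] V', ∀ g v, e (ρ g v) = ρ' g (e v)

end defs

end Pool.Agent.H447.Clo
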