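import Mathlib

set_option autoImplicit false
set_option linter.unusedSectionVars false

/-!
# Algebraic integers with multiplicatively independent conjugates
-/

namespace Pool.Agent.H447.Clo

open NumberField IsDedekindDomain

variable {N : Type} [Field N] [NumberField N]

/-- The action of the Galois group on the integers. -/
noncomputable def act (g : N ≃ₐ[ℚ] N) : 𝓞 N →+* 𝓞 N :=
  RingOfIntegers.mapRingHom ((g : N →ₐ[ℚ] N) : N →+* N)

theorem coe_act (g : N ≃ₐ[ℚ] N) (x : 𝓞 N) : ((act g x : 𝓞 N) : N) = g (x : N) := rfl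

theorem act_one (x : 𝓞 N) : act (1 : N ≃ₐ[ℚ] N) x = x := by
  apply RingOfIntegers.coe_injective
  rfl

theorem act_mul (g h : N ≃ₐ[ℚ] N) (x : 𝓞 N) : act (g * h) x = act g (act h x) := by
  apply RingOfIntegers.coe_injective
  rfl

theorem act_ne_zero (g : N ≃ₐ[ℚ] N) {x : 𝓞 N} (hx : x ≠ 0) : act g x ≠ 0 := by
  intro h
  apply hx
  have h1 := congrArg (act g⁻¹) h
  rw [← act_mul, inv_mul_cancel, act_one, map_zero] at h1
  exact h1

variable [IsGalois ℚ N]

theorem coe_norm_prod (x : 𝓞 N) :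
    ((Algebra.norm ℤ x : ℤ) : 𝓞 N) = ∏ g : N ≃ₐ[ℚ] N, act g x := by
  apply RingOfIntegers.coe_injective
  have h1 : algebraMap (𝓞 N) N (∏ g : N ≃ₐ[ℚ] N, act g x) = ∏ g : N ≃ₐ[ℚ] N, g (x : N) := by
    rw [map_prod]
    rfl
  have h2 : algebraMap (𝓞 N) N ((Algebra.norm ℤ x : ℤ) : 𝓞 N) =
      algebraMap ℚ N (Algebra.norm ℚ (x : N)) := by
    rw [← Algebra.coe_norm_int, map_intCast, map_intCast]
  show algebraMap (𝓞 N) N _ = algebraMap (𝓞 N) N _
  rw [h1, h2, Algebra.norm_eq_prod_automorphisms]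

theorem norm_int_ne_zero {x : 𝓞 N} (hx : x ≠ 0) : Algebra.norm ℤ x ≠ 0 := by
  intro h
  have h1 := coe_norm_prod x
  rw [h, Int.cast_zero] at h1
  obtain ⟨g, _, hg⟩ := Finset.prod_eq_zero_iff.mp h1.symm
  exact act_ne_zero g hx hg

theorem act_dvd_norm (g : N ≃ₐ[ℚ] N) (x : 𝓞 N) : act g x ∣ ((Algebra.norm ℤ x : ℤ) : 𝓞 N) := by
  rw [coe_norm_prod]
  exact Finset.dvd_prod_of_mem _ (Finset.mem_univ g)

/-- An integral generator. -/
theorem exists_generator : ∃ θ : 𝓞 N, θ ≠ 0 ∧ ∀ g : N ≃ₐ[ℚ] N, g ≠ 1 → act g θ ≠ θ := by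
  by_cases hG : ∀ g : N ≃ₐ[ℚ] N, g = 1
  · exact ⟨1, one_ne_zero, fun g hg => absurd (hG g) hg⟩
  obtain ⟨α, hα⟩ := Field.exists_primitive_element ℚ N
  have halg : IsAlgebraic ℤ α :=
    (IsFractionRing.isAlgebraic_iff ℤ ℚ N).mpr (IsAlgebraic.of_finite ℚ α)
  obtain ⟨m, hm, hmα⟩ := halg.exists_integral_multiple
  have hfix : ∀ g : N ≃ₐ[ℚ] N, g ≠ 1 → act g (⟨m • α, hmα⟩ : 𝓞 N) ≠ ⟨m • α, hmα⟩ := by
    intro g hg h
    have h1 : g (m • α) = m • α := congrArg (algebraMap (𝓞 N) N) h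
    rw [map_zsmul] at h1
    have h2 : g α = α := by
      have h3 : m • (g α - α) = 0 := by rw [smul_sub, h1, sub_self]
      rcases smul_eq_zero.mp h3 with h4 | h4
      · exact absurd h4 hm
      · exact sub_eq_zero.mp h4
    apply hg
    let F : IntermediateField ℚ N := IntermediateField.fixedField (Subgroup.zpowers g)
    have hαF : α ∈ F := by
      rw [IntermediateField.mem_fixedField_iff]
      intro f hf
      obtain ⟨k, rfl⟩ := Subgroup.mem_zpowers_iff.mp hf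
      have h5 : g ∈ MulAction.stabilizer (N ≃ₐ[ℚ] N) α := h2
      exact Subgroup.zpow_mem _ h5 k
    have htop : (⊤ : IntermediateField ℚ N) ≤ F := by
      rw [← hα, IntermediateField.adjoin_simple_le_iff]
      exact hαF
    ext x
    have hx : x ∈ F := htop IntermediateField.mem_top
    rw [IntermediateField.mem_fixedField_iff] at hx
    exact hx g (Subgroup.mem_zpowers g)
  refine ⟨⟨m • α, hmα⟩, ?_, hfix⟩
  intro h0
  apply hG
  intro g
  by_contra hg
  apply hfix g hg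
  rw [h0, map_zero]

/-- If `1 + B t θ` is a unit for all `t` then there is a contradiction. -/
theorem exists_not_unit {θ : 𝓞 N} (hθ : θ ≠ 0) {B : ℤ} (hB : B ≠ 0) :
    ∃ t : ℕ, ¬ IsUnit (1 + (B : 𝓞 N) * (t : 𝓞 N) * θ) ∧ (1 + (B : 𝓞 N) * (t : 𝓞 N) * θ) ≠ 0 := by
  classical
  by_contra hcon
  push Not at hcon
  -- the norm polynomial
  let P : Polynomial N := ∏ g : N ≃ₐ[ℚ] N,
    (Polynomial.C 1 + Polynomial.C ((B : N) * g (θ : N)) * Polynomial.X)
  have hcoef : ∀ g : N ≃ₐ[ℚ] N, (B : N) * g (θ : N) ≠ 0 := by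
    intro g
    refine mul_ne_zero (by exact_mod_cast hB) ?_
    intro h
    apply act_ne_zero g hθ
    exact RingOfIntegers.coe_injective h
  have hdeg : P.natDegree = Fintype.card (N ≃ₐ[ℚ] N) := by
    have h1 : ∀ g : N ≃ₐ[ℚ] N, (Polynomial.C 1 + Polynomial.C ((B : N) * g (θ : N)) *
        Polynomial.X : Polynomial N).natDegree = 1 := by
      intro g
      rw [Polynomial.natDegree_C_add, Polynomial.natDegree_C_mul_X _ (hcoef g)]
    rw [Polynomial.natDegree_prod]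
    · simp only [h1]
      simp
    · intro g _ h0
      have := h1 g
      rw [h0, Polynomial.natDegree_zero] at this
      exact zero_ne_one this
  have hroot : ∀ t : ℕ, (1 + (B : 𝓞 N) * (t : 𝓞 N) * θ) ≠ 0 →
      (P ^ 2 - 1).IsRoot (t : N) := by
    intro t ht
    have hu : IsUnit (1 + (B : 𝓞 N) * (t : 𝓞 N) * θ) := by
      by_contra h
      exact ht (hcon t h)
    rw [NumberField.isUnit_iff_norm] at hu
    have h1 : P.eval (t : N) = algebraMap ℚ N
        (Algebra.norm ℚ (((1 + (B : 𝓞 N) * (t : 𝓞 N) * θ) : 𝓞 N) : N)) := by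
      rw [Algebra.norm_eq_prod_automorphisms, Polynomial.eval_prod]
      refine Finset.prod_congr rfl fun g _ => ?_
      simp
      ring
    rw [RingOfIntegers.coe_norm] at hu
    show Polynomial.eval _ _ = 0
    rw [Polynomial.eval_sub, Polynomial.eval_pow, h1, ← map_pow, Polynomial.eval_one, ← sq_abs, hu]
    simp
  have hne : P ^ 2 - 1 ≠ 0 := by
    intro h
    have h1 := congrArg Polynomial.natDegree (sub_eq_zero.mp h)
    rw [Polynomial.natDegree_pow, hdeg, Polynomial.natDegree_one] at h1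
    have h2 : 0 < Fintype.card (N ≃ₐ[ℚ] N) := Fintype.card_pos
    omega
  apply hne
  apply Polynomial.eq_zero_of_infinite_isRoot
  -- all but one natural number
  have hfin : {t : ℕ | (1 + (B : 𝓞 N) * (t : 𝓞 N) * θ) = 0}.Finite := by
    apply Set.Subsingleton.finite
    intro a ha b hb
    have ha' : 1 + (B : 𝓞 N) * (a : 𝓞 N) * θ = 0 := ha
    have hb' : 1 + (B : 𝓞 N) * (b : 𝓞 N) * θ = 0 := hb
    have h1 : (B : 𝓞 N) * θ * ((a : 𝓞 N) - (b : 𝓞 N)) = 0 := by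
      linear_combination ha' - hb'
    have h2 : (B : 𝓞 N) * θ ≠ 0 := mul_ne_zero (by exact_mod_cast hB) hθ
    have h3 := sub_eq_zero.mp ((mul_eq_zero.mp h1).resolve_left h2)
    exact_mod_cast h3
  have hinf : {t : ℕ | (1 + (B : 𝓞 N) * (t : 𝓞 N) * θ) = 0}ᶜ.Infinite := hfin.infinite_compl
  refine (hinf.image (f := fun t : ℕ => (t : N)) (Nat.cast_injective.injOn)).mono ?_
  rintro _ ⟨t, ht, rfl⟩
  exact hroot t ht

/-- The single step of the construction. -/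
theorem exists_step {B : ℤ} (hB : B ≠ 0) : ∃ (π : 𝓞 N) (q : Ideal (𝓞 N)),
    (q.IsMaximal ∧ π ≠ 0 ∧ π ∈ q ∧ ∀ g : N ≃ₐ[ℚ] N, g ≠ 1 → act g π ∉ q) ∧
      ∃ β : 𝓞 N, π = 1 + (B : 𝓞 N) * β := by
  classical
  obtain ⟨θ, hθ, hgen⟩ := exists_generator (N := N)
  -- the discriminant
  let d : 𝓞 N := ∏ g ∈ (Finset.univ : Finset (N ≃ₐ[ℚ] N)).erase 1, (θ - act g θ)
  have hd : d ≠ 0 := by
    apply Finset.prod_ne_zero_iff.mpr
    intro g hg
    exact sub_ne_zero.mpr (fun h => hgen g (Finset.ne_of_mem_erase hg) h.symm)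
  set D : ℤ := Algebra.norm ℤ d with hD
  have hD0 : D ≠ 0 := norm_int_ne_zero hd
  obtain ⟨t, ht, ht0⟩ := exists_not_unit hθ (mul_ne_zero hB hD0)
  obtain ⟨q, hq, hmem⟩ := exists_max_ideal_of_mem_nonunits ht
  set π : 𝓞 N := 1 + ((B * D : ℤ) : 𝓞 N) * (t : 𝓞 N) * θ with hπ
  have h1 : (1 : 𝓞 N) ∉ q := fun h => hq.ne_top ((Ideal.eq_top_iff_one q).mpr h)
  have hBD : ((B * D : ℤ) : 𝓞 N) ∉ q := by
    intro h
    apply h1
    have : (1 : 𝓞 N) = π - ((B * D : ℤ) : 𝓞 N) * ((t : 𝓞 N) * θ) := by rw [hπ]; ring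
    rw [this]
    exact q.sub_mem hmem (q.mul_mem_right _ h)
  have htq : (t : 𝓞 N) ∉ q := by
    intro h
    apply h1
    have : (1 : 𝓞 N) = π - (t : 𝓞 N) * (((B * D : ℤ) : 𝓞 N) * θ) := by rw [hπ]; ring
    rw [this]
    exact q.sub_mem hmem (q.mul_mem_right _ h)
  refine ⟨π, q, ⟨hq, ht0, hmem, ?_⟩, ⟨((D : ℤ) : 𝓞 N) * (t : 𝓞 N) * θ, ?_⟩⟩
  · intro g hg h
    have h2 : ((B * D : ℤ) : 𝓞 N) * (t : 𝓞 N) * (θ - act g θ) ∈ q := by
      have h3 : act g π = 1 + ((B * D : ℤ) : 𝓞 N) * (t : 𝓞 N) * act g θ := by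
        rw [hπ, map_add, map_mul, map_mul, map_one, map_intCast, map_natCast]
      have h4 : ((B * D : ℤ) : 𝓞 N) * (t : 𝓞 N) * (θ - act g θ) = π - act g π := by
        rw [h3, hπ]; ring
      rw [h4]
      exact q.sub_mem hmem h
    have h5 := (hq.isPrime.mem_or_mem h2).resolve_left (fun h6 =>
      (hq.isPrime.mem_or_mem h6).elim hBD htq)
    -- then `d`, `D`, `B D` are in `q`
    have h6 : d ∈ q := by
      have h7 : (θ - act g θ) ∣ d := Finset.dvd_prod_of_mem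
        (fun g : N ≃ₐ[ℚ] N => (θ - act g θ)) (Finset.mem_erase.mpr ⟨hg, Finset.mem_univ g⟩)
      exact q.mem_of_dvd h7 h5
    have h8 : ((D : ℤ) : 𝓞 N) ∈ q := by
      have h9 := act_dvd_norm (1 : N ≃ₐ[ℚ] N) d
      rw [act_one] at h9
      exact q.mem_of_dvd h9 h6
    apply hBD
    rw [Int.cast_mul]
    exact q.mul_mem_left _ h8
  · rw [hπ]
    push_cast
    ring

/-- A sequence of integers with maximal ideals, such that only `π i` lies in `q i`, among all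
conjugates. -/
theorem exists_sequence {B : ℤ} (hB : B ≠ 0) : ∃ (π : ℕ → 𝓞 N) (q : ℕ → Ideal (𝓞 N)),
    (∀ i, (q i).IsMaximal ∧ π i ≠ 0 ∧ π i ∈ q i ∧ (∀ g : N ≃ₐ[ℚ] N, g ≠ 1 → act g (π i) ∉ q i) ∧
      ∃ β : 𝓞 N, π i = 1 + (B : 𝓞 N) * β) ∧
    ∀ i j, i ≠ j → ∀ g : N ≃ₐ[ℚ] N, act g (π j) ∉ q i := by
  classical
  obtain ⟨f, hf, hf'⟩ := exists_seq_of_forall_finset_exists
    (fun x : 𝓞 N × Ideal (𝓞 N) => x.2.IsMaximal ∧ x.1 ≠ 0 ∧ x.1 ∈ x.2 ∧
      (∀ g : N ≃ₐ[ℚ] N, g ≠ 1 → act g x.1 ∉ x.2) ∧ ∃ β : 𝓞 N, x.1 = 1 + (B : 𝓞 N) * β)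
    (fun x y => (∀ g : N ≃ₐ[ℚ] N, act g x.1 ∉ y.2) ∧ ∀ g : N ≃ₐ[ℚ] N, act g y.1 ∉ x.2) (by
    intro s hs
    -- the new modulus
    let C : ℤ := B * ∏ x ∈ s, Algebra.norm ℤ x.1
    have hC : C ≠ 0 := by
      refine mul_ne_zero hB (Finset.prod_ne_zero_iff.mpr fun x hx => ?_)
      exact norm_int_ne_zero (hs x hx).2.1
    obtain ⟨π, q, ⟨h1, h2, h3, h4⟩, β, h5⟩ := exists_step (N := N) hC
    have hone : (1 : 𝓞 N) ∉ q := fun h => h1.ne_top ((Ideal.eq_top_iff_one q).mpr h)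
    have hCq : ((C : ℤ) : 𝓞 N) ∉ q := by
      intro h
      apply hone
      have : (1 : 𝓞 N) = π - ((C : ℤ) : 𝓞 N) * β := by rw [h5]; ring
      rw [this]
      exact q.sub_mem h3 (q.mul_mem_right _ h)
    refine ⟨(π, q), ⟨h1, h2, h3, h4, ((∏ x ∈ s, Algebra.norm ℤ x.1 : ℤ) : 𝓞 N) * β, ?_⟩, ?_⟩
    · show π = _
      rw [h5]
      push_cast [C]
      ring
    · intro x hx
      have hdvd : ((Algebra.norm ℤ x.1 : ℤ) : 𝓞 N) ∣ ((C : ℤ) : 𝓞 N) := by
        have h6 : Algebra.norm ℤ x.1 ∣ C :=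
          Dvd.dvd.mul_left (Finset.dvd_prod_of_mem (fun x : 𝓞 N × Ideal (𝓞 N) =>
            Algebra.norm ℤ x.1) hx) B
        exact map_dvd (Int.castRingHom (𝓞 N)) h6
      refine ⟨fun g hg => ?_, fun g hg => ?_⟩
      · -- a conjugate of the old number in the new ideal
        exact hCq (q.mem_of_dvd ((act_dvd_norm g x.1).trans hdvd) hg)
      · -- a conjugate of the new number in the old ideal
        have hx1 := hs x hx
        have h7 : (1 : 𝓞 N) ∉ x.2 := fun h => hx1.1.ne_top ((Ideal.eq_top_iff_one x.2).mpr h)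
        apply h7
        have h8 : ((C : ℤ) : 𝓞 N) ∈ x.2 := by
          have h9 := act_dvd_norm (1 : N ≃ₐ[ℚ] N) x.1
          rw [act_one] at h9
          exact x.2.mem_of_dvd (h9.trans hdvd) hx1.2.2.1
        have h10 : act g π = 1 + ((C : ℤ) : 𝓞 N) * act g β := by
          rw [h5, map_add, map_mul, map_one, map_intCast]
        have h11 : (1 : 𝓞 N) = act g π - ((C : ℤ) : 𝓞 N) * act g β := by rw [h10]; ring
        rw [h11]
        exact x.2.sub_mem hg (x.2.mul_mem_right _ h8))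
  refine ⟨fun i => (f i).1, fun i => (f i).2, hf, ?_⟩
  intro i j hij g
  rcases lt_or_gt_of_ne hij with h | h
  · exact (hf' i j h).2 g
  · exact (hf' j i h).1 g

/-- The action of the Galois group on `Nˣ`. -/
def um (g : N ≃ₐ[ℚ] N) : Nˣ →* Nˣ := Units.map ((g : N →ₐ[ℚ] N) : N →* N)

theorem coe_um (g : N ≃ₐ[ℚ] N) (x : Nˣ) : ((um g x : Nˣ) : N) = g (x : N) := rfl

theorem um_mul (g h : N ≃ₐ[ℚ] N) (x : Nˣ) : um (g * h) x = um g (um h x) := by
  ext; rfl

theorem um_one (x : Nˣ) : um (1 : N ≃ₐ[ℚ] N) x = x := by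
  ext; rfl

/-- Multiplicative independence of all conjugates of the `x i`. -/
def FreeConj {I : Type} [Fintype I] (x : I → Nˣ) : Prop :=
  ∀ e : I → (N ≃ₐ[ℚ] N) → ℤ, ∏ i, ∏ g : N ≃ₐ[ℚ] N, (um g (x i)) ^ (e i g) = 1 → e = 0

theorem exists_free (I : Type) [Fintype I] {B : ℤ} (hB : B ≠ 0) :
    ∃ (x : I → Nˣ) (β : I → 𝓞 N), (∀ i, (x i : N) = 1 + (B : N) * (β i : N)) ∧ FreeConj x := by
  classical
  obtain ⟨π, q, h1, h2⟩ := exists_sequence (N := N) hB
  let φ : I ≃ Fin (Fintype.card I) := Fintype.equivFin I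
  let ix : I → ℕ := fun i => (φ i : ℕ)
  have hix : Function.Injective ix := fun a b h => φ.injective (Fin.ext h)
  have hne : ∀ i, ((π (ix i) : 𝓞 N) : N) ≠ 0 := by
    intro i h
    exact (h1 (ix i)).2.1 (RingOfIntegers.coe_injective h)
  choose β hβ using fun i : I => (h1 (ix i)).2.2.2.2
  refine ⟨fun i => Units.mk0 _ (hne i), β, fun i => ?_, ?_⟩
  · show ((π (ix i) : 𝓞 N) : N) = _
    rw [hβ i]
    simp
  · intro e he
    funext i₀ g₀
    show e i₀ g₀ = 0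
    have hq := h1 (ix i₀)
    have hqne : q (ix i₀) ≠ ⊥ := by
      intro h
      have := hq.2.2.1
      rw [h] at this
      exact hq.2.1 (by simpa using this)
    let v : HeightOneSpectrum (𝓞 N) := ⟨q (ix i₀), hq.1.isPrime, hqne⟩
    -- apply `g₀⁻¹`
    have he2 := congrArg (um g₀⁻¹) he
    rw [map_one, map_prod] at he2
    simp only [map_prod, map_zpow] at he2
    have h3 := congrArg (fun u : Nˣ => v.valuation N (u : N)) he2
    simp only [Units.coe_prod, map_prod, Units.val_zpow_eq_zpow_val, map_zpow₀, Units.val_one,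
      map_one] at h3
    have hval : ∀ (i : I) (g : N ≃ₐ[ℚ] N),
        v.valuation N ((um g₀⁻¹ (um g (Units.mk0 _ (hne i))) : Nˣ) : N) =
        v.valuation N (algebraMap (𝓞 N) N (act (g₀⁻¹ * g) (π (ix i)))) := by
      intro i g
      rfl
    have hone : ∀ (i : I) (g : N ≃ₐ[ℚ] N), (i, g) ≠ (i₀, g₀) →
        v.valuation N (algebraMap (𝓞 N) N (act (g₀⁻¹ * g) (π (ix i)))) = 1 := by
      intro i g hig
      rw [HeightOneSpectrum.valuation_eq_one_iff_notMem]
      show act (g₀⁻¹ * g) (π (ix i)) ∉ q (ix i₀)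
      by_cases hi : i = i₀
      · subst hi
        apply hq.2.2.2.1
        intro h
        apply hig
        rw [inv_mul_eq_one] at h
        rw [h]
      · exact h2 (ix i₀) (ix i) (fun h => hi (hix h).symm) _
    have hlt : v.valuation N (algebraMap (𝓞 N) N (act (g₀⁻¹ * g₀) (π (ix i₀)))) < 1 := by
      rw [HeightOneSpectrum.valuation_lt_one_iff_mem, inv_mul_cancel, act_one]
      exact hq.2.2.1
    simp only [hval] at h3
    have h4 : (∏ i, ∏ g : N ≃ₐ[ℚ] N,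
        (v.valuation N (algebraMap (𝓞 N) N (act (g₀⁻¹ * g) (π (ix i))))) ^ (e i g)) =
        (v.valuation N (algebraMap (𝓞 N) N (act (g₀⁻¹ * g₀) (π (ix i₀))))) ^ (e i₀ g₀) := by
      rw [Finset.prod_eq_single i₀, Finset.prod_eq_single g₀]
      · intro g _ hg
        rw [hone i₀ g (fun h => hg (Prod.ext_iff.mp h).2), one_zpow]
      · intro h; exact absurd (Finset.mem_univ _) h
      · intro i _ hi
        refine Finset.prod_eq_one fun g _ => ?_
        rw [hone i g (fun h => hi (Prod.ext_iff.mp h).1), one_zpow]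
      · intro h; exact absurd (Finset.mem_univ _) h
    rw [h4] at h3
    by_contra hne0
    have hpos : (0 : WithZero (Multiplicative ℤ)) <
        v.valuation N (algebraMap (𝓞 N) N (act (g₀⁻¹ * g₀) (π (ix i₀)))) := by
      rw [zero_lt_iff, inv_mul_cancel, act_one]
      exact (Valuation.ne_zero_iff _).mpr (hne i₀)
    rcases lt_or_gt_of_ne hne0 with hneg | hposi
    · have := one_lt_zpow_of_neg₀ hpos hlt hneg
      exact (this.ne' h3)
    · have := zpow_lt_one₀ hpos hlt hposi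
      exact (this.ne h3)

end Pool.Agent.H447.Clo
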