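import Mathlib

set_option autoImplicit false
set_option linter.unusedSectionVars false

/-!
# Linear algebra of singular semistable spaces of functionals
-/

namespace Pool.Agent.H447.Clo

open Module

section defs

variable {G : Type} [Group G] {Q : Type} [AddCommGroup Q] [Module ℚ Q]

/-- The functionals on `Q` which are invariant under `c` and vanish on `Q'`. -/
def dualInv (ρ : Representation ℚ G Q) (c : G) (Q' : Submodule ℚ Q) :
    Submodule ℚ (Dual ℚ Q) where
  carrier := {ζ | (∀ q, ζ (ρ c q) = ζ q) ∧ ∀ q ∈ Q', ζ q = 0}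
  add_mem' := by
    rintro a b ⟨ha, ha'⟩ ⟨hb, hb'⟩
    refine ⟨fun q => ?_, fun q hq => ?_⟩
    · rw [LinearMap.add_apply, LinearMap.add_apply, ha, hb]
    · rw [LinearMap.add_apply, ha' q hq, hb' q hq, add_zero]
  zero_mem' := ⟨fun q => rfl, fun q _ => rfl⟩
  smul_mem' := by
    rintro r a ⟨ha, ha'⟩
    refine ⟨fun q => ?_, fun q hq => ?_⟩
    · rw [LinearMap.smul_apply, LinearMap.smul_apply, ha]
    · rw [LinearMap.smul_apply, ha' q hq, smul_zero]

/-- The families of functionals which vanish on `Q'`. -/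
def killing (I : Type) (Q' : Submodule ℚ Q) : Submodule ℚ (I → Dual ℚ Q) where
  carrier := {ξ | ∀ i, ∀ q ∈ Q', ξ i q = 0}
  add_mem' := by
    intro a b ha hb i q hq
    rw [Pi.add_apply, LinearMap.add_apply, ha i q hq, hb i q hq, add_zero]
  zero_mem' := fun i q _ => rfl
  smul_mem' := by
    intro r a ha i q hq
    rw [Pi.smul_apply, LinearMap.smul_apply, ha i q hq, smul_zero]

variable [Fintype G]

/-- A space `L` of families of functionals which is semistable, but singular: for every family of
elements `Λ i` of the group ring which are invariant under right multiplication by `c`, there is a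
nonzero family `ξ` in `L` with `∑ i, ξ i ∘ Λ i = 0`. -/
structure Bad (ρ : Representation ℚ G Q) (c : G) (I : Type) [Fintype I]
    (L : Submodule ℚ (I → Dual ℚ Q)) : Prop where
  semi : ∀ Q' : Submodule ℚ Q, (∀ g, ∀ q ∈ Q', ρ g q ∈ Q') →
    finrank ℚ ↥(L ⊓ killing I Q') ≤ finrank ℚ ↥(dualInv ρ c Q')
  sing : ∀ Λ : I → G → ℚ, (∀ i g, Λ i (g * c) = Λ i g) →
    ∃ ξ ∈ L, ξ ≠ 0 ∧ ∀ q, ∑ i, ∑ g, Λ i g * ξ i (ρ g q) = 0

end defs

section surj

variable {G : Type} [Group G] {Q : Type} [AddCommGroup Q] [Module ℚ Q] [FiniteDimensional ℚ Q]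
  {T : Type} [AddCommGroup T] [Module ℚ T] [FiniteDimensional ℚ T]

theorem dualInv_of_surj (σ : Representation ℚ G Q) (τ : Representation ℚ G T) (c : G)
    (Q' : Submodule ℚ Q) (F : Q →ₗ[ℚ] T) (hF : Function.Surjective F)
    (heq : ∀ q, F (σ c q) = τ c (F q)) (hk : ∀ q ∈ Q', F q = 0) :
    finrank ℚ ↥(dualInv τ c ⊥) ≤ finrank ℚ ↥(dualInv σ c Q') := by
  let g : ↥(dualInv τ c ⊥) →ₗ[ℚ] ↥(dualInv σ c Q') :=
    { toFun := fun ζ => ⟨(ζ : Dual ℚ T).comp F, by
        refine ⟨fun q => ?_, fun q hq => ?_⟩
        · rw [LinearMap.comp_apply, LinearMap.comp_apply, heq, ζ.2.1]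
        · rw [LinearMap.comp_apply, hk q hq, map_zero]⟩
      map_add' := fun a b => by ext; rfl
      map_smul' := fun a b => by ext; rfl }
  refine LinearMap.finrank_le_finrank_of_injective (f := g) ?_
  intro a b hab
  apply Subtype.ext
  apply LinearMap.ext
  intro t
  obtain ⟨q, rfl⟩ := hF t
  exact congrArg (fun z : ↥(dualInv σ c Q') => (z : Dual ℚ Q) q) hab

end surj

section pow

variable {G : Type} [Group G] {V : Type} [AddCommGroup V] [Module ℚ V]

/-- The representation on `V ^ J`. -/
def powRep (ρ : Representation ℚ G V) (J : Type) : Representation ℚ G (J → V) where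
  toFun g := LinearMap.pi fun j => (ρ g).comp (LinearMap.proj j)
  map_one' := by
    ext; simp
  map_mul' g h := by
    ext; simp

theorem powRep_apply (ρ : Representation ℚ G V) (J : Type) (g : G) (q : J → V) (j : J) :
    powRep ρ J g q j = ρ g (q j) := rfl

theorem dualInv_pow [FiniteDimensional ℚ V] (ρ : Representation ℚ G V) (c : G) (k : ℕ) :
    k * finrank ℚ ↥(dualInv ρ c ⊥) ≤ finrank ℚ ↥(dualInv (powRep ρ (Fin k)) c ⊥) := by
  let g : (Fin k → ↥(dualInv ρ c ⊥)) →ₗ[ℚ] ↥(dualInv (powRep ρ (Fin k)) c ⊥) :=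
    { toFun := fun ζ => ⟨∑ j, (ζ j : Dual ℚ V).comp (LinearMap.proj j), by
        refine ⟨fun q => ?_, fun q hq => ?_⟩
        · rw [LinearMap.sum_apply, LinearMap.sum_apply]
          refine Finset.sum_congr rfl fun j _ => ?_
          rw [LinearMap.comp_apply, LinearMap.comp_apply, LinearMap.proj_apply,
            LinearMap.proj_apply, powRep_apply, (ζ j).2.1]
        · rw [(Submodule.mem_bot ℚ).mp hq, map_zero]⟩
      map_add' := fun a b => by
        ext q
        simp [Finset.sum_add_distrib]
      map_smul' := fun a b => by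
        ext q
        simp [Finset.mul_sum] }
  have hinj : Function.Injective g := by
    intro a b hab
    funext j
    apply Subtype.ext
    apply LinearMap.ext
    intro v
    have h := congrArg (fun z : ↥(dualInv (powRep ρ (Fin k)) c ⊥) =>
      (z : Dual ℚ (Fin k → V)) (Pi.single j v)) hab
    simp only [g, LinearMap.coe_mk, AddHom.coe_mk, LinearMap.sum_apply, LinearMap.comp_apply,
      LinearMap.proj_apply] at h
    rw [Finset.sum_eq_single j, Finset.sum_eq_single j, Pi.single_eq_same] at h
    · exact h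
    · intro i _ hi; rw [Pi.single_eq_of_ne hi, map_zero]
    · intro h; exact absurd (Finset.mem_univ _) h
    · intro i _ hi; rw [Pi.single_eq_of_ne hi, map_zero]
    · intro h; exact absurd (Finset.mem_univ _) h
  have h1 := LinearMap.finrank_le_finrank_of_injective hinj
  rwa [finrank_pi_fintype, Finset.sum_const, Finset.card_univ, Fintype.card_fin,
    smul_eq_mul] at h1

end pow

section field

variable {G : Type} [Group G] {V : Type} [AddCommGroup V] [Module ℚ V]
  {E : Type} [Field E] [Algebra ℚ E] [Module E V] [IsScalarTower ℚ E V]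

/-- The relations over `E` between the coordinates of the elements of `Q'`. -/
def rel (n : ℕ) (E : Type) [Field E] [Module E V] (Q' : Set (Fin n → V)) :
    Submodule E (Fin n → E) where
  carrier := {p | ∀ q ∈ Q', ∑ j, p j • q j = 0}
  add_mem' := by
    intro a b ha hb q hq
    simp only [Pi.add_apply, add_smul, Finset.sum_add_distrib, ha q hq, hb q hq, add_zero]
  zero_mem' := by
    intro q _
    simp
  smul_mem' := by
    intro r a ha q hq
    simp only [Pi.smul_apply, smul_eq_mul, mul_smul, ← Finset.smul_sum, ha q hq, smul_zero]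

theorem le_dualInv [FiniteDimensional ℚ V] (ρ : Representation ℚ G V) (c : G)
    (hE : ∀ (g : G) (e : E) (v : V), ρ g (e • v) = e • ρ g v) (n : ℕ)
    (Q' : Submodule ℚ (Fin n → V)) :
    finrank E ↥(rel n E (Q' : Set (Fin n → V))) * finrank ℚ ↥(dualInv ρ c ⊥) ≤
      finrank ℚ ↥(dualInv (powRep ρ (Fin n)) c Q') := by
  set P := rel n E (Q' : Set (Fin n → V)) with hP
  set k := finrank E P with hk
  let b : Basis (Fin k) E P := finBasis E P
  -- the map with rows `b l`
  let F : (Fin n → V) →ₗ[ℚ] (Fin k → V) :=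
    { toFun := fun q l => ∑ j, (b l : Fin n → E) j • q j
      map_add' := fun a a' => by
        funext l
        simp only [Pi.add_apply, smul_add, Finset.sum_add_distrib]
      map_smul' := fun r a => by
        funext l
        simp only [Pi.smul_apply, RingHom.id_apply, Finset.smul_sum]
        refine Finset.sum_congr rfl fun j _ => ?_
        rw [← algebraMap_smul E r (a j), smul_comm, algebraMap_smul] }
  refine (dualInv_pow ρ c k).trans (dualInv_of_surj (powRep ρ (Fin n)) (powRep ρ (Fin k)) c Q' F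
    ?_ ?_ ?_)
  · -- surjectivity
    have hli : LinearIndependent E (fun l => (b l : Fin n → E)) :=
      b.linearIndependent.map' P.subtype P.ker_subtype
    let f : (Fin k → E) →ₗ[E] (Fin n → E) := Fintype.linearCombination E (fun l => (b l : Fin n → E))
    have hf : LinearMap.ker f = ⊥ := by
      rw [LinearMap.ker_eq_bot]
      exact hli.fintypeLinearCombination_injective
    obtain ⟨g, hg⟩ := f.exists_leftInverse_of_injective hf
    intro v
    refine ⟨fun j => ∑ m, g (Pi.single j 1) m • v m, ?_⟩
    funext l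
    show ∑ j, (b l : Fin n → E) j • ∑ m, g (Pi.single j 1) m • v m = v l
    have h1 : g (b l : Fin n → E) = Pi.single l 1 := by
      have h2 := congrArg (fun φ : (Fin k → E) →ₗ[E] (Fin k → E) => φ (Pi.single l 1)) hg
      simp only [LinearMap.comp_apply, LinearMap.id_apply] at h2
      rw [← h2]
      congr 1
      simp [f]
    have h3 : ∀ m, ∑ j, (b l : Fin n → E) j * g (Pi.single j 1) m = g (b l : Fin n → E) m := by
      intro m
      have h4 := LinearMap.pi_apply_eq_sum_univ g (b l : Fin n → E)
      have h5 := congrFun h4 m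
      rw [h5, Finset.sum_apply]
      refine Finset.sum_congr rfl fun j _ => ?_
      rw [Pi.smul_apply, smul_eq_mul]
      have h6 : (Pi.single j (1 : E) : Fin n → E) = fun i => if j = i then 1 else 0 := by
        funext i
        simp [Pi.single_apply, eq_comm]
      rw [h6]
    simp only [Finset.smul_sum, smul_smul]
    rw [Finset.sum_comm]
    simp only [← Finset.sum_smul, h3, h1]
    rw [Finset.sum_eq_single l]
    · rw [Pi.single_eq_same, one_smul]
    · intro m _ hm
      rw [Pi.single_eq_of_ne hm, zero_smul]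
    · intro h; exact absurd (Finset.mem_univ _) h
  · intro q
    funext l
    show ∑ j, (b l : Fin n → E) j • ρ c (q j) = ρ c (∑ j, (b l : Fin n → E) j • q j)
    rw [map_sum]
    refine Finset.sum_congr rfl fun j _ => ?_
    rw [hE]
  · intro q hq
    funext l
    exact (b l).2 q hq

/-- irreducibility, in the form used -/
theorem eq_zero_of_orbit (ρ : Representation ℚ G V) [ρ.IsIrreducible] (ψ : Dual ℚ V)
    (hψ : ψ ≠ 0) (v : V) (hv : ∀ g, ψ (ρ g v) = 0) : v = 0 := by
  let S : Subrepresentation ρ :=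
    { toSubmodule :=
        { carrier := {u | ∀ g, ψ (ρ g u) = 0}
          add_mem' := fun {a b} ha hb g => by rw [map_add, map_add, ha g, hb g, add_zero]
          zero_mem' := fun g => by rw [map_zero, map_zero]
          smul_mem' := fun r a ha g => by rw [map_smul, map_smul, ha g, smul_zero] }
      apply_mem_toSubmodule := fun h u hu g => by
        have h1 := hu (g * h)
        rwa [map_mul] at h1 }
  rcases eq_bot_or_eq_top S with h | h
  · have : v ∈ S := hv
    rw [h] at this
    exact (Submodule.mem_bot ℚ).mp this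
  · exfalso
    apply hψ
    apply LinearMap.ext
    intro u
    have h1 : u ∈ S := by rw [h]; exact Submodule.mem_top
    have h2 := h1 1
    rwa [map_one] at h2

/-- From a matrix over `E` to a family of functionals. -/
def Theta (I : Type) (n : ℕ) (ψ : Dual ℚ V) :
    (I → Fin n → E) →ₗ[ℚ] (I → Dual ℚ (Fin n → V)) where
  toFun x i :=
    { toFun := fun q => ψ (∑ j, x i j • q j)
      map_add' := fun a b => by
        simp only [Pi.add_apply, smul_add, Finset.sum_add_distrib, map_add]
      map_smul' := fun r a => by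
        simp only [Pi.smul_apply, RingHom.id_apply]
        rw [← map_smul, Finset.smul_sum]
        congr 1
        refine Finset.sum_congr rfl fun j _ => ?_
        rw [← algebraMap_smul E r (a j), smul_comm, algebraMap_smul] }
  map_add' a b := by
    funext i
    apply LinearMap.ext
    intro q
    simp [add_smul, Finset.sum_add_distrib]
  map_smul' r a := by
    funext i
    apply LinearMap.ext
    intro q
    simp [Finset.mul_sum]

theorem Theta_apply (I : Type) (n : ℕ) (ψ : Dual ℚ V) (x : I → Fin n → E) (i : I)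
    (q : Fin n → V) : Theta I n ψ x i q = ψ (∑ j, x i j • q j) := rfl

theorem Theta_injective (I : Type) (n : ℕ) (ψ : Dual ℚ V) (hψ : ψ ≠ 0) :
    Function.Injective (Theta (E := E) I n ψ) := by
  rw [← LinearMap.ker_eq_bot, LinearMap.ker_eq_bot']
  intro x hx
  funext i j
  by_contra hne
  apply hψ
  apply LinearMap.ext
  intro v
  have h1 := congrArg (fun f : Dual ℚ (Fin n → V) => f (Pi.single j ((x i j)⁻¹ • v)))
    (congrFun hx i)
  simp only [Theta_apply, Pi.zero_apply, LinearMap.zero_apply] at h1
  rw [Finset.sum_eq_single j, Pi.single_eq_same, smul_smul, mul_inv_cancel₀ hne, one_smul] at h1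
  · exact h1
  · intro m _ hm
    rw [Pi.single_eq_of_ne hm, smul_zero]
  · intro h; exact absurd (Finset.mem_univ _) h

/-- The matrices in `X` whose rows lie in `P`. -/
def rows {I : Type} {n : ℕ} (X : Submodule ℚ (I → Fin n → E)) (P : Submodule E (Fin n → E)) :
    Submodule ℚ (I → Fin n → E) where
  carrier := {x | x ∈ X ∧ ∀ i, x i ∈ P}
  add_mem' := fun ha hb => ⟨X.add_mem ha.1 hb.1, fun i => P.add_mem (ha.2 i) (hb.2 i)⟩
  zero_mem' := ⟨X.zero_mem, fun i => P.zero_mem⟩
  smul_mem' := fun r a ha => ⟨X.smul_mem r ha.1, fun i => by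
    rw [Pi.smul_apply, ← algebraMap_smul E r (a i)]
    exact P.smul_mem _ (ha.2 i)⟩

theorem mem_rel_of_killing (ρ : Representation ℚ G V) [ρ.IsIrreducible]
    (hE : ∀ (g : G) (e : E) (v : V), ρ g (e • v) = e • ρ g v)
    (ψ : Dual ℚ V) (hψ : ψ ≠ 0) (n : ℕ) (Q' : Submodule ℚ (Fin n → V))
    (hQ' : ∀ g, ∀ q ∈ Q', powRep ρ (Fin n) g q ∈ Q') (x : Fin n → E)
    (hx : ∀ q ∈ Q', ψ (∑ j, x j • q j) = 0) : x ∈ rel n E (Q' : Set (Fin n → V)) := by
  intro q hq
  apply eq_zero_of_orbit ρ ψ hψ
  intro g
  have h1 := hx _ (hQ' g q hq)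
  rw [← h1, map_sum]
  congr 1
  refine Finset.sum_congr rfl fun j _ => ?_
  rw [hE]
  rfl

theorem finrank_killing (ρ : Representation ℚ G V) [ρ.IsIrreducible] [FiniteDimensional ℚ E]
    (hE : ∀ (g : G) (e : E) (v : V), ρ g (e • v) = e • ρ g v)
    (ψ : Dual ℚ V) (hψ : ψ ≠ 0) (n : ℕ) (I : Type) [Fintype I]
    (X : Submodule ℚ (I → Fin n → E)) (Q' : Submodule ℚ (Fin n → V))
    (hQ' : ∀ g, ∀ q ∈ Q', powRep ρ (Fin n) g q ∈ Q') :
    finrank ℚ ↥(X.map (Theta I n ψ) ⊓ killing I Q') ≤
      finrank ℚ ↥(rows X (rel n E (Q' : Set (Fin n → V)))) := by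
  have h1 : X.map (Theta I n ψ) ⊓ killing I Q' ≤
      (rows X (rel n E (Q' : Set (Fin n → V)))).map (Theta I n ψ) := by
    rintro ξ ⟨⟨x, hx, rfl⟩, hk⟩
    refine ⟨x, ⟨hx, fun i => ?_⟩, rfl⟩
    exact mem_rel_of_killing ρ hE ψ hψ n Q' hQ' (x i) (fun q hq => hk i q hq)
  have h2 := Submodule.finrank_mono h1
  refine h2.trans ?_
  exact Submodule.finrank_map_le _ _

end field

end Pool.Agent.H447.Clo
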