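import Mathlib
import Pool.Agent.H447.Clo.Lin
import Pool.Agent.H447.Clo.Indep

set_option autoImplicit false
set_option linter.unusedSectionVars false

/-!
# The group belonging to a singular semistable space
-/

namespace Pool.Agent.H447.Clo

open Module

section setup

variable (K N : Type) [Field K] [NumberField K] [Field N] [NumberField N]

/-- The exponents of a group generated by products of conjugates of independent numbers. -/
structure Setup where
  ι : K →ₐ[ℚ] N
  c : N ≃ₐ[ℚ] N
  hc : c * c = 1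
  I : Type
  fI : Fintype I
  M : ℕ
  T : I → Fin M → (N ≃ₐ[ℚ] N) → ℤ
  hH : ∀ h : N ≃ₐ[ℚ] N, (∀ y : K, h (ι y) = ι y) → ∀ i k g, T i k (h * g) = T i k g
  inj : ∀ v : Fin M → ℚ, (∀ i g, ∑ k, v k * (T i k g : ℚ) = 0) → v = 0

end setup

namespace Setup

variable {K N : Type} [Field K] [NumberField K] [Field N] [NumberField N] (D : Setup K N)

attribute [instance] Setup.fI

/-- The exponents belonging to a rational vector. -/
def e (v : Fin D.M → ℚ) (i : D.I) (g : N ≃ₐ[ℚ] N) : ℚ := ∑ k, v k * (D.T i k g : ℚ)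

/-- The exponents belonging to an integral vector. -/
def ez (v : Fin D.M → ℤ) (i : D.I) (g : N ≃ₐ[ℚ] N) : ℤ := ∑ k, v k * D.T i k g

theorem e_add (v w : Fin D.M → ℚ) (i : D.I) (g : N ≃ₐ[ℚ] N) :
    D.e (v + w) i g = D.e v i g + D.e w i g := by
  simp only [e, Pi.add_apply, add_mul, Finset.sum_add_distrib]

theorem e_zero (i : D.I) (g : N ≃ₐ[ℚ] N) : D.e 0 i g = 0 := by
  simp [e]

theorem e_smul (r : ℚ) (v : Fin D.M → ℚ) (i : D.I) (g : N ≃ₐ[ℚ] N) :
    D.e (r • v) i g = r * D.e v i g := by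
  simp only [e, Pi.smul_apply, smul_eq_mul, Finset.mul_sum, mul_assoc]

theorem ez_add (v w : Fin D.M → ℤ) (i : D.I) (g : N ≃ₐ[ℚ] N) :
    D.ez (v + w) i g = D.ez v i g + D.ez w i g := by
  simp only [ez, Pi.add_apply, add_mul, Finset.sum_add_distrib]

theorem ez_zero (i : D.I) (g : N ≃ₐ[ℚ] N) : D.ez 0 i g = 0 := by
  simp [ez]

theorem e_cast (v : Fin D.M → ℤ) (i : D.I) (g : N ≃ₐ[ℚ] N) :
    D.e (fun k => (v k : ℚ)) i g = (D.ez v i g : ℚ) := by
  simp only [e, ez]
  push_cast
  rfl

theorem ez_H {h : N ≃ₐ[ℚ] N} (hh : ∀ y : K, h (D.ι y) = D.ι y) (v : Fin D.M → ℤ) (i : D.I)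
    (g : N ≃ₐ[ℚ] N) : D.ez v i (h * g) = D.ez v i g := by
  simp only [ez, D.hH h hh]

theorem ez_injective (v : Fin D.M → ℤ) (h : ∀ i g, D.ez v i g = 0) : v = 0 := by
  have h1 := D.inj (fun k => (v k : ℚ)) (fun i g => by
    have := D.e_cast v i g
    rw [h i g, Int.cast_zero] at this
    exact this)
  funext k
  have h2 : (v k : ℚ) = 0 := congrFun h1 k
  show v k = 0
  exact_mod_cast h2

/-- The vectors whose exponents are killed by `(1 + c) Y`. -/
def KY (Y : Set ((N ≃ₐ[ℚ] N) → ℚ)) : Submodule ℚ (Fin D.M → ℚ) where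
  carrier := {v | ∀ y ∈ Y, ∀ i g, ∑ h, y h * (D.e v i (h⁻¹ * g) + D.e v i (h⁻¹ * (D.c * g))) = 0}
  add_mem' := by
    intro a b ha hb y hy i g
    have h1 := ha y hy i g
    have h2 := hb y hy i g
    rw [← add_zero (0 : ℚ)]
    nth_rewrite 1 [← h1]
    rw [← h2, ← Finset.sum_add_distrib]
    refine Finset.sum_congr rfl fun h _ => ?_
    rw [e_add, e_add]
    ring
  zero_mem' := by
    intro y hy i g
    refine Finset.sum_eq_zero fun h _ => ?_
    rw [e_zero, e_zero, add_zero, mul_zero]
  smul_mem' := by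
    intro r a ha y hy i g
    have h1 := ha y hy i g
    rw [← mul_zero r, ← h1, Finset.mul_sum]
    refine Finset.sum_congr rfl fun h _ => ?_
    rw [e_smul, e_smul]
    ring

/-- The functions on `c \ G / H` orthogonal to `Y`. -/
def UY (Y : Set ((N ≃ₐ[ℚ] N) → ℚ)) : Submodule ℚ ((N ≃ₐ[ℚ] N) → ℚ) where
  carrier := {u | (∀ g, u (D.c * g) = u g) ∧
    (∀ g h : N ≃ₐ[ℚ] N, (∀ y : K, h (D.ι y) = D.ι y) → u (g * h) = u g) ∧
    ∀ y ∈ Y, ∑ g, y g * u g = 0}
  add_mem' := by
    rintro a b ⟨h1, h2, h3⟩ ⟨h4, h5, h6⟩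
    refine ⟨fun g => ?_, fun g h hh => ?_, fun y hy => ?_⟩
    · rw [Pi.add_apply, Pi.add_apply, h1, h4]
    · rw [Pi.add_apply, Pi.add_apply, h2 g h hh, h5 g h hh]
    · simp only [Pi.add_apply, mul_add, Finset.sum_add_distrib, h3 y hy, h6 y hy, add_zero]
  zero_mem' := by
    refine ⟨fun g => rfl, fun g h hh => rfl, fun y hy => ?_⟩
    simp
  smul_mem' := by
    rintro r a ⟨h1, h2, h3⟩
    refine ⟨fun g => ?_, fun g h hh => ?_, fun y hy => ?_⟩
    · rw [Pi.smul_apply, Pi.smul_apply, h1]
    · rw [Pi.smul_apply, Pi.smul_apply, h2 g h hh]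
    · have := h3 y hy
      rw [← mul_zero r, ← this, Finset.mul_sum]
      refine Finset.sum_congr rfl fun g _ => ?_
      rw [Pi.smul_apply, smul_eq_mul]
      ring

/-- semistability -/
def Semi : Prop := ∀ Y : Set ((N ≃ₐ[ℚ] N) → ℚ), finrank ℚ (D.KY Y) ≤ finrank ℚ (D.UY Y)

/-- singularity -/
def Sing : Prop := ∀ l : D.I → (N ≃ₐ[ℚ] N) → ℚ, (∀ i g, l i (D.c * g) = l i g) →
  ∃ v : Fin D.M → ℚ, v ≠ 0 ∧ ∀ g', ∑ i, ∑ g, D.e v i g * l i (g' * g) = 0

end Setup

section fromBad

theorem exists_common_denom {α : Type} [Fintype α] (f : α → ℚ) :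
    ∃ d : ℤ, d ≠ 0 ∧ ∃ F : α → ℤ, ∀ a, (F a : ℚ) = d * f a := by
  refine ⟨∏ a, ((f a).den : ℤ), ?_, ?_⟩
  · exact Finset.prod_ne_zero_iff.mpr fun a _ => by exact_mod_cast (f a).den_nz
  · classical
    refine ⟨fun a => (∏ b ∈ Finset.univ.erase a, ((f b).den : ℤ)) * (f a).num, fun a => ?_⟩
    rw [← Finset.mul_prod_erase _ _ (Finset.mem_univ a)]
    push_cast
    have h1 : ((f a).den : ℚ) * f a = (f a).num := Rat.den_mul_eq_num (f a)
    rw [← h1]
    ring

variable {K N : Type} [Field K] [NumberField K] [Field N] [NumberField N]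
  {Q : Type} [AddCommGroup Q] [Module ℚ Q] [FiniteDimensional ℚ Q]

/-- From a singular semistable space of functionals to the exponents. -/
theorem exists_setup (ι : K →ₐ[ℚ] N) (c : N ≃ₐ[ℚ] N) (hc : c * c = 1)
    (ρ : Representation ℚ (N ≃ₐ[ℚ] N) Q) (I : Type) [Fintype I]
    (L : Submodule ℚ (I → Dual ℚ Q)) (hL : Bad ρ c I L) (q₀ : Q)
    (hq : ∀ h : N ≃ₐ[ℚ] N, (∀ y : K, h (ι y) = ι y) → ρ h q₀ = q₀)
    (hspan : Submodule.span ℚ (Set.range fun g => ρ g q₀) = ⊤) :
    ∃ D : Setup K N, D.c = c ∧ D.Semi ∧ D.Sing := by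
  classical
  -- a basis, scaled
  let b := finBasis ℚ L
  obtain ⟨d, hd, F, hF⟩ := exists_common_denom
    (fun a : I × Fin (finrank ℚ L) × (N ≃ₐ[ℚ] N) => (b a.2.1 : I → Dual ℚ Q) a.1 (ρ a.2.2⁻¹ q₀))
  -- the functionals of a vector
  let ξ : (Fin (finrank ℚ L) → ℚ) → (I → Dual ℚ Q) := fun v =>
    ((∑ k, v k • b k : L) : I → Dual ℚ Q)
  have hξ : ∀ v i q, ξ v i q = ∑ k, v k * (b k : I → Dual ℚ Q) i q := by
    intro v i q
    simp only [ξ, Submodule.coe_sum, Submodule.coe_smul, Finset.sum_apply, Pi.smul_apply,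
      LinearMap.sum_apply, LinearMap.smul_apply, smul_eq_mul]
  have hξ0 : ∀ v, ξ v = 0 → v = 0 := by
    intro v hv
    have h1 : (∑ k, v k • b k : L) = 0 := Subtype.ext hv
    exact Fintype.linearIndependent_iff.mp b.linearIndependent v h1 |> fun h => funext h
  have hξs : ∀ η ∈ L, ∃ v, ξ v = η := by
    intro η hη
    refine ⟨fun k => b.repr ⟨η, hη⟩ k, ?_⟩
    show ((∑ k, b.repr ⟨η, hη⟩ k • b k : L) : I → Dual ℚ Q) = η
    rw [b.sum_repr]
  have hd' : (d : ℚ) ≠ 0 := by exact_mod_cast hd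
  -- the relation between exponents and functionals
  have hFe : ∀ (v : Fin (finrank ℚ L) → ℚ) (i : I) (g : N ≃ₐ[ℚ] N),
      ∑ k, v k * (F (i, k, g) : ℚ) = d * ξ v i (ρ g⁻¹ q₀) := by
    intro v i g
    rw [hξ, Finset.mul_sum]
    refine Finset.sum_congr rfl fun k _ => ?_
    rw [hF]
    ring
  have hvan : ∀ ζ : Dual ℚ Q, (∀ g, ζ (ρ g q₀) = 0) → ζ = 0 := by
    intro ζ hζ
    apply LinearMap.ext
    intro q
    have h1 : q ∈ Submodule.span ℚ (Set.range fun g => ρ g q₀) := by rw [hspan]; trivial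
    induction h1 using Submodule.span_induction with
    | mem x hx =>
      obtain ⟨g, rfl⟩ := hx
      exact hζ g
    | zero => rw [map_zero]; rfl
    | add x y _ _ hx hy => rw [map_add, hx, hy]; simp
    | smul a x _ hx => rw [map_smul, hx]; simp
  let D : Setup K N :=
    { ι := ι
      c := c
      hc := hc
      I := I
      fI := inferInstance
      M := finrank ℚ L
      T := fun i k g => F (i, k, g)
      hH := by
        intro h hh i k g
        have h1 : (F (i, k, h * g) : ℚ) = F (i, k, g) := by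
          rw [hF, hF]
          have h2 : ρ (h * g)⁻¹ q₀ = ρ g⁻¹ q₀ := by
            rw [mul_inv_rev, map_mul]
            show ρ g⁻¹ (ρ h⁻¹ q₀) = _
            congr 1
            apply hq
            intro y
            have h3 := hh y
            have h4 : h⁻¹ (h (ι y)) = ι y := by
              rw [← AlgEquiv.mul_apply, inv_mul_cancel, AlgEquiv.one_apply]
            rwa [h3] at h4
          show (d : ℚ) * (b k : I → Dual ℚ Q) i (ρ (h * g)⁻¹ q₀) =
            d * (b k : I → Dual ℚ Q) i (ρ g⁻¹ q₀)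
          rw [h2]
        exact_mod_cast h1
      inj := by
        intro v hv
        apply hξ0
        funext i
        apply hvan
        intro g
        have h1 := hv i g⁻¹
        rw [hFe, inv_inv] at h1
        exact (mul_eq_zero.mp h1).resolve_left hd' }
  have he : ∀ (v : Fin (finrank ℚ L) → ℚ) (i : I) (g : N ≃ₐ[ℚ] N),
      D.e v i g = d * ξ v i (ρ g⁻¹ q₀) := hFe
  refine ⟨D, rfl, ?_, ?_⟩
  · -- semistability
    intro Y
    -- the submodule generated by `(1 + c) Y q₀`
    let S : Set Q := {q | ∃ y ∈ Y, ∃ g : N ≃ₐ[ℚ] N, q = ρ g (∑ h, y h • (ρ h q₀ + ρ (c * h) q₀))}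
    let Q' : Submodule ℚ Q := Submodule.span ℚ S
    have hQ' : ∀ g, ∀ q ∈ Q', ρ g q ∈ Q' := by
      intro g q hq'
      induction hq' using Submodule.span_induction with
      | mem x hx =>
        obtain ⟨y, hy, g', rfl⟩ := hx
        apply Submodule.subset_span
        refine ⟨y, hy, g * g', ?_⟩
        rw [map_mul]
        rfl
      | zero => rw [map_zero]; exact Q'.zero_mem
      | add x y _ _ hx hy => rw [map_add]; exact Q'.add_mem hx hy
      | smul a x _ hx => rw [map_smul]; exact Q'.smul_mem a hx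
    have h1 : finrank ℚ (D.KY Y) ≤ finrank ℚ ↥(L ⊓ killing I Q') := by
      let f : D.KY Y →ₗ[ℚ] ↥(L ⊓ killing I Q') :=
        { toFun := fun v => ⟨ξ v.1, by
            refine ⟨(∑ k, v.1 k • b k : L).2, ?_⟩
            intro i q hqQ
            induction hqQ using Submodule.span_induction with
            | mem x hx =>
              obtain ⟨y, hy, g, rfl⟩ := hx
              have h2 := v.2 y hy i g⁻¹
              rw [map_sum, map_sum]
              have h3 : ∀ h : N ≃ₐ[ℚ] N, (d : ℚ) * ξ v.1 i (ρ g (y h • (ρ h q₀ + ρ (c * h) q₀))) =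
                  y h * (D.e v.1 i (h⁻¹ * g⁻¹) + D.e v.1 i (h⁻¹ * (D.c * g⁻¹))) := by
                intro h
                rw [map_smul, map_smul, map_add, map_add, he, he, smul_eq_mul]
                have h4 : (h⁻¹ * g⁻¹)⁻¹ = g * h := by group
                have h5 : (h⁻¹ * (D.c * g⁻¹))⁻¹ = g * (c * h) := by
                  have h6 : D.c⁻¹ = c := inv_eq_of_mul_eq_one_left hc
                  rw [mul_inv_rev, mul_inv_rev, inv_inv, inv_inv, h6, mul_assoc]
                have h8 : ρ (g * h) q₀ = ρ g (ρ h q₀) := by rw [map_mul]; rfl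
                have h9 : ρ (g * (c * h)) q₀ = ρ g (ρ (c * h) q₀) := by
                  rw [map_mul ρ g (c * h)]; rfl
                rw [h4, h5, h8, h9]
                ring
              have h7 : (d : ℚ) * ∑ h, ξ v.1 i (ρ g (y h • (ρ h q₀ + ρ (c * h) q₀))) = 0 := by
                rw [Finset.mul_sum, ← h2]
                exact Finset.sum_congr rfl fun h _ => h3 h
              exact (mul_eq_zero.mp h7).resolve_left hd'
            | zero => rw [map_zero]
            | add x y _ _ hx hy => rw [map_add, hx, hy, add_zero]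
            | smul a x _ hx => rw [map_smul, hx, smul_zero]⟩
          map_add' := fun v w => by
            apply Subtype.ext
            funext i
            apply LinearMap.ext
            intro q
            show ξ (v.1 + w.1) i q = ξ v.1 i q + ξ w.1 i q
            rw [hξ, hξ, hξ, ← Finset.sum_add_distrib]
            refine Finset.sum_congr rfl fun k _ => ?_
            rw [Pi.add_apply]; ring
          map_smul' := fun r v => by
            apply Subtype.ext
            funext i
            apply LinearMap.ext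
            intro q
            show ξ (r • v.1) i q = r * ξ v.1 i q
            rw [hξ, hξ, Finset.mul_sum]
            refine Finset.sum_congr rfl fun k _ => ?_
            rw [Pi.smul_apply, smul_eq_mul]; ring }
      refine LinearMap.finrank_le_finrank_of_injective (f := f) ?_
      rw [← LinearMap.ker_eq_bot, LinearMap.ker_eq_bot']
      intro v hv
      apply Subtype.ext
      apply hξ0
      exact congrArg Subtype.val hv
    have h2 : finrank ℚ ↥(dualInv ρ c Q') ≤ finrank ℚ (D.UY Y) := by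
      let f : ↥(dualInv ρ c Q') →ₗ[ℚ] D.UY Y :=
        { toFun := fun ζ => ⟨fun g => ζ.1 (ρ g q₀), by
            refine ⟨fun g => ?_, fun g h hh => ?_, fun y hy => ?_⟩
            · show ζ.1 (ρ (c * g) q₀) = _
              rw [map_mul]
              exact ζ.2.1 _
            · show ζ.1 (ρ (g * h) q₀) = _
              rw [map_mul]
              show ζ.1 (ρ g (ρ h q₀)) = _
              rw [hq h hh]
            · have h3 : ζ.1 (∑ h, y h • (ρ h q₀ + ρ (c * h) q₀)) = 0 := by
                apply ζ.2.2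
                apply Submodule.subset_span
                refine ⟨y, hy, 1, ?_⟩
                rw [map_one]
                rfl
              rw [map_sum] at h3
              have h4 : ∀ h : N ≃ₐ[ℚ] N, ζ.1 (y h • (ρ h q₀ + ρ (c * h) q₀)) =
                  2 * (y h * ζ.1 (ρ h q₀)) := by
                intro h
                rw [map_smul, map_add, map_mul]
                have h5 : ζ.1 ((ρ c * ρ h) q₀) = ζ.1 (ρ h q₀) := ζ.2.1 (ρ h q₀)
                rw [h5, smul_eq_mul]
                ring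
              simp only [h4, ← Finset.mul_sum] at h3
              exact (mul_eq_zero.mp h3).resolve_left two_ne_zero⟩
          map_add' := fun a b => rfl
          map_smul' := fun r a => rfl }
      refine LinearMap.finrank_le_finrank_of_injective (f := f) ?_
      rw [← LinearMap.ker_eq_bot, LinearMap.ker_eq_bot']
      intro ζ hζ
      apply Subtype.ext
      apply hvan
      intro g
      exact congrFun (congrArg Subtype.val hζ) g
    exact h1.trans ((hL.semi Q' hQ').trans h2)
  · -- singularity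
    intro l hl
    obtain ⟨η, hη, hη0, hrel⟩ := hL.sing (fun i g => l i g⁻¹) (by
      intro i g
      show l i (g * c)⁻¹ = l i g⁻¹
      have h6 : c⁻¹ = c := inv_eq_of_mul_eq_one_left hc
      rw [mul_inv_rev, h6]
      exact hl i g⁻¹)
    obtain ⟨v, rfl⟩ := hξs η hη
    refine ⟨v, ?_, ?_⟩
    · intro h
      apply hη0
      rw [h]
      funext i
      apply LinearMap.ext
      intro q
      rw [hξ]
      simp
    · intro g'
      have h1 := hrel (ρ g' q₀)
      have h2 : ∀ i : I, ∑ g, D.e v i g * l i (g' * g) =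
          d * ∑ g, l i g⁻¹ * ξ v i (ρ g (ρ g' q₀)) := by
        intro i
        rw [← Equiv.sum_comp ((Equiv.inv (N ≃ₐ[ℚ] N)).trans (Equiv.mulRight g'⁻¹))
          (fun g => l i g⁻¹ * ξ v i (ρ g (ρ g' q₀))), Finset.mul_sum]
        refine Finset.sum_congr rfl fun g _ => ?_
        show D.e v i g * l i (g' * g) =
          d * (l i (g⁻¹ * g'⁻¹)⁻¹ * ξ v i (ρ (g⁻¹ * g'⁻¹) (ρ g' q₀)))
        have h3 : (g⁻¹ * g'⁻¹)⁻¹ = g' * g := by group
        have h4 : ρ (g⁻¹ * g'⁻¹) (ρ g' q₀) = ρ g⁻¹ q₀ := by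
          have h5 : ρ (g⁻¹ * g'⁻¹) (ρ g' q₀) = (ρ (g⁻¹ * g'⁻¹) * ρ g') q₀ := rfl
          rw [h5, ← map_mul]
          congr 2
          group
        rw [h3, h4, he]
        ring
      have h3 : ∑ i : I, ∑ g, D.e v i g * l i (g' * g) =
          d * ∑ i, ∑ g, l i g⁻¹ * ξ v i (ρ g (ρ g' q₀)) := by
        rw [Finset.mul_sum]
        exact Finset.sum_congr rfl fun i _ => h2 i
      show ∑ i : I, ∑ g, D.e v i g * l i (g' * g) = 0
      rw [h3, h1, mul_zero]

end fromBad

end Pool.Agent.H447.Clo
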