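import Mathlib

set_option autoImplicit false
set_option linter.unusedSectionVars false

/-!
# Embeddings of a subfield of a Galois extension
-/

namespace Pool.Agent.H447.Clo

variable {K N Ω : Type} [Field K] [NumberField K] [Field N] [NumberField N] [IsGalois ℚ N]
  [Field Ω] [IsAlgClosed Ω] [Algebra ℚ Ω]

theorem exists_gal_of_emb (τ φ : N →ₐ[ℚ] Ω) : ∃ g : N ≃ₐ[ℚ] N, ∀ y, φ y = τ (g y) := by
  classical
  have hinj : Function.Injective (fun g : N ≃ₐ[ℚ] N => τ.comp (g : N →ₐ[ℚ] N)) := by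
    intro g h hgh
    ext y
    apply τ.toRingHom.injective
    exact congrArg (fun f : N →ₐ[ℚ] Ω => f y) hgh
  have hcard : Fintype.card (N ≃ₐ[ℚ] N) = Fintype.card (N →ₐ[ℚ] Ω) := by
    rw [AlgHom.card ℚ N Ω, ← IsGalois.card_aut_eq_finrank ℚ N, Nat.card_eq_fintype_card]
  have hbij := (Fintype.bijective_iff_injective_and_card
    (fun g : N ≃ₐ[ℚ] N => τ.comp (g : N →ₐ[ℚ] N))).mpr ⟨hinj, hcard⟩
  obtain ⟨g, hg⟩ := hbij.2 φ
  exact ⟨g, fun y => (congrArg (fun f : N →ₐ[ℚ] Ω => f y) hg).symm⟩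

theorem exists_ext_emb (ι : K →ₐ[ℚ] N) (σ : K →ₐ[ℚ] Ω) : ∃ φ : N →ₐ[ℚ] Ω, φ.comp ι = σ := by
  let _ : Algebra K N := (ι : K →+* N).toAlgebra
  have _ : IsScalarTower ℚ K N := IsScalarTower.of_algebraMap_eq fun x => (ι.commutes x).symm
  have _ : Algebra.IsAlgebraic K N := Algebra.IsAlgebraic.tower_top (K := ℚ) K
  obtain ⟨φ, hφ⟩ := IsAlgClosed.surjective_domRestrict_of_isAlgebraic
    (K := ℚ) (M := Ω) (L := K) (E := N) σ
  refine ⟨φ, ?_⟩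
  ext x
  have := congrArg (fun f : K →ₐ[ℚ] Ω => f x) hφ
  exact this

theorem exists_gal (τ : N →ₐ[ℚ] Ω) (ι : K →ₐ[ℚ] N) (σ : K →ₐ[ℚ] Ω) :
    ∃ g : N ≃ₐ[ℚ] N, ∀ y, σ y = τ (g (ι y)) := by
  obtain ⟨φ, rfl⟩ := exists_ext_emb ι σ
  obtain ⟨g, hg⟩ := exists_gal_of_emb τ φ
  exact ⟨g, fun y => hg (ι y)⟩

end Pool.Agent.H447.Clo
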