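import Mathlib
import Pool.Agent.H447.Clo.Lin

set_option autoImplicit false
set_option linter.unusedSectionVars false

/-!
# From exotic matrix spaces to singular semistable spaces of functionals
-/

namespace Pool.Agent.H447.Clo

open Module

/-- A space of matrices over `E` which is semistable but meets all spaces of matrices with columns
in a large subspace. -/
structure Exotic (E : Type) [Field E] [Algebra ℚ E] (I : Type) [Fintype I] (n : ℕ)
    (X : Submodule ℚ (I → Fin n → E)) (w : ℕ) : Prop where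
  semi : ∀ P : Submodule E (Fin n → E), finrank ℚ ↥(rows X P) ≤ finrank E P * w
  sing : ∀ Z : Submodule E (I → E),
    finrank ℚ E * Fintype.card I ≤ finrank ℚ E * finrank E Z + w →
    ∃ x ∈ X, x ≠ 0 ∧ ∀ j, (fun i => x i j) ∈ Z

section

variable {G : Type} [Group G] [Fintype G] {V : Type} [AddCommGroup V] [Module ℚ V]
  [FiniteDimensional ℚ V]
  {E : Type} [Field E] [Algebra ℚ E] [FiniteDimensional ℚ E] [Module E V] [IsScalarTower ℚ E V]

theorem sum_inv (ρ : Representation ℚ G V) (c : G) (ψ : Dual ℚ V) (Λ : G → ℚ)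
    (hΛ : ∀ g, Λ (g * c) = Λ g) (v : V) :
    ∑ g, Λ g * ψ (ρ g (ρ c v)) = ∑ g, Λ g * ψ (ρ g v) := by
  rw [← Equiv.sum_comp (Equiv.mulRight c) (fun g => Λ g * ψ (ρ g v))]
  refine Finset.sum_congr rfl fun g _ => ?_
  show Λ g * ψ (ρ g (ρ c v)) = Λ (g * c) * ψ (ρ (g * c) v)
  rw [hΛ, map_mul]
  rfl

/-- The relations `z` with `∑ i, z i ∘ Λ i = 0`. -/
def ZZ (ρ : Representation ℚ G V)
    (hE : ∀ (g : G) (e : E) (v : V), ρ g (e • v) = e • ρ g v) (ψ : Dual ℚ V) (I : Type)
    [Fintype I] (Λ : I → G → ℚ) : Submodule E (I → E) where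
  carrier := {z | ∀ v, ∑ i, ∑ g, Λ i g * ψ (ρ g (z i • v)) = 0}
  add_mem' := by
    intro a b ha hb v
    simp only [Pi.add_apply, add_smul, map_add, mul_add, Finset.sum_add_distrib, ha v, hb v,
      add_zero]
  zero_mem' := by
    intro v
    simp
  smul_mem' := by
    intro r a ha v
    have h1 := ha (r • v)
    rw [← h1]
    refine Finset.sum_congr rfl fun i _ => Finset.sum_congr rfl fun g _ => ?_
    rw [Pi.smul_apply, smul_smul, smul_eq_mul, mul_comm r]

theorem finrank_ZZ (ρ : Representation ℚ G V)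
    (hE : ∀ (g : G) (e : E) (v : V), ρ g (e • v) = e • ρ g v) (ψ : Dual ℚ V) (I : Type)
    [Fintype I] (Λ : I → G → ℚ) (c : G) (hΛ : ∀ i g, Λ i (g * c) = Λ i g) :
    finrank ℚ E * Fintype.card I ≤ finrank ℚ E * finrank E (ZZ ρ hE ψ I Λ) +
      finrank ℚ ↥(dualInv ρ c ⊥) := by
  let f : (I → E) →ₗ[ℚ] ↥(dualInv ρ c ⊥) :=
    { toFun := fun z => ⟨
        { toFun := fun v => ∑ i, ∑ g, Λ i g * ψ (ρ g (z i • v))
          map_add' := fun a b => by
            simp only [smul_add, map_add, mul_add, Finset.sum_add_distrib]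
          map_smul' := fun r a => by
            simp only [RingHom.id_apply, smul_eq_mul, Finset.mul_sum]
            refine Finset.sum_congr rfl fun i _ => Finset.sum_congr rfl fun g _ => ?_
            rw [← algebraMap_smul E r a, smul_comm, algebraMap_smul, map_smul, map_smul,
              smul_eq_mul]
            ring }, by
        refine ⟨fun v => ?_, fun v hv => ?_⟩
        · simp only [LinearMap.coe_mk, AddHom.coe_mk]
          refine Finset.sum_congr rfl fun i _ => ?_
          rw [← sum_inv ρ c ψ (Λ i) (hΛ i) (z i • v)]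
          refine Finset.sum_congr rfl fun g _ => ?_
          rw [hE c]
        · rw [(Submodule.mem_bot ℚ).mp hv, map_zero]⟩
      map_add' := fun a b => by
        apply Subtype.ext
        apply LinearMap.ext
        intro v
        simp only [LinearMap.coe_mk, AddHom.coe_mk, Pi.add_apply, add_smul, map_add, mul_add,
          Finset.sum_add_distrib, Submodule.coe_add, LinearMap.add_apply]
      map_smul' := fun r a => by
        apply Subtype.ext
        apply LinearMap.ext
        intro v
        simp only [LinearMap.coe_mk, AddHom.coe_mk, RingHom.id_apply, Submodule.coe_smul,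
          LinearMap.smul_apply, smul_eq_mul, Finset.mul_sum]
        refine Finset.sum_congr rfl fun i _ => Finset.sum_congr rfl fun g _ => ?_
        rw [Pi.smul_apply, smul_assoc, map_smul, map_smul, smul_eq_mul]
        ring }
  have h1 := LinearMap.finrank_range_add_finrank_ker f
  have h2 : finrank ℚ ↥(LinearMap.range f) ≤ finrank ℚ ↥(dualInv ρ c ⊥) :=
    Submodule.finrank_le _
  have h3 : LinearMap.ker f = (ZZ ρ hE ψ I Λ).restrictScalars ℚ := by
    ext z
    rw [LinearMap.mem_ker, Submodule.restrictScalars_mem]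
    constructor
    · intro h v
      exact congrArg (fun ζ : ↥(dualInv ρ c ⊥) => (ζ : Dual ℚ V) v) h
    · intro h
      apply Subtype.ext
      apply LinearMap.ext
      intro v
      exact h v
  have h4 : finrank ℚ ↥(LinearMap.ker f) = finrank ℚ E * finrank E (ZZ ρ hE ψ I Λ) := by
    rw [h3]
    exact (Module.finrank_mul_finrank ℚ E ↥(ZZ ρ hE ψ I Λ)).symm
  have h5 : finrank ℚ (I → E) = finrank ℚ E * Fintype.card I := by
    rw [finrank_pi_fintype, Finset.sum_const, Finset.card_univ, smul_eq_mul, mul_comm]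
  omega

theorem bad_of_exotic (ρ : Representation ℚ G V) [ρ.IsIrreducible]
    (hE : ∀ (g : G) (e : E) (v : V), ρ g (e • v) = e • ρ g v) (ψ : Dual ℚ V) (hψ : ψ ≠ 0)
    (c : G) (I : Type) [Fintype I] (n : ℕ) (X : Submodule ℚ (I → Fin n → E))
    (hX : Exotic E I n X (finrank ℚ ↥(dualInv ρ c ⊥))) :
    Bad (powRep ρ (Fin n)) c I (X.map (Theta I n ψ)) := by
  constructor
  · intro Q' hQ'
    refine (finrank_killing ρ hE ψ hψ n I X Q' hQ').trans ?_
    refine (hX.semi _).trans ?_
    exact le_dualInv ρ c hE n Q'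
  · intro Λ hΛ
    obtain ⟨x, hx, hx0, hxZ⟩ := hX.sing (ZZ ρ hE ψ I Λ) (finrank_ZZ ρ hE ψ I Λ c hΛ)
    refine ⟨Theta I n ψ x, ⟨x, hx, rfl⟩, ?_, ?_⟩
    · intro h
      exact hx0 (Theta_injective I n ψ hψ (h.trans (map_zero _).symm))
    · intro q
      have h1 : ∀ i g, Λ i g * Theta I n ψ x i (powRep ρ (Fin n) g q) =
          ∑ j, Λ i g * ψ (ρ g (x i j • q j)) := by
        intro i g
        rw [Theta_apply, map_sum, Finset.mul_sum]
        refine Finset.sum_congr rfl fun j _ => ?_
        rw [hE]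
        rfl
      simp only [h1]
      have h2 : ∀ i, ∑ g, ∑ j, Λ i g * ψ (ρ g (x i j • q j)) =
          ∑ j, ∑ g, Λ i g * ψ (ρ g (x i j • q j)) := fun i => Finset.sum_comm
      simp only [h2]
      rw [Finset.sum_comm]
      refine Finset.sum_eq_zero fun j _ => ?_
      exact hxZ j (q j)

end

end Pool.Agent.H447.Clo
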