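import Mathlib
import Pool.Agent.H447.Clo.Exotic

set_option autoImplicit false
set_option linter.unusedSectionVars false

/-!
# The exotic space of matrices with two columns over a number field `E ≠ ℚ`
-/

namespace Pool.Agent.H447.Clo

open Module

variable {E : Type} [Field E] [Algebra ℚ E] [FiniteDimensional ℚ E]

/-- A functional `t` and a nonzero endomorphism which is skew symmetric for the form `t (x y)`. -/
theorem exists_skew (hE : 2 ≤ finrank ℚ E) : ∃ (t : E →ₗ[ℚ] ℚ) (θ : E →ₗ[ℚ] E), t ≠ 0 ∧ θ ≠ 0 ∧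
    ∀ y, t (y * θ y) = 0 := by
  obtain ⟨t, ht⟩ : ∃ t : E →ₗ[ℚ] ℚ, t 1 ≠ 0 := by
    by_contra hcon
    push Not at hcon
    exact one_ne_zero ((Module.forall_dual_apply_eq_zero_iff ℚ (1 : E)).mp hcon)
  obtain ⟨β, hβ⟩ := exists_linearIndependent_pair_of_one_lt_finrank (R := ℚ)
    (show 1 < finrank ℚ E by omega) (one_ne_zero (α := E))
  let θ : E →ₗ[ℚ] E := (LinearMap.toSpanSingleton ℚ E β).comp t -
    (LinearMap.toSpanSingleton ℚ E 1).comp (t.comp (LinearMap.mulLeft ℚ β))
  refine ⟨t, θ, fun h => ht (by rw [h]; rfl), ?_, ?_⟩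
  · intro h
    have h1 : θ 1 = 0 := by rw [h]; rfl
    have h2 : (-t (β * 1)) • (1 : E) + t 1 • β = 0 := by
      rw [← h1]
      show _ = t 1 • β - t (β * 1) • (1 : E)
      rw [neg_smul]; abel
    have h3 := LinearIndependent.pair_iff.mp hβ _ _ h2
    exact ht h3.2
  · intro y
    show t (y * (t y • β - t (β * y) • (1 : E))) = 0
    rw [mul_sub, mul_smul_comm, mul_smul_comm, map_sub, map_smul, map_smul, mul_one,
      smul_eq_mul, smul_eq_mul, mul_comm y β]
    ring

/-- The conditions on the first two rows. -/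
def L0 (t : E →ₗ[ℚ] ℚ) (θ : E →ₗ[ℚ] E) : Submodule ℚ (Fin 2 → Fin 2 → E) where
  carrier := {y | t (y 0 0) = 0 ∧ y 1 0 = θ (y 0 1) ∧ y 1 1 ∈ (LinearMap.range (Algebra.linearMap ℚ E))}
  add_mem' := by
    rintro a b ⟨h1, h2, h3⟩ ⟨h4, h5, h6⟩
    refine ⟨?_, ?_, ?_⟩
    · rw [Pi.add_apply, Pi.add_apply, map_add, h1, h4, add_zero]
    · rw [Pi.add_apply, Pi.add_apply, Pi.add_apply, Pi.add_apply, map_add, h2, h5]
    · exact Submodule.add_mem _ h3 h6
  zero_mem' := by
    refine ⟨?_, ?_, ?_⟩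
    · simp
    · simp
    · exact Submodule.zero_mem _
  smul_mem' := by
    rintro r a ⟨h1, h2, h3⟩
    refine ⟨?_, ?_, ?_⟩
    · rw [Pi.smul_apply, Pi.smul_apply, map_smul, h1, smul_zero]
    · rw [Pi.smul_apply, Pi.smul_apply, Pi.smul_apply, Pi.smul_apply, map_smul, h2]
    · exact Submodule.smul_mem _ _ h3

/-- Matrices with two columns, the first two rows restricted to `L0`. -/
def X2 (t : E →ₗ[ℚ] ℚ) (θ : E →ₗ[ℚ] E) (m : ℕ) : Submodule ℚ ((Fin 2 ⊕ Fin m) → Fin 2 → E) :=
  (L0 t θ).comap (LinearMap.funLeft ℚ (Fin 2 → E) (Sum.inl : Fin 2 → Fin 2 ⊕ Fin m))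

theorem mem_X2 {t : E →ₗ[ℚ] ℚ} {θ : E →ₗ[ℚ] E} {m : ℕ} {x : (Fin 2 ⊕ Fin m) → Fin 2 → E} :
    x ∈ X2 t θ m ↔ (fun i => x (Sum.inl i)) ∈ L0 t θ := Iff.rfl

/-- The matrices in `L0` whose rows lie in `P`. -/
def L0P (t : E →ₗ[ℚ] ℚ) (θ : E →ₗ[ℚ] E) (P : Submodule E (Fin 2 → E)) :
    Submodule ℚ (Fin 2 → Fin 2 → E) where
  carrier := {y | y ∈ L0 t θ ∧ ∀ i, y i ∈ P}
  add_mem' := fun ha hb => ⟨(L0 t θ).add_mem ha.1 hb.1, fun i => P.add_mem (ha.2 i) (hb.2 i)⟩
  zero_mem' := ⟨(L0 t θ).zero_mem, fun i => P.zero_mem⟩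
  smul_mem' := fun r a ha => ⟨(L0 t θ).smul_mem r ha.1, fun i => by
    rw [Pi.smul_apply, ← algebraMap_smul E r (a i)]
    exact P.smul_mem _ (ha.2 i)⟩

theorem finrank_ker_lt (θ : E →ₗ[ℚ] E) (hθ : θ ≠ 0) :
    finrank ℚ ↥(LinearMap.ker θ) + 1 ≤ finrank ℚ E := by
  have h1 : LinearMap.ker θ ≠ ⊤ := by
    rw [Ne, LinearMap.ker_eq_top]
    exact hθ
  have h2 := Submodule.finrank_lt h1
  omega

theorem finrank_ker_lt' (t : E →ₗ[ℚ] ℚ) (ht : t ≠ 0) :
    finrank ℚ ↥(LinearMap.ker t) + 1 ≤ finrank ℚ E := by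
  have h1 : LinearMap.ker t ≠ ⊤ := by
    rw [Ne, LinearMap.ker_eq_top]
    exact ht
  have h2 := Submodule.finrank_lt h1
  omega

theorem L0_le (t : E →ₗ[ℚ] ℚ) (θ : E →ₗ[ℚ] E) (ht : t ≠ 0) :
    finrank ℚ ↥(L0 t θ) ≤ 2 * finrank ℚ E := by
  let f : ↥(L0 t θ) →ₗ[ℚ] ((LinearMap.ker t) × E) × (LinearMap.range (Algebra.linearMap ℚ E)) :=
    { toFun := fun y => ((⟨y.1 0 0, y.2.1⟩, y.1 0 1), ⟨y.1 1 1, y.2.2.2⟩)
      map_add' := fun a b => rfl
      map_smul' := fun r a => rfl }
  have hf : Function.Injective f := by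
    rw [← LinearMap.ker_eq_bot, LinearMap.ker_eq_bot']
    intro y hy
    have h1 : y.1 0 0 = 0 := congrArg (fun z => ((z.1.1 : LinearMap.ker t) : E)) hy
    have h2 : y.1 0 1 = 0 := congrArg (fun z => z.1.2) hy
    have h3 : y.1 1 1 = 0 := congrArg
      (fun z => ((z.2 : (LinearMap.range (Algebra.linearMap ℚ E))) : E)) hy
    have h4 : y.1 1 0 = 0 := by rw [y.2.2.1, h2, map_zero]
    apply Subtype.ext
    funext i j
    fin_cases i <;> fin_cases j
    · exact h1
    · exact h2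
    · exact h4
    · exact h3
  have h := LinearMap.finrank_le_finrank_of_injective hf
  have h5 := finrank_ker_lt' t ht
  have h6 : finrank ℚ (LinearMap.range (Algebra.linearMap ℚ E)) ≤ 1 := by
    have := LinearMap.finrank_range_le (Algebra.linearMap ℚ E)
    rwa [finrank_self] at this
  rw [finrank_prod, finrank_prod] at h
  omega

theorem L0P_le (t : E →ₗ[ℚ] ℚ) (θ : E →ₗ[ℚ] E) (hθ : θ ≠ 0)
    (P : Submodule E (Fin 2 → E)) (hP : finrank E P = 1) :
    finrank ℚ ↥(L0P t θ P) ≤ finrank ℚ E := by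
  obtain ⟨b, hb0, hb⟩ := finrank_eq_one_iff'.mp hP
  have hb1 : b.1 ≠ 0 := fun h => hb0 (Subtype.ext h)
  have hrow : ∀ p ∈ P, ∃ α : E, p = α • b.1 := by
    intro p hp
    obtain ⟨α, hα⟩ := hb ⟨p, hp⟩
    exact ⟨α, (congrArg Subtype.val hα).symm⟩
  by_cases h1 : b.1 1 = 0
  · -- projection to `y 0 0`
    let f : ↥(L0P t θ P) →ₗ[ℚ] E :=
      { toFun := fun y => y.1 0 0
        map_add' := fun a b => rfl
        map_smul' := fun r a => rfl }
    refine LinearMap.finrank_le_finrank_of_injective (f := f) ?_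
    rw [← LinearMap.ker_eq_bot, LinearMap.ker_eq_bot']
    intro y hy
    have h00 : y.1 0 0 = 0 := hy
    have h2 : ∀ i, y.1 i 1 = 0 := by
      intro i
      obtain ⟨α, hα⟩ := hrow _ (y.2.2 i)
      rw [hα, Pi.smul_apply, h1, smul_zero]
    apply Subtype.ext
    funext i j
    fin_cases i <;> fin_cases j
    · exact h00
    · exact h2 0
    · show y.1 1 0 = 0
      rw [y.2.1.2.1, h2 0, map_zero]
    · exact h2 1
  · by_cases h0 : b.1 0 = 0
    · let f : ↥(L0P t θ P) →ₗ[ℚ] (LinearMap.ker θ) × (LinearMap.range (Algebra.linearMap ℚ E)) :=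
        { toFun := fun y => (⟨y.1 0 1, by
              rw [LinearMap.mem_ker, ← y.2.1.2.1]
              obtain ⟨α, hα⟩ := hrow _ (y.2.2 1)
              rw [hα, Pi.smul_apply, h0, smul_zero]⟩, ⟨y.1 1 1, y.2.1.2.2⟩)
          map_add' := fun a b => rfl
          map_smul' := fun r a => rfl }
      have hf : Function.Injective f := by
        rw [← LinearMap.ker_eq_bot, LinearMap.ker_eq_bot']
        intro y hy
        have h01 : y.1 0 1 = 0 := congrArg (fun z => ((z.1 : LinearMap.ker θ) : E)) hy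
        have h11 : y.1 1 1 = 0 := congrArg
          (fun z => ((z.2 : (LinearMap.range (Algebra.linearMap ℚ E))) : E)) hy
        have h2 : ∀ i, y.1 i 0 = 0 := by
          intro i
          obtain ⟨α, hα⟩ := hrow _ (y.2.2 i)
          rw [hα, Pi.smul_apply, h0, smul_zero]
        apply Subtype.ext
        funext i j
        fin_cases i <;> fin_cases j
        · exact h2 0
        · exact h01
        · exact h2 1
        · exact h11
      have h := LinearMap.finrank_le_finrank_of_injective hf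
      have h5 := finrank_ker_lt θ hθ
      have h6 : finrank ℚ (LinearMap.range (Algebra.linearMap ℚ E)) ≤ 1 := by
        have := LinearMap.finrank_range_le (Algebra.linearMap ℚ E)
        rwa [finrank_self] at this
      rw [finrank_prod] at h
      omega
    · let f : ↥(L0P t θ P) →ₗ[ℚ] E :=
        { toFun := fun y => y.1 0 1
          map_add' := fun a b => rfl
          map_smul' := fun r a => rfl }
      refine LinearMap.finrank_le_finrank_of_injective (f := f) ?_
      rw [← LinearMap.ker_eq_bot, LinearMap.ker_eq_bot']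
      intro y hy
      have h01 : y.1 0 1 = 0 := hy
      obtain ⟨α, hα⟩ := hrow _ (y.2.2 0)
      obtain ⟨β, hβ⟩ := hrow _ (y.2.2 1)
      have hα0 : α = 0 := by
        rw [hα, Pi.smul_apply, smul_eq_mul] at h01
        exact (mul_eq_zero.mp h01).resolve_right h1
      have h10 : y.1 1 0 = 0 := by rw [y.2.1.2.1, h01, map_zero]
      have hβ0 : β = 0 := by
        rw [hβ, Pi.smul_apply, smul_eq_mul] at h10
        exact (mul_eq_zero.mp h10).resolve_right h0
      apply Subtype.ext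
      funext i
      fin_cases i
      · show y.1 0 = 0
        rw [hα, hα0, zero_smul]
      · show y.1 1 = 0
        rw [hβ, hβ0, zero_smul]

theorem X2_semi (t : E →ₗ[ℚ] ℚ) (θ : E →ₗ[ℚ] E) (ht : t ≠ 0) (hθ : θ ≠ 0) (m w : ℕ)
    (hw : finrank ℚ E * (m + 1) ≤ w) (P : Submodule E (Fin 2 → E)) :
    finrank ℚ ↥(rows (X2 t θ m) P) ≤ finrank E P * w := by
  -- the general bound
  have key : finrank ℚ ↥(rows (X2 t θ m) P) ≤
      finrank ℚ ↥(L0P t θ P) + m * (finrank ℚ E * finrank E P) := by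
    have hfin : Module.Finite ℚ P := Module.Finite.trans E P
    let f : ↥(rows (X2 t θ m) P) →ₗ[ℚ] (L0P t θ P) × (Fin m → P) :=
      { toFun := fun x => (⟨fun i => x.1 (Sum.inl i), ⟨mem_X2.mp x.2.1, fun i => x.2.2 _⟩⟩,
          fun k => ⟨x.1 (Sum.inr k), x.2.2 _⟩)
        map_add' := fun a b => rfl
        map_smul' := fun r a => rfl }
    have hf : Function.Injective f := by
      intro a b hab
      have h1 := congrArg (fun z => ((z.1 : L0P t θ P) : Fin 2 → Fin 2 → E)) hab
      have h2 : ∀ k, a.1 (Sum.inr k) = b.1 (Sum.inr k) := fun k =>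
        congrArg (fun z => ((z.2 k : P) : Fin 2 → E)) hab
      apply Subtype.ext
      funext i
      rcases i with i | k
      · exact congrFun h1 i
      · exact h2 k
    have h := LinearMap.finrank_le_finrank_of_injective hf
    rw [finrank_prod, finrank_pi_fintype, Finset.sum_const, Finset.card_univ, Fintype.card_fin,
      smul_eq_mul, ← Module.finrank_mul_finrank ℚ E ↥P] at h
    exact h
  have hP2 : finrank E P ≤ 2 := by
    have := Submodule.finrank_le P
    rwa [finrank_fintype_fun_eq_card, Fintype.card_fin] at this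
  have hcases : finrank E P = 0 ∨ finrank E P = 1 ∨ finrank E P = 2 := by omega
  rcases hcases with h | h | h
  · have h1 : P = ⊥ := Submodule.finrank_eq_zero.mp h
    have h2 : rows (X2 t θ m) P = ⊥ := by
      rw [eq_bot_iff]
      intro x hx
      rw [Submodule.mem_bot]
      funext i
      have := hx.2 i
      rw [h1] at this
      exact (Submodule.mem_bot E).mp this
    rw [h2, finrank_bot]
    exact Nat.zero_le _
  · have h1 := L0P_le t θ hθ P h
    rw [h] at key ⊢
    nlinarith [key, h1, hw]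
  · have h1 : finrank ℚ ↥(L0P t θ P) ≤ finrank ℚ ↥(L0 t θ) := by
      apply Submodule.finrank_mono
      intro y hy
      exact hy.1
    have h2 := L0_le t θ ht
    rw [h] at key ⊢
    nlinarith [key, h1, h2, hw]

theorem X2_sing (t : E →ₗ[ℚ] ℚ) (θ : E →ₗ[ℚ] E) (hsk : ∀ y, t (y * θ y) = 0)
    (hE : 2 ≤ finrank ℚ E) (m : ℕ) (Z : Submodule E ((Fin 2 ⊕ Fin m) → E))
    (hZ : 1 ≤ finrank E Z) :
    ∃ x ∈ X2 t θ m, x ≠ 0 ∧ ∀ j, (fun i => x i j) ∈ Z := by
  have : Nontrivial Z := Module.nontrivial_of_finrank_pos (by omega : 0 < finrank E Z)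
  obtain ⟨z, hz⟩ := exists_ne (0 : Z)
  have hz1 : z.1 ≠ 0 := fun h => hz (Subtype.ext h)
  -- `x = z ⊗ a`
  have key : ∀ a : Fin 2 → E, a ≠ 0 →
      (t (a 0 * z.1 (Sum.inl 0)) = 0) →
      (a 0 * z.1 (Sum.inl 1) = θ (a 1 * z.1 (Sum.inl 0))) →
      (a 1 * z.1 (Sum.inl 1) ∈ LinearMap.range (Algebra.linearMap ℚ E)) →
      ∃ x ∈ X2 t θ m, x ≠ 0 ∧ ∀ j, (fun i => x i j) ∈ Z := by
    intro a ha h1 h2 h3
    refine ⟨fun i j => a j * z.1 i, mem_X2.mpr ⟨h1, h2, h3⟩, ?_, fun j => Z.smul_mem (a j) z.2⟩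
    intro h
    apply ha
    funext j
    by_contra hj
    apply hz1
    funext i
    have := congrFun (congrFun h i) j
    simp only [Pi.zero_apply] at this
    exact (mul_eq_zero.mp this).resolve_left hj
  by_cases h1 : z.1 (Sum.inl 1) = 0
  · by_cases h0 : z.1 (Sum.inl 0) = 0
    · refine key ![1, 0] ?_ ?_ ?_ ?_
      · intro h
        have := congrFun h 0
        simp at this
      · simp [h0]
      · simp [h0, h1]
      · simp
    · -- an element of the kernel of `t`
      have hk : 0 < finrank ℚ ↥(LinearMap.ker t) := by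
        have h2 := LinearMap.finrank_range_add_finrank_ker t
        have h3 : finrank ℚ ↥(LinearMap.range t) ≤ 1 := by
          have := Submodule.finrank_le (LinearMap.range t)
          rwa [finrank_self] at this
        omega
      have : Nontrivial ↥(LinearMap.ker t) := Module.nontrivial_of_finrank_pos hk
      obtain ⟨u, hu⟩ := exists_ne (0 : ↥(LinearMap.ker t))
      refine key ![u.1 / z.1 (Sum.inl 0), 0] ?_ ?_ ?_ ?_
      · intro h
        have := congrFun h 0
        simp only [Matrix.cons_val_zero, Pi.zero_apply] at this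
        rcases div_eq_zero_iff.mp this with h' | h'
        · exact hu (Subtype.ext h')
        · exact h0 h'
      · simp only [Matrix.cons_val_zero]
        rw [div_mul_cancel₀ _ h0]
        exact u.2
      · simp [h1]
      · simp
  · refine key ![θ (z.1 (Sum.inl 0) / z.1 (Sum.inl 1)) / z.1 (Sum.inl 1),
      1 / z.1 (Sum.inl 1)] ?_ ?_ ?_ ?_
    · intro h
      have := congrFun h 1
      simp only [Matrix.cons_val_one, Pi.zero_apply, one_div, inv_eq_zero,
        Matrix.cons_val_fin_one] at this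
      exact h1 this
    · simp only [Matrix.cons_val_zero]
      rw [← hsk (z.1 (Sum.inl 0) / z.1 (Sum.inl 1))]
      congr 1
      field_simp
    · simp only [Matrix.cons_val_zero, Matrix.cons_val_one, Matrix.cons_val_fin_one]
      rw [div_mul_cancel₀ _ h1]
      congr 1
      field_simp
    · simp only [Matrix.cons_val_one, Matrix.cons_val_fin_one]
      rw [one_div, inv_mul_cancel₀ h1]
      exact ⟨1, by simp⟩

theorem exotic2 (hE : 2 ≤ finrank ℚ E) (w : ℕ) (hw : finrank ℚ E ≤ w) :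
    ∃ (m : ℕ) (X : Submodule ℚ ((Fin 2 ⊕ Fin m) → Fin 2 → E)),
      Exotic E (Fin 2 ⊕ Fin m) 2 X w := by
  obtain ⟨t, θ, ht, hθ, hsk⟩ := exists_skew hE
  obtain ⟨m, hm⟩ : ∃ m, w / finrank ℚ E = m + 1 := by
    have h1 : 0 < w / finrank ℚ E := Nat.div_pos hw (by omega)
    exact ⟨w / finrank ℚ E - 1, by omega⟩
  refine ⟨m, X2 t θ m, ?_, ?_⟩
  · intro P
    apply X2_semi t θ ht hθ m w
    rw [← hm]
    exact Nat.mul_div_le w (finrank ℚ E)
  · intro Z hZ
    apply X2_sing t θ hsk hE m Z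
    rw [Fintype.card_sum, Fintype.card_fin, Fintype.card_fin] at hZ
    have h1 : w < finrank ℚ E * (m + 2) := by
      have h2 := Nat.lt_mul_div_succ w (show 0 < finrank ℚ E by omega)
      rw [hm] at h2
      exact h2
    by_contra hcon
    have h3 : finrank E Z = 0 := by omega
    rw [h3, mul_zero, zero_add] at hZ
    have h4 : 2 + m = m + 2 := by omega
    rw [h4] at hZ
    omega

end Pool.Agent.H447.Clo
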