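import Mathlib
import Pool.Agent.H447.Clo.Exotic

set_option autoImplicit false
set_option linter.unusedSectionVars false

/-!
# Two different representations with multiplicity two
-/

namespace Pool.Agent.H447.Clo

open Module

/-- Pairs of matrices with two columns, whose first two rows are transposes of each other. -/
def XC (m₁ m₂ : ℕ) :
    Submodule ℚ (((Fin 2 ⊕ Fin m₁) → Fin 2 → ℚ) × ((Fin 2 ⊕ Fin m₂) → Fin 2 → ℚ)) where
  carrier := {x | ∀ i j : Fin 2, x.1 (Sum.inl i) j = x.2 (Sum.inl j) i}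
  add_mem' := by
    intro a b ha hb i j
    simp only [Prod.fst_add, Prod.snd_add, Pi.add_apply, ha i j, hb i j]
  zero_mem' := by
    intro i j
    simp
  smul_mem' := by
    intro r a ha i j
    simp only [Prod.smul_fst, Prod.smul_snd, Pi.smul_apply, ha i j]

/-- The pairs whose rows lie in `P₁` and `P₂`. -/
def XCP (m₁ m₂ : ℕ) (P₁ P₂ : Submodule ℚ (Fin 2 → ℚ)) :
    Submodule ℚ (((Fin 2 ⊕ Fin m₁) → Fin 2 → ℚ) × ((Fin 2 ⊕ Fin m₂) → Fin 2 → ℚ)) where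
  carrier := {x | x ∈ XC m₁ m₂ ∧ (∀ i, x.1 i ∈ P₁) ∧ ∀ i, x.2 i ∈ P₂}
  add_mem' := fun ha hb => ⟨(XC m₁ m₂).add_mem ha.1 hb.1,
    fun i => P₁.add_mem (ha.2.1 i) (hb.2.1 i), fun i => P₂.add_mem (ha.2.2 i) (hb.2.2 i)⟩
  zero_mem' := ⟨(XC m₁ m₂).zero_mem, fun i => P₁.zero_mem, fun i => P₂.zero_mem⟩
  smul_mem' := fun r a ha => ⟨(XC m₁ m₂).smul_mem r ha.1,
    fun i => P₁.smul_mem r (ha.2.1 i), fun i => P₂.smul_mem r (ha.2.2 i)⟩

theorem XCP_le₁ (m₁ m₂ : ℕ) (P₁ P₂ : Submodule ℚ (Fin 2 → ℚ)) :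
    finrank ℚ ↥(XCP m₁ m₂ P₁ P₂) ≤ 2 * finrank ℚ P₁ + (m₁ * finrank ℚ P₁ + m₂ * finrank ℚ P₂) := by
  let f : ↥(XCP m₁ m₂ P₁ P₂) →ₗ[ℚ] (Fin 2 → P₁) × ((Fin m₁ → P₁) × (Fin m₂ → P₂)) :=
    { toFun := fun x => (fun i => ⟨x.1.1 (Sum.inl i), x.2.2.1 _⟩,
        (fun i => ⟨x.1.1 (Sum.inr i), x.2.2.1 _⟩, fun i => ⟨x.1.2 (Sum.inr i), x.2.2.2 _⟩))
      map_add' := fun a b => rfl
      map_smul' := fun r a => rfl }
  have hf : Function.Injective f := by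
    intro a b hab
    have h1 : ∀ i, a.1.1 (Sum.inl i) = b.1.1 (Sum.inl i) := fun i =>
      congrArg (fun z => ((z.1 i : P₁) : Fin 2 → ℚ)) hab
    have h2 : ∀ i, a.1.1 (Sum.inr i) = b.1.1 (Sum.inr i) := fun i =>
      congrArg (fun z => ((z.2.1 i : P₁) : Fin 2 → ℚ)) hab
    have h3 : ∀ i, a.1.2 (Sum.inr i) = b.1.2 (Sum.inr i) := fun i =>
      congrArg (fun z => ((z.2.2 i : P₂) : Fin 2 → ℚ)) hab
    apply Subtype.ext
    apply Prod.ext
    · funext i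
      rcases i with i | i
      · exact h1 i
      · exact h2 i
    · funext i
      rcases i with i | i
      · funext j
        rw [← a.2.1 j i, ← b.2.1 j i, h1]
      · exact h3 i
  have h := LinearMap.finrank_le_finrank_of_injective hf
  rw [finrank_prod, finrank_prod, finrank_pi_fintype, finrank_pi_fintype, finrank_pi_fintype,
    Finset.sum_const, Finset.sum_const, Finset.sum_const, Finset.card_univ, Finset.card_univ,
    Finset.card_univ, Fintype.card_fin, Fintype.card_fin, Fintype.card_fin, smul_eq_mul,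
    smul_eq_mul, smul_eq_mul] at h
  exact h

theorem XCP_le₂ (m₁ m₂ : ℕ) (P₁ P₂ : Submodule ℚ (Fin 2 → ℚ)) :
    finrank ℚ ↥(XCP m₁ m₂ P₁ P₂) ≤ 2 * finrank ℚ P₂ + (m₁ * finrank ℚ P₁ + m₂ * finrank ℚ P₂) := by
  let f : ↥(XCP m₁ m₂ P₁ P₂) →ₗ[ℚ] (Fin 2 → P₂) × ((Fin m₁ → P₁) × (Fin m₂ → P₂)) :=
    { toFun := fun x => (fun i => ⟨x.1.2 (Sum.inl i), x.2.2.2 _⟩,
        (fun i => ⟨x.1.1 (Sum.inr i), x.2.2.1 _⟩, fun i => ⟨x.1.2 (Sum.inr i), x.2.2.2 _⟩))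
      map_add' := fun a b => rfl
      map_smul' := fun r a => rfl }
  have hf : Function.Injective f := by
    intro a b hab
    have h1 : ∀ i, a.1.2 (Sum.inl i) = b.1.2 (Sum.inl i) := fun i =>
      congrArg (fun z => ((z.1 i : P₂) : Fin 2 → ℚ)) hab
    have h2 : ∀ i, a.1.1 (Sum.inr i) = b.1.1 (Sum.inr i) := fun i =>
      congrArg (fun z => ((z.2.1 i : P₁) : Fin 2 → ℚ)) hab
    have h3 : ∀ i, a.1.2 (Sum.inr i) = b.1.2 (Sum.inr i) := fun i =>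
      congrArg (fun z => ((z.2.2 i : P₂) : Fin 2 → ℚ)) hab
    apply Subtype.ext
    apply Prod.ext
    · funext i
      rcases i with i | i
      · funext j
        rw [a.2.1 i j, b.2.1 i j, h1]
      · exact h2 i
    · funext i
      rcases i with i | i
      · exact h1 i
      · exact h3 i
  have h := LinearMap.finrank_le_finrank_of_injective hf
  rw [finrank_prod, finrank_prod, finrank_pi_fintype, finrank_pi_fintype, finrank_pi_fintype,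
    Finset.sum_const, Finset.sum_const, Finset.sum_const, Finset.card_univ, Finset.card_univ,
    Finset.card_univ, Fintype.card_fin, Fintype.card_fin, Fintype.card_fin, smul_eq_mul,
    smul_eq_mul, smul_eq_mul] at h
  exact h

theorem XCP_le (m₁ m₂ : ℕ) (P₁ P₂ : Submodule ℚ (Fin 2 → ℚ)) :
    finrank ℚ ↥(XCP m₁ m₂ P₁ P₂) ≤ finrank ℚ P₁ * (m₁ + 1) + finrank ℚ P₂ * (m₂ + 1) := by
  have h1 := XCP_le₁ m₁ m₂ P₁ P₂
  have h2 := XCP_le₂ m₁ m₂ P₁ P₂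
  rw [mul_add, mul_add, mul_comm (finrank ℚ P₁) m₁, mul_comm (finrank ℚ P₂) m₂]
  omega

section

variable {G : Type} [Group G] [Fintype G]
  {V₁ : Type} [AddCommGroup V₁] [Module ℚ V₁] [FiniteDimensional ℚ V₁]
  {V₂ : Type} [AddCommGroup V₂] [Module ℚ V₂] [FiniteDimensional ℚ V₂]

/-- The representation on `V₁ ^ 2 × V₂ ^ 2`. -/
def prodRep {Q₁ Q₂ : Type} [AddCommGroup Q₁] [Module ℚ Q₁] [AddCommGroup Q₂] [Module ℚ Q₂]
    (σ₁ : Representation ℚ G Q₁) (σ₂ : Representation ℚ G Q₂) :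
    Representation ℚ G (Q₁ × Q₂) where
  toFun g := (σ₁ g).prodMap (σ₂ g)
  map_one' := by
    ext <;> simp
  map_mul' g h := by
    ext <;> simp

theorem prodRep_apply {Q₁ Q₂ : Type} [AddCommGroup Q₁] [Module ℚ Q₁] [AddCommGroup Q₂]
    [Module ℚ Q₂] (σ₁ : Representation ℚ G Q₁) (σ₂ : Representation ℚ G Q₂) (g : G)
    (q : Q₁ × Q₂) : prodRep σ₁ σ₂ g q = (σ₁ g q.1, σ₂ g q.2) := rfl

theorem dualInv_prod {Q₁ Q₂ : Type} [AddCommGroup Q₁] [Module ℚ Q₁] [AddCommGroup Q₂]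
    [Module ℚ Q₂] [FiniteDimensional ℚ Q₁] [FiniteDimensional ℚ Q₂]
    (σ₁ : Representation ℚ G Q₁) (σ₂ : Representation ℚ G Q₂) (c : G)
    (Q' : Submodule ℚ (Q₁ × Q₂)) :
    finrank ℚ ↥(dualInv σ₁ c (Q'.map (LinearMap.fst ℚ Q₁ Q₂))) +
      finrank ℚ ↥(dualInv σ₂ c (Q'.map (LinearMap.snd ℚ Q₁ Q₂))) ≤
      finrank ℚ ↥(dualInv (prodRep σ₁ σ₂) c Q') := by
  rw [← finrank_prod]
  let g : (↥(dualInv σ₁ c (Q'.map (LinearMap.fst ℚ Q₁ Q₂))) ×
      ↥(dualInv σ₂ c (Q'.map (LinearMap.snd ℚ Q₁ Q₂)))) →ₗ[ℚ]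
      ↥(dualInv (prodRep σ₁ σ₂) c Q') :=
    { toFun := fun ζ => ⟨(ζ.1.1).comp (LinearMap.fst ℚ Q₁ Q₂) +
        (ζ.2.1).comp (LinearMap.snd ℚ Q₁ Q₂), by
        refine ⟨fun q => ?_, fun q hq => ?_⟩
        · show ζ.1.1 (σ₁ c q.1) + ζ.2.1 (σ₂ c q.2) = ζ.1.1 q.1 + ζ.2.1 q.2
          rw [ζ.1.2.1, ζ.2.2.1]
        · show ζ.1.1 q.1 + ζ.2.1 q.2 = 0
          rw [ζ.1.2.2 q.1 ⟨q, hq, rfl⟩, ζ.2.2.2 q.2 ⟨q, hq, rfl⟩, add_zero]⟩
      map_add' := fun a b => by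
        apply Subtype.ext
        apply LinearMap.ext
        intro q
        show (a.1.1 + b.1.1) q.1 + (a.2.1 + b.2.1) q.2 =
          (a.1.1 q.1 + a.2.1 q.2) + (b.1.1 q.1 + b.2.1 q.2)
        rw [LinearMap.add_apply, LinearMap.add_apply]
        ring
      map_smul' := fun r a => by
        apply Subtype.ext
        apply LinearMap.ext
        intro q
        show (r • a.1.1) q.1 + (r • a.2.1) q.2 = r • (a.1.1 q.1 + a.2.1 q.2)
        rw [LinearMap.smul_apply, LinearMap.smul_apply, smul_add] }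
  refine LinearMap.finrank_le_finrank_of_injective (f := g) ?_
  intro a b hab
  have h1 : ∀ q : Q₁ × Q₂, a.1.1 q.1 + a.2.1 q.2 = b.1.1 q.1 + b.2.1 q.2 := fun q =>
    congrArg (fun z : ↥(dualInv (prodRep σ₁ σ₂) c Q') => z.1 q) hab
  apply Prod.ext
  · apply Subtype.ext
    apply LinearMap.ext
    intro q
    have := h1 (q, 0)
    simpa using this
  · apply Subtype.ext
    apply LinearMap.ext
    intro q
    have := h1 (0, q)
    simpa using this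

/-- The family of functionals belonging to a pair of matrices. -/
def ThetaC (m₁ m₂ : ℕ) (ψ₁ : Dual ℚ V₁) (ψ₂ : Dual ℚ V₂) :
    (((Fin 2 ⊕ Fin m₁) → Fin 2 → ℚ) × ((Fin 2 ⊕ Fin m₂) → Fin 2 → ℚ)) →ₗ[ℚ]
      (((Fin 2 ⊕ Fin m₁) ⊕ (Fin 2 ⊕ Fin m₂)) → Dual ℚ ((Fin 2 → V₁) × (Fin 2 → V₂))) where
  toFun x := Sum.elim
    (fun i => (Theta (E := ℚ) (Fin 2 ⊕ Fin m₁) 2 ψ₁ x.1 i).comp (LinearMap.fst ℚ _ _))
    (fun i => (Theta (E := ℚ) (Fin 2 ⊕ Fin m₂) 2 ψ₂ x.2 i).comp (LinearMap.snd ℚ _ _))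
  map_add' a b := by
    funext i
    rcases i with i | i
    · simp only [Sum.elim_inl, Pi.add_apply, Prod.fst_add, map_add, LinearMap.add_comp]
    · simp only [Sum.elim_inr, Pi.add_apply, Prod.snd_add, map_add, LinearMap.add_comp]
  map_smul' r a := by
    funext i
    rcases i with i | i
    · simp only [Sum.elim_inl, Pi.smul_apply, Prod.smul_fst, map_smul, LinearMap.smul_comp,
        RingHom.id_apply]
    · simp only [Sum.elim_inr, Pi.smul_apply, Prod.smul_snd, map_smul, LinearMap.smul_comp,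
        RingHom.id_apply]

theorem bad22 (ρ₁ : Representation ℚ G V₁) (ρ₂ : Representation ℚ G V₂) [ρ₁.IsIrreducible]
    [ρ₂.IsIrreducible] (ψ₁ : Dual ℚ V₁) (hψ₁ : ψ₁ ≠ 0) (ψ₂ : Dual ℚ V₂) (hψ₂ : ψ₂ ≠ 0) (c : G)
    (m₁ m₂ : ℕ) (h₁ : finrank ℚ ↥(dualInv ρ₁ c ⊥) = m₁ + 1)
    (h₂ : finrank ℚ ↥(dualInv ρ₂ c ⊥) = m₂ + 1) :
    Bad (prodRep (powRep ρ₁ (Fin 2)) (powRep ρ₂ (Fin 2))) c
      ((Fin 2 ⊕ Fin m₁) ⊕ (Fin 2 ⊕ Fin m₂)) ((XC m₁ m₂).map (ThetaC m₁ m₂ ψ₁ ψ₂)) := by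
  have hE₁ : ∀ (g : G) (e : ℚ) (v : V₁), ρ₁ g (e • v) = e • ρ₁ g v := fun g e v => map_smul _ _ _
  have hE₂ : ∀ (g : G) (e : ℚ) (v : V₂), ρ₂ g (e • v) = e • ρ₂ g v := fun g e v => map_smul _ _ _
  constructor
  · intro Q' hQ'
    set Q₁ := Q'.map (LinearMap.fst ℚ (Fin 2 → V₁) (Fin 2 → V₂)) with hQ₁
    set Q₂ := Q'.map (LinearMap.snd ℚ (Fin 2 → V₁) (Fin 2 → V₂)) with hQ₂
    have hs₁ : ∀ g, ∀ q ∈ Q₁, powRep ρ₁ (Fin 2) g q ∈ Q₁ := by
      rintro g _ ⟨q, hq, rfl⟩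
      exact ⟨_, hQ' g q hq, rfl⟩
    have hs₂ : ∀ g, ∀ q ∈ Q₂, powRep ρ₂ (Fin 2) g q ∈ Q₂ := by
      rintro g _ ⟨q, hq, rfl⟩
      exact ⟨_, hQ' g q hq, rfl⟩
    have hle : (XC m₁ m₂).map (ThetaC m₁ m₂ ψ₁ ψ₂) ⊓
        killing ((Fin 2 ⊕ Fin m₁) ⊕ (Fin 2 ⊕ Fin m₂)) Q' ≤
        (XCP m₁ m₂ (rel 2 ℚ (Q₁ : Set (Fin 2 → V₁))) (rel 2 ℚ (Q₂ : Set (Fin 2 → V₂)))).map
          (ThetaC m₁ m₂ ψ₁ ψ₂) := by
      rintro ξ ⟨⟨x, hx, rfl⟩, hk⟩
      refine ⟨x, ⟨hx, fun i => ?_, fun i => ?_⟩, rfl⟩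
      · apply mem_rel_of_killing ρ₁ hE₁ ψ₁ hψ₁ 2 Q₁ hs₁ (x.1 i)
        rintro _ ⟨q, hq, rfl⟩
        exact hk (Sum.inl i) q hq
      · apply mem_rel_of_killing ρ₂ hE₂ ψ₂ hψ₂ 2 Q₂ hs₂ (x.2 i)
        rintro _ ⟨q, hq, rfl⟩
        exact hk (Sum.inr i) q hq
    have h3 := (Submodule.finrank_mono hle).trans (Submodule.finrank_map_le _ _)
    have h4 := XCP_le m₁ m₂ (rel 2 ℚ (Q₁ : Set (Fin 2 → V₁))) (rel 2 ℚ (Q₂ : Set (Fin 2 → V₂)))
    have h5 := le_dualInv (E := ℚ) ρ₁ c hE₁ 2 Q₁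
    have h6 := le_dualInv (E := ℚ) ρ₂ c hE₂ 2 Q₂
    have h7 := dualInv_prod (powRep ρ₁ (Fin 2)) (powRep ρ₂ (Fin 2)) c Q'
    rw [h₁] at h5
    rw [h₂] at h6
    rw [← hQ₁, ← hQ₂] at h7
    omega
  · intro Λ hΛ
    have hz₁ := finrank_ZZ (E := ℚ) ρ₁ hE₁ ψ₁ (Fin 2 ⊕ Fin m₁) (fun i => Λ (Sum.inl i)) c
      (fun i => hΛ _)
    have hz₂ := finrank_ZZ (E := ℚ) ρ₂ hE₂ ψ₂ (Fin 2 ⊕ Fin m₂) (fun i => Λ (Sum.inr i)) c
      (fun i => hΛ _)
    rw [finrank_self, one_mul, one_mul, Fintype.card_sum, Fintype.card_fin, Fintype.card_fin,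
      h₁] at hz₁
    rw [finrank_self, one_mul, one_mul, Fintype.card_sum, Fintype.card_fin, Fintype.card_fin,
      h₂] at hz₂
    have : Nontrivial ↥(ZZ ρ₁ hE₁ ψ₁ (Fin 2 ⊕ Fin m₁) (fun i => Λ (Sum.inl i))) :=
      Module.nontrivial_of_finrank_pos (R := ℚ) (by omega)
    obtain ⟨z₁, hz₁0⟩ := exists_ne
      (0 : ↥(ZZ ρ₁ hE₁ ψ₁ (Fin 2 ⊕ Fin m₁) (fun i => Λ (Sum.inl i))))
    have : Nontrivial ↥(ZZ ρ₂ hE₂ ψ₂ (Fin 2 ⊕ Fin m₂) (fun i => Λ (Sum.inr i))) :=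
      Module.nontrivial_of_finrank_pos (R := ℚ) (by omega)
    obtain ⟨z₂, hz₂0⟩ := exists_ne
      (0 : ↥(ZZ ρ₂ hE₂ ψ₂ (Fin 2 ⊕ Fin m₂) (fun i => Λ (Sum.inr i))))
    have hz₁1 : z₁.1 ≠ 0 := fun h => hz₁0 (Subtype.ext h)
    have hz₂1 : z₂.1 ≠ 0 := fun h => hz₂0 (Subtype.ext h)
    -- the general construction
    have key : ∀ a b : Fin 2 → ℚ, (a ≠ 0 ∨ b ≠ 0) →
        (∀ i j, z₁.1 (Sum.inl i) * a j = z₂.1 (Sum.inl j) * b i) →
        ∃ ξ ∈ (XC m₁ m₂).map (ThetaC m₁ m₂ ψ₁ ψ₂), ξ ≠ 0 ∧ ∀ q, ∑ i, ∑ g, Λ i g *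
          ξ i (prodRep (powRep ρ₁ (Fin 2)) (powRep ρ₂ (Fin 2)) g q) = 0 := by
      intro a b hab hx
      refine ⟨ThetaC m₁ m₂ ψ₁ ψ₂ (fun i j => z₁.1 i * a j, fun i j => z₂.1 i * b j),
        ⟨_, fun i j => hx i j, rfl⟩, ?_, ?_⟩
      · intro h
        have hl : Theta (E := ℚ) (Fin 2 ⊕ Fin m₁) 2 ψ₁ (fun i j => z₁.1 i * a j) = 0 := by
          funext i
          apply LinearMap.ext
          intro q
          exact congrArg (fun f : Dual ℚ ((Fin 2 → V₁) × (Fin 2 → V₂)) => f (q, 0))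
            (congrFun h (Sum.inl i))
        have hr : Theta (E := ℚ) (Fin 2 ⊕ Fin m₂) 2 ψ₂ (fun i j => z₂.1 i * b j) = 0 := by
          funext i
          apply LinearMap.ext
          intro q
          exact congrArg (fun f : Dual ℚ ((Fin 2 → V₁) × (Fin 2 → V₂)) => f (0, q))
            (congrFun h (Sum.inr i))
        have hl2 := Theta_injective (E := ℚ) (Fin 2 ⊕ Fin m₁) 2 ψ₁ hψ₁ (hl.trans (map_zero _).symm)
        have hr2 := Theta_injective (E := ℚ) (Fin 2 ⊕ Fin m₂) 2 ψ₂ hψ₂ (hr.trans (map_zero _).symm)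
        rcases hab with ha | hb
        · apply ha
          funext j
          by_contra hj
          apply hz₁1
          funext i
          have := congrFun (congrFun hl2 i) j
          simp only [Pi.zero_apply] at this
          exact (mul_eq_zero.mp this).resolve_right hj
        · apply hb
          funext j
          by_contra hj
          apply hz₂1
          funext i
          have := congrFun (congrFun hr2 i) j
          simp only [Pi.zero_apply] at this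
          exact (mul_eq_zero.mp this).resolve_right hj
      · intro q
        rw [Fintype.sum_sum_type]
        have e1 : ∑ i, ∑ g, Λ (Sum.inl i) g *
            ThetaC m₁ m₂ ψ₁ ψ₂ (fun i j => z₁.1 i * a j, fun i j => z₂.1 i * b j) (Sum.inl i)
              (prodRep (powRep ρ₁ (Fin 2)) (powRep ρ₂ (Fin 2)) g q) = 0 := by
          have h1 : ∀ i g, Λ (Sum.inl i) g *
            ThetaC m₁ m₂ ψ₁ ψ₂ (fun i j => z₁.1 i * a j, fun i j => z₂.1 i * b j) (Sum.inl i)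
              (prodRep (powRep ρ₁ (Fin 2)) (powRep ρ₂ (Fin 2)) g q) =
              Λ (Sum.inl i) g * ψ₁ (ρ₁ g (z₁.1 i • ∑ j, a j • q.1 j)) := by
            intro i g
            congr 1
            show ψ₁ (∑ j, (z₁.1 i * a j) • ρ₁ g (q.1 j)) = _
            congr 1
            rw [map_smul, map_sum, Finset.smul_sum]
            refine Finset.sum_congr rfl fun j _ => ?_
            rw [map_smul, smul_smul]
          simp only [h1]
          exact z₁.2 (∑ j, a j • q.1 j)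
        have e2 : ∑ i, ∑ g, Λ (Sum.inr i) g *
            ThetaC m₁ m₂ ψ₁ ψ₂ (fun i j => z₁.1 i * a j, fun i j => z₂.1 i * b j) (Sum.inr i)
              (prodRep (powRep ρ₁ (Fin 2)) (powRep ρ₂ (Fin 2)) g q) = 0 := by
          have h1 : ∀ i g, Λ (Sum.inr i) g *
            ThetaC m₁ m₂ ψ₁ ψ₂ (fun i j => z₁.1 i * a j, fun i j => z₂.1 i * b j) (Sum.inr i)
              (prodRep (powRep ρ₁ (Fin 2)) (powRep ρ₂ (Fin 2)) g q) =
              Λ (Sum.inr i) g * ψ₂ (ρ₂ g (z₂.1 i • ∑ j, b j • q.2 j)) := by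
            intro i g
            congr 1
            show ψ₂ (∑ j, (z₂.1 i * b j) • ρ₂ g (q.2 j)) = _
            congr 1
            rw [map_smul, map_sum, Finset.smul_sum]
            refine Finset.sum_congr rfl fun j _ => ?_
            rw [map_smul, smul_smul]
          simp only [h1]
          exact z₂.2 (∑ j, b j • q.2 j)
        rw [e1, e2, add_zero]
    by_cases h1 : ∀ j : Fin 2, z₁.1 (Sum.inl j) = 0
    · by_cases h2 : ∀ j : Fin 2, z₂.1 (Sum.inl j) = 0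
      · refine key ![1, 0] 0 (Or.inl ?_) ?_
        · intro h
          have := congrFun h 0
          simp at this
        · intro i j
          rw [h1 i, h2 j, zero_mul, zero_mul]
      · refine key (fun j => z₂.1 (Sum.inl j)) (fun j => z₁.1 (Sum.inl j)) (Or.inl ?_) ?_
        · intro h
          exact h2 fun j => congrFun h j
        · intro i j
          exact mul_comm _ _
    · refine key (fun j => z₂.1 (Sum.inl j)) (fun j => z₁.1 (Sum.inl j)) (Or.inr ?_) ?_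
      · intro h
        exact h1 fun j => congrFun h j
      · intro i j
        exact mul_comm _ _

end

end Pool.Agent.H447.Clo
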