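import Mathlib
import Pool.Agent.H447.Clo.Exotic

set_option autoImplicit false
set_option linter.unusedSectionVars false

/-!
# The exotic space of matrices with three columns
-/

namespace Pool.Agent.H447.Clo

open Module

/-- Matrices with three columns, whose first three rows form a skew symmetric matrix. -/
def X3 (m : ℕ) : Submodule ℚ ((Fin 3 ⊕ Fin m) → Fin 3 → ℚ) where
  carrier := {x | ∀ i j : Fin 3, x (Sum.inl i) j = - x (Sum.inl j) i}
  add_mem' := by
    intro a b ha hb i j
    simp only [Pi.add_apply, ha i j, hb i j]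
    ring
  zero_mem' := by
    intro i j
    simp
  smul_mem' := by
    intro r a ha i j
    simp only [Pi.smul_apply, smul_eq_mul, ha i j]
    ring

theorem X3_diag {m : ℕ} {x : (Fin 3 ⊕ Fin m) → Fin 3 → ℚ} (hx : x ∈ X3 m) (i : Fin 3) :
    x (Sum.inl i) i = 0 := by
  have := hx i i
  linarith

theorem X3_top (m : ℕ) : finrank ℚ ↥(X3 m) ≤ 3 * (m + 1) := by
  let f : ↥(X3 m) →ₗ[ℚ] ((Fin 3 → ℚ) × (Fin m → Fin 3 → ℚ)) :=
    { toFun := fun x => (![x.1 (Sum.inl 0) 1, x.1 (Sum.inl 0) 2,
          x.1 (Sum.inl 1) 2], fun k => x.1 (Sum.inr k))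
      map_add' := by
        intro a b
        apply Prod.ext
        · funext i
          fin_cases i <;> rfl
        · rfl
      map_smul' := by
        intro r a
        apply Prod.ext
        · funext i
          fin_cases i <;> rfl
        · rfl }
  have hf : Function.Injective f := by
    rw [← LinearMap.ker_eq_bot, LinearMap.ker_eq_bot']
    intro x hx
    have h1 := congrArg Prod.fst hx
    have h2 := congrArg Prod.snd hx
    have h01 := congrFun h1 0
    have h02 := congrFun h1 1
    have h12 := congrFun h1 2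
    change x.1 (Sum.inl 0) 1 = 0 at h01
    change x.1 (Sum.inl 0) 2 = 0 at h02
    change x.1 (Sum.inl 1) 2 = 0 at h12
    have h10 := x.2 1 0
    have h20 := x.2 2 0
    have h21 := x.2 2 1
    have h00 := X3_diag x.2 0
    have h11 := X3_diag x.2 1
    have h22 := X3_diag x.2 2
    rw [h01] at h10
    rw [h02] at h20
    rw [h12] at h21
    apply Subtype.ext
    funext i j
    rcases i with i | k
    · fin_cases i <;> fin_cases j <;> simp_all
    · exact congrFun (congrFun h2 k) j
  have h := LinearMap.finrank_le_finrank_of_injective hf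
  rw [finrank_prod, finrank_fintype_fun_eq_card, finrank_pi_fintype, Finset.sum_const,
    finrank_fintype_fun_eq_card, Finset.card_univ, Fintype.card_fin, Fintype.card_fin,
    smul_eq_mul] at h
  omega

theorem aux3a : ∀ i j r j₀ : Fin 3, i ≠ j₀ → j ≠ j₀ → j ≠ r → i ≠ r → r ≠ j₀ → j = i := by
  intro i j r j₀ h1 h2 h3 h4 h5
  simp only [ne_eq, Fin.ext_iff] at *
  omega

theorem aux3b : ∀ i j r j₀ : Fin 3, i ≠ j₀ → j ≠ j₀ → j ≠ r → j ≠ i → r ≠ j₀ → i = r := by
  intro i j r j₀ h1 h2 h3 h4 h5
  simp only [ne_eq, Fin.ext_iff] at *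
  omega

theorem X3_semi (m : ℕ) (P : Submodule ℚ (Fin 3 → ℚ)) :
    finrank ℚ ↥(rows (X3 m) P) ≤ finrank ℚ P * (m + 1) := by
  by_cases hP : P = ⊤
  · have h1 : finrank ℚ P = 3 := by rw [hP, finrank_top]; simp
    rw [h1]
    refine le_trans ?_ (X3_top m)
    apply Submodule.finrank_mono
    intro x hx
    exact hx.1
  · obtain ⟨f, hf0, hf⟩ := Submodule.exists_le_ker_of_lt_top P (lt_top_iff_ne_top.mpr hP)
    have hex : ∃ j₀ : Fin 3, f (Pi.single j₀ 1) ≠ 0 := by
      by_contra hcon
      push Not at hcon
      apply hf0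
      apply LinearMap.pi_ext'
      intro i
      apply LinearMap.ext_ring
      simpa using hcon i
    obtain ⟨j₀, hj₀⟩ := hex
    obtain ⟨r, hr⟩ : ∃ r : Fin 3, r ≠ j₀ := ⟨j₀ + 1, by fin_cases j₀ <;> decide⟩
    let Φ : ↥(rows (X3 m) P) →ₗ[ℚ] (P × (Fin m → P)) :=
      { toFun := fun x => (⟨x.1 (Sum.inl r), x.2.2 _⟩,
          fun k => ⟨x.1 (Sum.inr k), x.2.2 _⟩)
        map_add' := fun a b => rfl
        map_smul' := fun a b => rfl }
    have hΦ : Function.Injective Φ := by
      rw [← LinearMap.ker_eq_bot, LinearMap.ker_eq_bot']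
      intro x hx
      have h1 : x.1 (Sum.inl r) = 0 :=
        congrArg (fun z : P × (Fin m → P) => ((z.1 : P) : Fin 3 → ℚ)) hx
      have h2 : ∀ k, x.1 (Sum.inr k) = 0 := fun k =>
        congrArg (fun z : P × (Fin m → P) => ((z.2 k : P) : Fin 3 → ℚ)) hx
      -- the column `r` vanishes
      have hcol : ∀ i, x.1 (Sum.inl i) r = 0 := by
        intro i
        rw [x.2.1 i r, h1]
        simp
      have hrow : ∀ i, i ≠ j₀ → x.1 (Sum.inl i) j₀ = 0 := by
        intro i hi
        have h3 : f (x.1 (Sum.inl i)) = 0 := hf (x.2.2 _)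
        have h4 : x.1 (Sum.inl i) =
            x.1 (Sum.inl i) j₀ • (Pi.single j₀ (1 : ℚ) : Fin 3 → ℚ) := by
          funext j
          by_cases hj : j = j₀
          · subst hj; simp
          · rw [Pi.smul_apply, Pi.single_eq_of_ne hj, smul_zero]
            by_cases hjr : j = r
            · rw [hjr]; exact hcol i
            · by_cases hir : i = r
              · rw [hir, h1]; rfl
              · -- `j = i`
                have hij : j = i := aux3a i j r j₀ hi hj hjr hir hr
                rw [hij]
                exact X3_diag x.2.1 i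
        rw [h4, map_smul, smul_eq_mul] at h3
        exact (mul_eq_zero.mp h3).resolve_right hj₀
      have hall : ∀ i j, x.1 (Sum.inl i) j = 0 := by
        intro i j
        by_cases hi : i = j₀
        · by_cases hj : j = j₀
          · rw [hi, hj]; exact X3_diag x.2.1 j₀
          · rw [x.2.1 i j, hi, hrow j hj, neg_zero]
        · by_cases hj : j = j₀
          · rw [hj]; exact hrow i hi
          · by_cases hij : j = i
            · rw [hij]; exact X3_diag x.2.1 i
            · by_cases hjr : j = r
              · rw [hjr]; exact hcol i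
              · have hir : i = r := aux3b i j r j₀ hi hj hjr hij hr
                rw [hir, h1]; rfl
      apply Subtype.ext
      funext i j
      rcases i with i | k
      · exact hall i j
      · rw [h2 k]; rfl
    have h := LinearMap.finrank_le_finrank_of_injective hΦ
    rw [finrank_prod, finrank_pi_fintype, Finset.sum_const, Finset.card_univ, Fintype.card_fin,
      smul_eq_mul] at h
    nlinarith [h]

theorem X3_sing (m : ℕ) (Z : Submodule ℚ ((Fin 3 ⊕ Fin m) → ℚ)) (hZ : 2 ≤ finrank ℚ Z) :
    ∃ x ∈ X3 m, x ≠ 0 ∧ ∀ j, (fun i => x i j) ∈ Z := by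
  have hpos : 0 < finrank ℚ Z := by omega
  have : Nontrivial Z := Module.nontrivial_of_finrank_pos hpos
  obtain ⟨a, ha⟩ := exists_ne (0 : Z)
  obtain ⟨b, hab⟩ := exists_linearIndependent_pair_of_one_lt_finrank (R := ℚ)
    (show 1 < finrank ℚ Z by omega) ha
  by_cases h0 : ∀ j : Fin 3, a.1 (Sum.inl j) = 0 ∧ b.1 (Sum.inl j) = 0
  · refine ⟨fun i j => if j = 0 then a.1 i else 0, ?_, ?_, ?_⟩
    · intro i j
      simp only [(h0 i).1, (h0 j).1, ite_self, neg_zero]
    · intro h
      apply ha
      apply Subtype.ext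
      funext i
      have := congrFun (congrFun h i) 0
      simpa using this
    · intro j
      by_cases hj : j = 0
      · simp only [if_pos hj]; exact a.2
      · simp only [if_neg hj]; exact Z.zero_mem
  · refine ⟨fun i j => b.1 (Sum.inl j) * a.1 i -
      a.1 (Sum.inl j) * b.1 i, ?_, ?_, ?_⟩
    · intro i j
      ring
    · intro h
      apply h0
      intro j
      have h1 : b.1 (Sum.inl j) • a + (-a.1 (Sum.inl j)) • b = 0 := by
        apply Subtype.ext
        funext i
        have h2 := congrFun (congrFun h i) j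
        simp only [Pi.zero_apply] at h2
        simp only [Submodule.coe_add, Submodule.coe_smul, Pi.add_apply, Pi.smul_apply,
          smul_eq_mul, Submodule.coe_zero, Pi.zero_apply]
        linarith
      have h3 := LinearIndependent.pair_iff.mp hab _ _ h1
      exact ⟨by simpa using h3.2, h3.1⟩
    · intro j
      exact Z.sub_mem (Z.smul_mem _ a.2) (Z.smul_mem _ b.2)

theorem exotic3 (m : ℕ) : Exotic ℚ (Fin 3 ⊕ Fin m) 3 (X3 m) (m + 1) := by
  constructor
  · exact X3_semi m
  · intro Z hZ
    apply X3_sing
    rw [finrank_self, Fintype.card_sum, Fintype.card_fin, Fintype.card_fin] at hZ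
    omega

end Pool.Agent.H447.Clo
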