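import Mathlib
import Pool.Agent.H447.Clo.Core
import Pool.Agent.H447.Clo.Ex3
import Pool.Agent.H447.Clo.Ex2
import Pool.Agent.H447.Clo.Ex22
import Pool.Agent.H447.Clo.Emb

set_option autoImplicit false
set_option linter.unusedSectionVars false

/-!
# Representations of the Galois group and the character module
-/

namespace Pool.Agent.H447.Clo

open Module

section irr

variable {G : Type} [Group G] {V : Type} [AddCommGroup V] [Module ℚ V]
  {W : Type} [AddCommGroup W] [Module ℚ W]

/-- A vector space map which commutes with the group. -/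
def Equi (ρ : Representation ℚ G V) (σ : Representation ℚ G W) (f : V →ₗ[ℚ] W) : Prop :=
  ∀ g v, f (ρ g v) = σ g (f v)

theorem inj_of_equi (ρ : Representation ℚ G V) (σ : Representation ℚ G W) [ρ.IsIrreducible]
    (f : V →ₗ[ℚ] W) (hf : Equi ρ σ f) (h0 : f ≠ 0) : Function.Injective f := by
  let S : Subrepresentation ρ :=
    { toSubmodule := LinearMap.ker f
      apply_mem_toSubmodule := fun g u hu => by
        rw [LinearMap.mem_ker] at hu ⊢
        rw [hf, hu, map_zero] }
  rcases eq_bot_or_eq_top S with h | h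
  · rw [← LinearMap.ker_eq_bot]
    exact congrArg Subrepresentation.toSubmodule h
  · exfalso
    apply h0
    have h1 : LinearMap.ker f = ⊤ := congrArg Subrepresentation.toSubmodule h
    exact LinearMap.ker_eq_top.mp h1

theorem surj_of_equi (ρ : Representation ℚ G V) (σ : Representation ℚ G W) [σ.IsIrreducible]
    (f : V →ₗ[ℚ] W) (hf : Equi ρ σ f) (h0 : f ≠ 0) : Function.Surjective f := by
  let S : Subrepresentation σ :=
    { toSubmodule := LinearMap.range f
      apply_mem_toSubmodule := fun g u hu => by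
        obtain ⟨v, rfl⟩ := hu
        exact ⟨ρ g v, hf g v⟩ }
  rcases eq_bot_or_eq_top S with h | h
  · exfalso
    apply h0
    have h1 : LinearMap.range f = ⊥ := congrArg Subrepresentation.toSubmodule h
    exact LinearMap.range_eq_bot.mp h1
  · rw [← LinearMap.range_eq_top]
    exact congrArg Subrepresentation.toSubmodule h

theorem nontrivial_of_irr (ρ : Representation ℚ G V) [ρ.IsIrreducible] : Nontrivial V := by
  by_contra h
  rw [not_nontrivial_iff_subsingleton] at h
  have h1 : (⊥ : Subrepresentation ρ) = ⊤ := by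
    apply Subrepresentation.toSubmodule_injective
    exact Subsingleton.elim _ _
  exact bot_ne_top h1

theorem exists_dual_ne {v : V} (hv : v ≠ 0) : ∃ ζ : Dual ℚ V, ζ v ≠ 0 := by
  by_contra hcon
  push Not at hcon
  exact hv ((Module.forall_dual_apply_eq_zero_iff ℚ v).mp hcon)

/-- The functionals invariant under an involution with a fixed vector. -/
theorem exists_dualInv (ρ : Representation ℚ G V) (c : G)
    (hc : c * c = 1) (hV : ∃ v, v ≠ 0 ∧ ρ c v = v) : ∃ ζ ∈ dualInv ρ c ⊥, ζ ≠ 0 := by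
  obtain ⟨v, hv, hcv⟩ := hV
  obtain ⟨ζ, hζ⟩ := exists_dual_ne hv
  have hcc : ∀ q, ρ c (ρ c q) = q := by
    intro q
    have : ρ c (ρ c q) = ρ (c * c) q := by rw [map_mul]; rfl
    rw [this, hc, map_one]
    rfl
  refine ⟨ζ + ζ.comp (ρ c), ⟨fun q => ?_, fun q hq => ?_⟩, ?_⟩
  · show ζ (ρ c q) + ζ (ρ c (ρ c q)) = ζ q + ζ (ρ c q)
    rw [hcc]
    ring
  · rw [(Submodule.mem_bot ℚ).mp hq, map_zero]
  · intro h0
    have h1 := LinearMap.congr_fun h0 v
    have h2 : ζ v + ζ (ρ c v) = 0 := h1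
    rw [hcv] at h2
    apply hζ
    linarith

/-- Endomorphisms which are no scalars generate a field. -/
theorem exists_field [FiniteDimensional ℚ V] (ρ : Representation ℚ G V) [ρ.IsIrreducible]
    (α : V →ₗ[ℚ] V) (hα : Equi ρ ρ α) (hns : ∀ r : ℚ, α ≠ r • LinearMap.id) :
    ∃ (E : Type) (_ : Field E) (_ : Algebra ℚ E) (_ : Module E V),
      FiniteDimensional ℚ E ∧ IsScalarTower ℚ E V ∧ 2 ≤ finrank ℚ E ∧
      ∀ (g : G) (e : E) (v : V), ρ g (e • v) = e • ρ g v := by
  have hV := nontrivial_of_irr ρ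
  set μ := minpoly ℚ (α : Module.End ℚ V) with hμ
  have hint : IsIntegral ℚ (α : Module.End ℚ V) := Algebra.IsIntegral.isIntegral _
  -- polynomials in `α` commute with the group
  have hpoly : ∀ p : Polynomial ℚ, Equi ρ ρ (Polynomial.aeval (α : Module.End ℚ V) p) := by
    intro p
    induction p using Polynomial.induction_on' with
    | add p q hp hq =>
      intro g v
      rw [map_add, LinearMap.add_apply, LinearMap.add_apply, hp, hq, map_add]
    | monomial n a =>
      intro g v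
      rw [Polynomial.aeval_monomial]
      have h1 : ∀ n : ℕ, ∀ v, ((α : Module.End ℚ V) ^ n) (ρ g v) =
          ρ g (((α : Module.End ℚ V) ^ n) v) := by
        intro n
        induction n with
        | zero => intro v; rfl
        | succ n ih =>
          intro v
          rw [pow_succ, Module.End.mul_apply, Module.End.mul_apply, hα, ih]
      rw [Module.End.mul_apply, Module.End.mul_apply, h1, Module.algebraMap_end_apply,
        Module.algebraMap_end_apply, map_smul]
  have hirr : Irreducible μ := by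
    have hmonic := minpoly.monic hint
    have hnu : ¬ IsUnit μ := minpoly.not_isUnit ℚ _
    refine ⟨hnu, ?_⟩
    intro a b hab
    have h0 : Polynomial.aeval (α : Module.End ℚ V) a * Polynomial.aeval (α : Module.End ℚ V) b
        = 0 := by
      rw [← map_mul, ← hab]
      exact minpoly.aeval ℚ _
    have hμ0 : μ ≠ 0 := hmonic.ne_zero
    have ha0 : a ≠ 0 := by rintro rfl; exact hμ0 (by rw [hab, zero_mul])
    have hb0 : b ≠ 0 := by rintro rfl; exact hμ0 (by rw [hab, mul_zero])
    have hdeg : ∀ q : Polynomial ℚ, q ≠ 0 → Polynomial.aeval (α : Module.End ℚ V) q = 0 →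
        μ.natDegree ≤ q.natDegree := by
      intro q hq hq'
      exact Polynomial.natDegree_le_of_dvd (minpoly.dvd ℚ _ hq') hq
    have hsum : μ.natDegree = a.natDegree + b.natDegree := by
      rw [hab, Polynomial.natDegree_mul ha0 hb0]
    by_cases hb : Polynomial.aeval (α : Module.End ℚ V) b = 0
    · left
      have h1 := hdeg b hb0 hb
      rw [Polynomial.isUnit_iff_degree_eq_zero, Polynomial.degree_eq_natDegree ha0]
      have : a.natDegree = 0 := by omega
      rw [this]; rfl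
    · right
      have hinj := surj_of_equi ρ ρ _ (hpoly b) hb
      have ha : Polynomial.aeval (α : Module.End ℚ V) a = 0 := by
        apply LinearMap.ext
        intro v
        obtain ⟨w, rfl⟩ := hinj v
        exact LinearMap.congr_fun h0 w
      have h1 := hdeg a ha0 ha
      rw [Polynomial.isUnit_iff_degree_eq_zero, Polynomial.degree_eq_natDegree hb0]
      have : b.natDegree = 0 := by omega
      rw [this]; rfl
  have _ : Fact (Irreducible μ) := ⟨hirr⟩
  let φ : AdjoinRoot μ →+* Module.End ℚ V :=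
    Ideal.Quotient.lift (Ideal.span {μ})
      (Polynomial.aeval (R := ℚ) (α : Module.End ℚ V)).toRingHom (by
      intro q hq
      obtain ⟨r, rfl⟩ := Ideal.mem_span_singleton'.mp hq
      show Polynomial.aeval (α : Module.End ℚ V) (r * μ) = 0
      rw [map_mul, minpoly.aeval, mul_zero])
  have hφ : ∀ q : Polynomial ℚ, φ (AdjoinRoot.mk μ q) = Polynomial.aeval (α : Module.End ℚ V) q :=
    fun q => Ideal.Quotient.lift_mk _ _ _
  let M : Module (AdjoinRoot μ) V := Module.compHom V φ
  have hM : ∀ (e : AdjoinRoot μ) (v : V), M.toSMul.smul e v = φ e v := fun e v => rfl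
  have hμ0 : μ ≠ 0 := hirr.ne_zero
  refine ⟨AdjoinRoot μ, inferInstance, inferInstance, M, ?_, ?_, ?_, ?_⟩
  · exact (AdjoinRoot.powerBasis hμ0).finite
  · constructor
    intro r e v
    show φ (r • e) v = r • φ e v
    obtain ⟨q, rfl⟩ := AdjoinRoot.mk_surjective e
    have h1 : r • AdjoinRoot.mk μ q = AdjoinRoot.mk μ (r • q) := rfl
    rw [h1, hφ, hφ, map_smul, LinearMap.smul_apply]
  · have h1 : finrank ℚ (AdjoinRoot μ) = μ.natDegree := by
      rw [(AdjoinRoot.powerBasis hμ0).finrank, AdjoinRoot.powerBasis_dim]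
    rw [h1]
    have h2 : 0 < μ.natDegree := minpoly.natDegree_pos hint
    by_contra hcon
    have h3 : μ.natDegree = 1 := by omega
    have h4 : μ.degree = 1 := by
      rw [Polynomial.degree_eq_natDegree hμ0, h3]; rfl
    obtain ⟨r, hr⟩ := (minpoly.degree_eq_one_iff).mp h4
    apply hns r
    rw [← hr]
    apply LinearMap.ext
    intro v
    rw [Module.algebraMap_end_apply]
    rfl
  · intro g e v
    obtain ⟨q, rfl⟩ := AdjoinRoot.mk_surjective e
    show ρ g (φ (AdjoinRoot.mk μ q) v) = φ (AdjoinRoot.mk μ q) (ρ g v)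
    rw [hφ, hpoly q]

theorem finrank_le_dualInv [FiniteDimensional ℚ V] (ρ : Representation ℚ G V) (c : G)
    {E : Type} [Field E] [Algebra ℚ E] [FiniteDimensional ℚ E] [Module E V] [IsScalarTower ℚ E V]
    (hE : ∀ (g : G) (e : E) (v : V), ρ g (e • v) = e • ρ g v)
    (h : ∃ ζ ∈ dualInv ρ c ⊥, ζ ≠ 0) : finrank ℚ E ≤ finrank ℚ ↥(dualInv ρ c ⊥) := by
  obtain ⟨ζ, hζ, hζ0⟩ := h
  let f : E →ₗ[ℚ] ↥(dualInv ρ c ⊥) :=
    { toFun := fun e => ⟨
        { toFun := fun v => ζ (e • v)
          map_add' := fun a b => by rw [smul_add, map_add]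
          map_smul' := fun r a => by
            rw [smul_comm, map_smul]; rfl }, by
        refine ⟨fun q => ?_, fun q hq => ?_⟩
        · show ζ (e • ρ c q) = ζ (e • q)
          rw [← hE]
          exact hζ.1 _
        · rw [(Submodule.mem_bot ℚ).mp hq, map_zero]⟩
      map_add' := fun a b => by
        apply Subtype.ext
        apply LinearMap.ext
        intro v
        show ζ ((a + b) • v) = ζ (a • v) + ζ (b • v)
        rw [add_smul, map_add]
      map_smul' := fun r a => by
        apply Subtype.ext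
        apply LinearMap.ext
        intro v
        show ζ ((r • a) • v) = r • ζ (a • v)
        rw [smul_assoc, map_smul] }
  refine LinearMap.finrank_le_finrank_of_injective (f := f) ?_
  rw [← LinearMap.ker_eq_bot, LinearMap.ker_eq_bot']
  intro e he
  by_contra hne
  apply hζ0
  apply LinearMap.ext
  intro v
  have h1 := LinearMap.congr_fun (congrArg Subtype.val he) (e⁻¹ • v)
  have h2 : ζ (e • e⁻¹ • v) = 0 := h1
  rwa [smul_smul, mul_inv_cancel₀ hne, one_smul] at h2

end irr

section pairs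

variable {G : Type} [Group G] [Fintype G] {V₁ : Type} [AddCommGroup V₁] [Module ℚ V₁]
  {V₂ : Type} [AddCommGroup V₂] [Module ℚ V₂] {X : Type} [AddCommGroup X] [Module ℚ X]

/-- averaging -/
theorem exists_equi_vanishing {T : Type} [AddCommGroup T] [Module ℚ T] (τ : Representation ℚ G T)
    (Q : Submodule ℚ T) (hQ : ∀ g, ∀ q ∈ Q, τ g q ∈ Q) (hne : Q ≠ ⊤) :
    ∃ π : T →ₗ[ℚ] T, Equi τ τ π ∧ (∀ q ∈ Q, π q = 0) ∧ π ≠ 0 := by
  obtain ⟨R, hR⟩ := Q.exists_isCompl
  let P : T →ₗ[ℚ] T := LinearMap.id - (Q.subtype).comp (Q.projectionOnto R hR)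
  have hP : ∀ q ∈ Q, P q = 0 := by
    intro q hq
    show q - ((Q.projectionOnto R hR q : Q) : T) = 0
    have h1 := Submodule.projectionOnto_apply_left hR ⟨q, hq⟩
    rw [h1, sub_self]
  have hP' : ∀ t, t - P t ∈ Q := by
    intro t
    have : t - P t = ((Q.projectionOnto R hR t : Q) : T) := by
      show t - (t - ((Q.projectionOnto R hR t : Q) : T)) = _
      rw [sub_sub_cancel]
    rw [this]
    exact Submodule.coe_mem _
  let π : T →ₗ[ℚ] T := ∑ g : G, (τ g) ∘ₗ P ∘ₗ (τ g⁻¹)
  have hπ : ∀ t, π t = ∑ g : G, τ g (P (τ g⁻¹ t)) := by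
    intro t
    simp only [π, LinearMap.sum_apply, LinearMap.comp_apply]
  refine ⟨π, ?_, ?_, ?_⟩
  · intro h t
    rw [hπ, hπ, map_sum, ← Equiv.sum_comp (Equiv.mulLeft h)]
    refine Finset.sum_congr rfl fun g _ => ?_
    show τ (h * g) (P (τ (h * g)⁻¹ (τ h t))) = τ h (τ g (P (τ g⁻¹ t)))
    have h1 : τ (h * g)⁻¹ (τ h t) = τ g⁻¹ t := by
      have : τ (h * g)⁻¹ (τ h t) = (τ (h * g)⁻¹ * τ h) t := rfl
      rw [this, ← map_mul]
      congr 2
      group
    rw [h1, map_mul]
    rfl
  · intro q hq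
    rw [hπ]
    refine Finset.sum_eq_zero fun g _ => ?_
    rw [hP _ (hQ _ _ hq), map_zero]
  · intro h0
    apply hne
    rw [eq_top_iff]
    intro t _
    have h1 : (Fintype.card G : ℚ) • t - π t ∈ Q := by
      have h2 : (Fintype.card G : ℚ) • t - π t = ∑ g : G, τ g (τ g⁻¹ t - P (τ g⁻¹ t)) := by
        simp only [map_sub, Finset.sum_sub_distrib]
        rw [hπ]
        congr 1
        have h3 : ∀ g : G, τ g (τ g⁻¹ t) = t := by
          intro g
          have : τ g (τ g⁻¹ t) = (τ g * τ g⁻¹) t := rfl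
          rw [this, ← map_mul, mul_inv_cancel, map_one]
          rfl
        simp only [h3, Finset.sum_const, Finset.card_univ]
        rw [Nat.cast_smul_eq_nsmul]
      rw [h2]
      exact Q.sum_mem fun g _ => hQ _ _ (hP' _)
    rw [h0, LinearMap.zero_apply, sub_zero] at h1
    have h4 : (Fintype.card G : ℚ) ≠ 0 := by exact_mod_cast Fintype.card_ne_zero
    have h5 := Q.smul_mem (Fintype.card G : ℚ)⁻¹ h1
    rwa [smul_smul, inv_mul_cancel₀ h4, one_smul] at h5

theorem pair_surj (χ : Representation ℚ G X) (ρ₁ : Representation ℚ G V₁)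
    (ρ₂ : Representation ℚ G V₂)
    [ρ₁.IsIrreducible] [ρ₂.IsIrreducible]
    (hno : ¬ ∃ e : V₁ →ₗ[ℚ] V₂, Function.Bijective e ∧ Equi ρ₁ ρ₂ e)
    (f₁ : X →ₗ[ℚ] (Fin 2 → V₁)) (hf₁ : Function.Surjective f₁) (he₁ : Equi χ (powRep ρ₁ (Fin 2)) f₁)
    (f₂ : X →ₗ[ℚ] (Fin 2 → V₂)) (hf₂ : Function.Surjective f₂)
    (he₂ : Equi χ (powRep ρ₂ (Fin 2)) f₂) : Function.Surjective (f₁.prod f₂) := by
  classical
  rw [← LinearMap.range_eq_top]
  by_contra hne
  set τ := prodRep (powRep ρ₁ (Fin 2)) (powRep ρ₂ (Fin 2)) with hτ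
  obtain ⟨π, hπ, hπ0, hπne⟩ := exists_equi_vanishing τ (LinearMap.range (f₁.prod f₂)) (by
    rintro g _ ⟨x, rfl⟩
    refine ⟨χ g x, ?_⟩
    show (f₁ (χ g x), f₂ (χ g x)) = (powRep ρ₁ (Fin 2) g (f₁ x), powRep ρ₂ (Fin 2) g (f₂ x))
    rw [he₁, he₂]) hne
  -- no maps between the different representations
  have h12 : ∀ e : V₁ →ₗ[ℚ] V₂, Equi ρ₁ ρ₂ e → e = 0 := by
    intro e he
    by_contra h0
    exact hno ⟨e, ⟨inj_of_equi ρ₁ ρ₂ e he h0, surj_of_equi ρ₁ ρ₂ e he h0⟩, he⟩
  have h21 : ∀ e : V₂ →ₗ[ℚ] V₁, Equi ρ₂ ρ₁ e → e = 0 := by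
    intro e he
    by_contra h0
    have hb : Function.Bijective e := ⟨inj_of_equi ρ₂ ρ₁ e he h0, surj_of_equi ρ₂ ρ₁ e he h0⟩
    let e' := LinearEquiv.ofBijective e hb
    refine hno ⟨e'.symm.toLinearMap, e'.symm.bijective, ?_⟩
    intro g v
    apply e'.injective
    show e' (e'.symm (ρ₁ g v)) = e (ρ₂ g (e'.symm v))
    rw [e'.apply_symm_apply, he]
    show ρ₁ g v = ρ₁ g (e' (e'.symm v))
    rw [e'.apply_symm_apply]
  -- the components
  have hA : ∀ (x : X) , π (f₁ x, f₂ x) = 0 := fun x => hπ0 _ ⟨x, rfl⟩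
  have hπg : ∀ (g : G) (q : (Fin 2 → V₁) × (Fin 2 → V₂)), π (powRep ρ₁ (Fin 2) g q.1,
      powRep ρ₂ (Fin 2) g q.2) = (powRep ρ₁ (Fin 2) g (π q).1, powRep ρ₂ (Fin 2) g (π q).2) :=
    fun g q => hπ g q
  have hpow : ∀ (V : Type) [AddCommGroup V] [Module ℚ V] (ρ : Representation ℚ G V) (j : Fin 2)
      (g : G) (v : V), (Pi.single j (ρ g v) : Fin 2 → V) =
        powRep ρ (Fin 2) g (Pi.single j v) := by
    intro V _ _ ρ j g v
    funext k
    rw [powRep_apply]
    by_cases hk : k = j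
    · subst hk; simp
    · simp [Pi.single_eq_of_ne hk]
  -- off-diagonal components vanish
  have hz21 : ∀ (q : Fin 2 → V₂), (π (0, q)).1 = 0 := by
    have h1 : ∀ j k : Fin 2, ∀ v : V₂, (π (0, Pi.single j v)).1 k = 0 := by
      intro j k v
      let e : V₂ →ₗ[ℚ] V₁ := (LinearMap.proj k) ∘ₗ (LinearMap.fst ℚ (Fin 2 → V₁) (Fin 2 → V₂)) ∘ₗ π ∘ₗ
        (LinearMap.inr ℚ (Fin 2 → V₁) (Fin 2 → V₂)) ∘ₗ (LinearMap.single ℚ (fun _ => V₂) j)
      have he : Equi ρ₂ ρ₁ e := by
        intro g v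
        show (π (0, Pi.single j (ρ₂ g v))).1 k = ρ₁ g ((π (0, Pi.single j v)).1 k)
        rw [hpow]
        have h2 := hπg g (0, Pi.single j v)
        rw [map_zero] at h2
        rw [h2]
        rfl
      exact LinearMap.congr_fun (h21 e he) v
    intro q
    have h2 : ((0 : Fin 2 → V₁), q) = ∑ j, ((0 : Fin 2 → V₁), (Pi.single j (q j) : Fin 2 → V₂)) := by
      apply Prod.ext
      · rw [Prod.fst_sum]; simp
      · rw [Prod.snd_sum]
        exact (Finset.univ_sum_single q).symm
    rw [h2, map_sum, Prod.fst_sum]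
    refine Finset.sum_eq_zero fun j _ => ?_
    funext k
    exact h1 j k (q j)
  have hz12 : ∀ (q : Fin 2 → V₁), (π (q, 0)).2 = 0 := by
    have h1 : ∀ j k : Fin 2, ∀ v : V₁, (π (Pi.single j v, 0)).2 k = 0 := by
      intro j k v
      let e : V₁ →ₗ[ℚ] V₂ := (LinearMap.proj k) ∘ₗ (LinearMap.snd ℚ (Fin 2 → V₁) (Fin 2 → V₂)) ∘ₗ π ∘ₗ
        (LinearMap.inl ℚ (Fin 2 → V₁) (Fin 2 → V₂)) ∘ₗ (LinearMap.single ℚ (fun _ => V₁) j)
      have he : Equi ρ₁ ρ₂ e := by
        intro g v
        show (π (Pi.single j (ρ₁ g v), 0)).2 k = ρ₂ g ((π (Pi.single j v, 0)).2 k)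
        rw [hpow]
        have h2 := hπg g (Pi.single j v, 0)
        rw [map_zero] at h2
        rw [h2]
        rfl
      exact LinearMap.congr_fun (h12 e he) v
    intro q
    have h2 : (q, (0 : Fin 2 → V₂)) = ∑ j, ((Pi.single j (q j) : Fin 2 → V₁), (0 : Fin 2 → V₂)) := by
      apply Prod.ext
      · rw [Prod.fst_sum]
        exact (Finset.univ_sum_single q).symm
      · rw [Prod.snd_sum]; simp
    rw [h2, map_sum, Prod.snd_sum]
    refine Finset.sum_eq_zero fun j _ => ?_
    funext k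
    exact h1 j k (q j)
  -- everything vanishes
  apply hπne
  apply LinearMap.ext
  rintro ⟨q₁, q₂⟩
  obtain ⟨x, rfl⟩ := hf₁ q₁
  obtain ⟨y, rfl⟩ := hf₂ q₂
  have hsplit : ∀ (a : Fin 2 → V₁) (b : Fin 2 → V₂), π (a, b) = π (a, 0) + π (0, b) := by
    intro a b
    rw [← map_add, Prod.mk_add_mk, add_zero, zero_add]
  have ha : π (f₁ x, 0) = 0 := by
    apply Prod.ext
    · have h1 := congrArg Prod.fst (hA x)
      rw [hsplit, Prod.fst_add, hz21, add_zero] at h1
      exact h1
    · exact hz12 _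
  have hb : π (0, f₂ y) = 0 := by
    apply Prod.ext
    · exact hz21 _
    · have h1 := congrArg Prod.snd (hA y)
      rw [hsplit, Prod.snd_add, hz12, zero_add] at h1
      exact h1
  rw [hsplit, ha, hb, add_zero]
  rfl

end pairs

end Pool.Agent.H447.Clo
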