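import Mathlib
import Pool.Agent.H447.Clo.Rep
import Pool.Agent.H447.Clo.CharDefs

set_option autoImplicit false
set_option linter.unusedSectionVars false

/-!
# The classification, from the absence of singular semistable exponents
-/

namespace Pool.Agent.H447.Clo

open Module

section defs

variable (K N : Type) [Field K] [NumberField K] [Field N] [NumberField N]

/-- There are no singular semistable exponents. -/
def NoBad (c : N ≃ₐ[ℚ] N) : Prop := ∀ D : Setup K N, D.c = c → D.Semi → D.Sing → False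

end defs

variable {K N : Type} [Field K] [NumberField K] [Field N] [NumberField N] [IsGalois ℚ N]

theorem exists_gal' (ι σ : K →ₐ[ℚ] N) : ∃ g : N ≃ₐ[ℚ] N, ∀ y, σ y = g (ι y) := by
  obtain ⟨g, hg⟩ := exists_gal (Ω := AlgebraicClosure N)
    (IsScalarTower.toAlgHom ℚ N (AlgebraicClosure N)) ι
    ((IsScalarTower.toAlgHom ℚ N (AlgebraicClosure N)).comp σ)
  refine ⟨g, fun y => ?_⟩
  exact (IsScalarTower.toAlgHom ℚ N (AlgebraicClosure N)).toRingHom.injective (hg y)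

/-- A quotient of the character module is generated by an invariant vector. -/
theorem exists_cyclic_vec {Q : Type} [AddCommGroup Q] [Module ℚ Q]
    (σ : Representation ℚ (N ≃ₐ[ℚ] N) Q) (ι : K →ₐ[ℚ] N)
    (f : ((K →ₐ[ℚ] N) → ℚ) →ₗ[ℚ] Q) (hf : Function.Surjective f) (he : Equi (charRep K N) σ f) :
    ∃ q₀ : Q, (∀ h : N ≃ₐ[ℚ] N, (∀ y : K, h (ι y) = ι y) → σ h q₀ = q₀) ∧
      Submodule.span ℚ (Set.range fun g => σ g q₀) = ⊤ := by
  classical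
  let δ : (K →ₐ[ℚ] N) → ℚ := Pi.single ι 1
  have hδ : ∀ g : N ≃ₐ[ℚ] N, charRep K N g δ = Pi.single ((g : N →ₐ[ℚ] N).comp ι) 1 := by
    intro g
    funext τ
    rw [charRep_apply]
    show (Pi.single ι 1 : (K →ₐ[ℚ] N) → ℚ) _ = _
    by_cases h : τ = (g : N →ₐ[ℚ] N).comp ι
    · have h1 : ((g⁻¹ : N ≃ₐ[ℚ] N) : N →ₐ[ℚ] N).comp τ = ι := by
        ext x
        rw [h]
        show g⁻¹ (g (ι x)) = ι x
        rw [← AlgEquiv.mul_apply, inv_mul_cancel, AlgEquiv.one_apply]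
      rw [h1, h, Pi.single_eq_same, Pi.single_eq_same]
    · have h1 : ((g⁻¹ : N ≃ₐ[ℚ] N) : N →ₐ[ℚ] N).comp τ ≠ ι := by
        intro h1
        apply h
        ext x
        have h2 : g⁻¹ (τ x) = ι x := congrArg (fun f : K →ₐ[ℚ] N => f x) h1
        show τ x = g (ι x)
        rw [← h2, ← AlgEquiv.mul_apply, mul_inv_cancel, AlgEquiv.one_apply]
      rw [Pi.single_eq_of_ne h1, Pi.single_eq_of_ne h]
  refine ⟨f δ, ?_, ?_⟩
  · intro h hh
    rw [← he, hδ]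
    congr 2
    ext x
    exact hh x
  · rw [eq_top_iff]
    intro q _
    obtain ⟨x, rfl⟩ := hf q
    have hx : x = ∑ τ, x τ • (Pi.single τ 1 : (K →ₐ[ℚ] N) → ℚ) := by
      funext τ
      rw [Finset.sum_apply]
      simp [Pi.single_apply]
    rw [hx, map_sum]
    refine Submodule.sum_mem _ fun τ _ => ?_
    rw [map_smul]
    refine Submodule.smul_mem _ _ (Submodule.subset_span ?_)
    obtain ⟨g, hg⟩ := exists_gal' ι τ
    refine ⟨g, ?_⟩
    show σ g (f δ) = _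
    rw [← he, hδ]
    congr 2
    ext x
    exact (hg x).symm

section main

variable (c : N ≃ₐ[ℚ] N) (hc : c * c = 1)

include hc in
theorem no_bad_quotient (hno : NoBad K N c) (ι : K →ₐ[ℚ] N) {Q : Type} [AddCommGroup Q]
    [Module ℚ Q] (σ : Representation ℚ (N ≃ₐ[ℚ] N) Q) (f : ((K →ₐ[ℚ] N) → ℚ) →ₗ[ℚ] Q)
    (hf : Function.Surjective f) (he : Equi (charRep K N) σ f) (I : Type) [Fintype I]
    (L : Submodule ℚ (I → Dual ℚ Q)) (hL : Bad σ c I L) : False := by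
  have _ : FiniteDimensional ℚ Q := Module.Finite.of_surjective f hf
  obtain ⟨q₀, h1, h2⟩ := exists_cyclic_vec σ ι f hf he
  obtain ⟨D, h3, h4, h5⟩ := exists_setup ι c hc σ I L hL q₀ h1 h2
  exact hno D h3 h4 h5

variable {V : Type} [AddCommGroup V] [Module ℚ V] {V' : Type} [AddCommGroup V'] [Module ℚ V']

theorem finite_of_pow {X : Type} [AddCommGroup X] [Module ℚ X] [FiniteDimensional ℚ X]
    (n : ℕ) (f : X →ₗ[ℚ] (Fin (n + 1) → V)) (hf : Function.Surjective f) :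
    FiniteDimensional ℚ V := by
  refine Module.Finite.of_surjective ((LinearMap.proj 0) ∘ₗ f) ?_
  intro v
  obtain ⟨x, hx⟩ := hf (fun _ => v)
  exact ⟨x, by rw [LinearMap.comp_apply, hx]; rfl⟩

include hc in
theorem no_three (hno : NoBad K N c) (ι : K →ₐ[ℚ] N) (ρ : Representation ℚ (N ≃ₐ[ℚ] N) V)
    [ρ.IsIrreducible] (hV : ∃ v, v ≠ 0 ∧ ρ c v = v) (f : ((K →ₐ[ℚ] N) → ℚ) →ₗ[ℚ] (Fin 3 → V))
    (hf : Function.Surjective f) (he : Equi (charRep K N) (powRep ρ (Fin 3)) f) : False := by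
  have _ : FiniteDimensional ℚ V := finite_of_pow 2 f hf
  obtain ⟨v, hv, -⟩ := id hV
  obtain ⟨ψ, hψ⟩ := exists_dual_ne hv
  have hψ0 : ψ ≠ 0 := by rintro rfl; exact hψ rfl
  obtain ⟨ζ, hζ, hζ0⟩ := exists_dualInv ρ c hc hV
  have hpos : 0 < finrank ℚ ↥(dualInv ρ c ⊥) := by
    rw [Module.finrank_pos_iff]
    exact ⟨⟨⟨ζ, hζ⟩, 0, fun h => hζ0 (congrArg Subtype.val h)⟩⟩
  obtain ⟨m, hm⟩ : ∃ m, finrank ℚ ↥(dualInv ρ c ⊥) = m + 1 :=
    ⟨_, (Nat.succ_pred_eq_of_pos hpos).symm⟩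
  have hex := exotic3 m
  rw [← hm] at hex
  exact no_bad_quotient c hc hno ι (powRep ρ (Fin 3)) f hf he _ _
    (bad_of_exotic ρ (fun g e v => map_smul _ _ _) ψ hψ0 c _ 3 _ hex)

include hc in
theorem scalar_of_two (hno : NoBad K N c) (ι : K →ₐ[ℚ] N) (ρ : Representation ℚ (N ≃ₐ[ℚ] N) V)
    [ρ.IsIrreducible] (hV : ∃ v, v ≠ 0 ∧ ρ c v = v) (f : ((K →ₐ[ℚ] N) → ℚ) →ₗ[ℚ] (Fin 2 → V))
    (hf : Function.Surjective f) (he : Equi (charRep K N) (powRep ρ (Fin 2)) f)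
    (α : V →ₗ[ℚ] V) (hα : Equi ρ ρ α) : ∃ r : ℚ, α = r • LinearMap.id := by
  by_contra hns
  push Not at hns
  have _ : FiniteDimensional ℚ V := finite_of_pow 1 f hf
  obtain ⟨E, i1, i2, i3, i4, i5, hE2, hE⟩ := exists_field ρ α hα hns
  obtain ⟨v, hv, -⟩ := id hV
  obtain ⟨ψ, hψ⟩ := exists_dual_ne hv
  have hψ0 : ψ ≠ 0 := by rintro rfl; exact hψ rfl
  have hw := finrank_le_dualInv ρ c hE (exists_dualInv ρ c hc hV)
  obtain ⟨m, X, hX⟩ := exotic2 hE2 _ hw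
  exact no_bad_quotient c hc hno ι (powRep ρ (Fin 2)) f hf he _ _
    (bad_of_exotic ρ hE ψ hψ0 c _ 2 _ hX)

include hc in
theorem iso_of_two (hno : NoBad K N c) (ι : K →ₐ[ℚ] N) (ρ : Representation ℚ (N ≃ₐ[ℚ] N) V)
    (ρ' : Representation ℚ (N ≃ₐ[ℚ] N) V')
    [ρ.IsIrreducible] [ρ'.IsIrreducible] (hV : ∃ v, v ≠ 0 ∧ ρ c v = v)
    (hV' : ∃ v, v ≠ 0 ∧ ρ' c v = v) (f : ((K →ₐ[ℚ] N) → ℚ) →ₗ[ℚ] (Fin 2 → V))
    (hf : Function.Surjective f) (he : Equi (charRep K N) (powRep ρ (Fin 2)) f)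
    (f' : ((K →ₐ[ℚ] N) → ℚ) →ₗ[ℚ] (Fin 2 → V'))
    (hf' : Function.Surjective f') (he' : Equi (charRep K N) (powRep ρ' (Fin 2)) f') :
    ∃ e : V →ₗ[ℚ] V', Function.Bijective e ∧ Equi ρ ρ' e := by
  by_contra hno'
  have _ : FiniteDimensional ℚ V := finite_of_pow 1 f hf
  have _ : FiniteDimensional ℚ V' := finite_of_pow 1 f' hf'
  have hsurj := pair_surj (charRep K N) ρ ρ' hno' f hf he f' hf' he'
  obtain ⟨v, hv, -⟩ := id hV
  obtain ⟨ψ, hψ⟩ := exists_dual_ne hv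
  have hψ0 : ψ ≠ 0 := by rintro rfl; exact hψ rfl
  obtain ⟨v', hv', -⟩ := id hV'
  obtain ⟨ψ', hψ'⟩ := exists_dual_ne hv'
  have hψ0' : ψ' ≠ 0 := by rintro rfl; exact hψ' rfl
  have hm : ∀ (W : Type) [AddCommGroup W] [Module ℚ W] [FiniteDimensional ℚ W]
      (τ : Representation ℚ (N ≃ₐ[ℚ] N) W), (∃ v, v ≠ 0 ∧ τ c v = v) →
      ∃ m, finrank ℚ ↥(dualInv τ c ⊥) = m + 1 := by
    intro W _ _ _ τ h
    obtain ⟨ζ, hζ, hζ0⟩ := exists_dualInv τ c hc h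
    have hpos : 0 < finrank ℚ ↥(dualInv τ c ⊥) := by
      rw [Module.finrank_pos_iff]
      exact ⟨⟨⟨ζ, hζ⟩, 0, fun h => hζ0 (congrArg Subtype.val h)⟩⟩
    exact ⟨_, (Nat.succ_pred_eq_of_pos hpos).symm⟩
  obtain ⟨m, hm1⟩ := hm V ρ hV
  obtain ⟨m', hm2⟩ := hm V' ρ' hV'
  refine no_bad_quotient c hc hno ι _ (f.prod f') hsurj ?_ _ _
    (bad22 ρ ρ' ψ hψ0 ψ' hψ0' c m m' hm1 hm2)
  intro g x
  show (f (charRep K N g x), f' (charRep K N g x)) =
    (powRep ρ (Fin 2) g (f x), powRep ρ' (Fin 2) g (f' x))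
  rw [he, he']

/-- The classification. -/
theorem nearly (hc : c * c = 1) (hno : NoBad K N c) (ι : K →ₐ[ℚ] N) :
    NearlyMultiplicityFree K N c := by
  refine ⟨?_, ?_, ?_⟩
  · intro V _ _ ρ hρ hV ⟨f, hf, he⟩
    exact no_three c hc hno ι ρ hV f hf (fun g x => funext fun j => he g x j)
  · intro V _ _ ρ hρ hV ⟨f, hf, he⟩ α hα
    obtain ⟨r, hr⟩ := scalar_of_two c hc hno ι ρ hV f hf (fun g x => funext fun j => he g x j) α hα
    exact ⟨r, fun v => by rw [hr]; rfl⟩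
  · intro V V' _ _ _ _ ρ ρ' hρ hρ' hV hV' ⟨f, hf, he⟩ ⟨f', hf', he'⟩
    obtain ⟨e, hb, hee⟩ := iso_of_two c hc hno ι ρ ρ' hV hV' f hf
      (fun g x => funext fun j => he g x j) f' hf' (fun g x => funext fun j => he' g x j)
    exact ⟨LinearEquiv.ofBijective e hb, hee⟩

end main

end Pool.Agent.H447.Clo
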