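import Mathlib
import Pool.Graph.R_seed8.H440R3.Auto

set_option autoImplicit false
set_option linter.unusedSectionVars false

/-!
# A closure which contains a nontrivial `ℤ_p`-relation is not commensurable with `ℤ_p ^ M`

This is the argument of `Pool.Agent.H440R3.commens_contra`, for arbitrary rank.
-/

namespace Pool.Agent.H447.Clo

open Filter Topology Pool.Agent.H440R3

variable {p : ℕ} [Fact p.Prime] {G : Type*} [CommGroup G] [TopologicalSpace G]
  [IsTopologicalGroup G] [T2Space G]

/-- An additive map `ℤ^M → ℤ_p^k` is given by a matrix. -/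
theorem additive_formula {M k : ℕ} (Θ : (Fin M → ℤ) →+ (Fin k → ℤ_[p])) (c : Fin M → ℤ)
    (l : Fin k) : Θ c l = ∑ i, ((c i : ℤ) : ℤ_[p]) * Θ (Pi.single i 1) l := by
  have h : c = ∑ i, c i • (Pi.single i (1 : ℤ) : Fin M → ℤ) := by
    funext x
    rw [Finset.sum_apply, Finset.sum_eq_single x]
    · simp
    · intro b _ hb
      simp [hb.symm]
    · intro h; exact absurd (Finset.mem_univ _) h
  conv_lhs => rw [h]
  rw [map_sum, Finset.sum_apply]
  refine Finset.sum_congr rfl fun i _ => ?_
  rw [map_zsmul, Pi.smul_apply, zsmul_eq_mul]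

theorem commens_contra {M : ℕ} (ψ : Multiplicative (Fin M → ℤ) →* G) (C : Subgroup G)
    (hC : C = ψ.range.topologicalClosure) (hcomp : IsCompact (C : Set G))
    (H : Subgroup C) (Z : Subgroup (Multiplicative (Fin M → ℤ_[p])))
    (hH : H.FiniteIndex) (hZ : Z.FiniteIndex) (φ : H ≃* Z)
    (c : ℕ → (Fin M → ℤ)) (cinf : Fin M → ℤ_[p]) (hcinf : cinf ≠ 0)
    (hlim : Tendsto (fun m i => ((c m i : ℤ) : ℤ_[p])) atTop (𝓝 cinf))
    (hone : Tendsto (fun m => ψ (Multiplicative.ofAdd (c m))) atTop (𝓝 1)) : False := by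
  have hmem : ∀ x, ψ x ∈ C := by
    intro x
    rw [hC]
    exact Subgroup.le_topologicalClosure _ ⟨x, rfl⟩
  set N := H.index with hN
  have hN0 : (N : ℤ_[p]) ≠ 0 := by
    have := hH.index_ne_zero
    exact_mod_cast this
  -- the hom `x ↦ φ (x ^ N)`
  let ν : C →* H :=
    { toFun := fun x => ⟨x ^ N, H.pow_index_mem x⟩
      map_one' := by apply Subtype.ext; simp
      map_mul' := fun x y => by apply Subtype.ext; simp [mul_pow] }
  let Θ : C → (Fin M → ℤ_[p]) := fun x => Multiplicative.toAdd ((φ (ν x) : Z) : Multiplicative _)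
  have hd : DenseRange (fun w : Fin M → ℤ => (⟨ψ (Multiplicative.ofAdd w), hmem _⟩ : C)) := by
    intro x
    rw [closure_subtype]
    have hx : (x : G) ∈ closure (ψ.range : Set G) := hC.le x.2
    convert hx using 2
    ext g
    constructor
    · rintro ⟨y, ⟨w, rfl⟩, rfl⟩
      exact ⟨Multiplicative.ofAdd w, rfl⟩
    · rintro ⟨w, rfl⟩
      exact ⟨⟨ψ w, hmem w⟩, ⟨Multiplicative.toAdd w, rfl⟩, rfl⟩
  have hΘ : Continuous Θ := by
    have : CompactSpace C := isCompact_iff_compactSpace.mp hcomp
    let ψ' : Multiplicative (Fin M → ℤ) →* C := ψ.codRestrict C hmem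
    have hfg : ψ'.range.FG := (Group.fg_iff_subgroup_fg _).mp (Group.fg_range ψ')
    have hdense : Dense (ψ'.range : Set C) := hd
    let Θ' : C →* Multiplicative (Fin M → ℤ_[p]) := (Z.subtype.comp φ.toMonoidHom).comp ν
    have h1 : Continuous Θ' := continuous_of_fg_dense hfg hdense Θ'
    exact continuous_toAdd.comp h1
  have hΘ_mul : ∀ x y, Θ (x * y) = Θ x + Θ y := by
    intro x y
    simp only [Θ, map_mul, Subgroup.coe_mul, toAdd_mul]
  have hΘ_one : Θ 1 = 0 := by
    simp only [Θ, map_one, Subgroup.coe_one, toAdd_one]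
  let Ξ : (Fin M → ℤ) →+ (Fin M → ℤ_[p]) :=
    { toFun := fun v => Θ ⟨ψ (Multiplicative.ofAdd v), hmem _⟩
      map_zero' := by
        rw [← hΘ_one]
        congr 1
        apply Subtype.ext
        show ψ (Multiplicative.ofAdd 0) = 1
        rw [ofAdd_zero, map_one]
      map_add' := fun v w => by
        rw [← hΘ_mul]
        congr 1
        apply Subtype.ext
        show ψ (Multiplicative.ofAdd (v + w)) =
          ψ (Multiplicative.ofAdd v) * ψ (Multiplicative.ofAdd w)
        rw [ofAdd_add, map_mul] }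
  -- the limit relation
  have hrel : ∀ l, ∑ i, cinf i * Ξ (Pi.single i 1) l = 0 := by
    intro l
    have h1 : Tendsto (fun m => Ξ (c m) l) atTop (𝓝 (∑ i, cinf i * Ξ (Pi.single i 1) l)) := by
      have h0 : (fun m => Ξ (c m) l) =
          fun m => ∑ i, ((c m i : ℤ) : ℤ_[p]) * Ξ (Pi.single i 1) l :=
        funext fun m => additive_formula Ξ (c m) l
      rw [h0]
      refine tendsto_finsetSum _ fun i _ => ?_
      exact ((tendsto_pi_nhds.mp hlim) i).mul tendsto_const_nhds
    have h2 : Tendsto (fun m => Ξ (c m) l) atTop (𝓝 0) := by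
      have h3 : Tendsto (fun m => (⟨ψ (Multiplicative.ofAdd (c m)), hmem _⟩ : C)) atTop
          (𝓝 (1 : C)) := by
        rw [tendsto_subtype_rng]
        exact hone
      have h4 := (hΘ.tendsto 1).comp h3
      rw [hΘ_one] at h4
      exact (tendsto_pi_nhds.mp h4) l
    exact tendsto_nhds_unique h1 h2
  -- linear algebra
  let A : Matrix (Fin M) (Fin M) ℤ_[p] := Matrix.of fun k l => Ξ (Pi.single k 1) l
  have hdet : A.det = 0 := by
    rw [← Matrix.exists_vecMul_eq_zero_iff]
    refine ⟨cinf, hcinf, ?_⟩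
    funext l
    show ∑ k, cinf k * A k l = 0
    exact hrel l
  obtain ⟨v, hv0, hv⟩ := Matrix.exists_mulVec_eq_zero_iff.mpr hdet
  let f : (Fin M → ℤ_[p]) → ℤ_[p] := fun w => ∑ l, w l * v l
  have hf : Continuous f := by
    refine continuous_finsetSum _ fun l _ => ?_
    exact (continuous_apply l).mul continuous_const
  have hfs : ∀ (n : ℕ) w, f (n • w) = n * f w := by
    intro n w
    simp only [f]
    rw [Finset.mul_sum]
    refine Finset.sum_congr rfl fun l _ => ?_
    rw [Pi.smul_apply, nsmul_eq_mul, mul_assoc]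
  have hfe : ∀ i, f (Ξ (Pi.single i 1)) = 0 := by
    intro i
    have := congrFun hv i
    simp only [Matrix.mulVec, dotProduct, A, Matrix.of_apply, Pi.zero_apply] at this
    exact this
  have hfΞ : ∀ w, f (Ξ w) = 0 := by
    intro w
    have h0 : f (Ξ w) = ∑ l, (∑ i, ((w i : ℤ) : ℤ_[p]) * Ξ (Pi.single i 1) l) * v l := by
      refine Finset.sum_congr rfl fun l _ => ?_
      rw [additive_formula Ξ w l]
    rw [h0]
    simp only [Finset.sum_mul]
    rw [Finset.sum_comm]
    refine Finset.sum_eq_zero fun i _ => ?_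
    have := hfe i
    simp only [f] at this
    simp only [mul_assoc, ← Finset.mul_sum, this, mul_zero]
  -- vanishing on the closure
  have hclo : ∀ x : C, f (Θ x) = 0 := by
    have heq : (fun x : C => f (Θ x)) = fun _ => 0 := by
      refine Continuous.ext_on hd (hf.comp hΘ) continuous_const ?_
      rintro _ ⟨w, rfl⟩
      exact hfΞ w
    intro x
    exact congrFun heq x
  have hH0 : ∀ x : H, f (Multiplicative.toAdd ((φ x : Z) : Multiplicative (Fin M → ℤ_[p]))) = 0 := by
    intro x
    have h1 := hclo (x : C)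
    have h2 : ν (x : C) = x ^ N := by
      apply Subtype.ext
      rfl
    have h3 : Θ (x : C) = N • Multiplicative.toAdd ((φ x : Z) : Multiplicative (Fin M → ℤ_[p])) := by
      simp only [Θ]
      rw [h2, map_pow, Subgroup.coe_pow, toAdd_pow]
    rw [h3, hfs] at h1
    exact (mul_eq_zero.mp h1).resolve_left hN0
  have hZ0 : ∀ w : Fin M → ℤ_[p], f w = 0 := by
    intro w
    have h1 : (Multiplicative.ofAdd w) ^ Z.index ∈ Z := Z.pow_index_mem _
    obtain ⟨x, hx⟩ := φ.surjective ⟨_, h1⟩
    have h2 := hH0 x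
    rw [hx] at h2
    have h3 : f (Z.index • w) = 0 := h2
    rw [hfs] at h3
    refine (mul_eq_zero.mp h3).resolve_left ?_
    have := hZ.index_ne_zero
    exact_mod_cast this
  apply hv0
  funext l
  have h1 := hZ0 (Pi.single l 1)
  simp only [f] at h1
  rw [Finset.sum_eq_single l] at h1
  · simpa using h1
  · intro b _ hb
    simp [hb]
  · intro h; exact absurd (Finset.mem_univ _) h

end Pool.Agent.H447.Clo
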