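import Mathlib
import Pool.Agent.H447.Clo.Core
import Pool.Graph.R_seed8.H440R3.Fill

set_option autoImplicit false
set_option linter.unusedSectionVars false

/-!
# The group of rational points belonging to a setup
-/

namespace Pool.Agent.H447.Clo

open Module NumberField

namespace Setup

variable {K N : Type} [Field K] [NumberField K] [Field N] [NumberField N] [IsGalois ℚ N]
  (D : Setup K N) (x : D.I → Nˣ)

/-- The product of conjugates. -/
noncomputable def A (v : Fin D.M → ℤ) : Nˣ := ∏ i, ∏ g : N ≃ₐ[ℚ] N, um g (x i) ^ D.ez v i g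

theorem A_zero : D.A x 0 = 1 := by
  refine Finset.prod_eq_one fun i _ => Finset.prod_eq_one fun g _ => ?_
  rw [ez_zero, zpow_zero]

theorem A_add (v w : Fin D.M → ℤ) : D.A x (v + w) = D.A x v * D.A x w := by
  unfold A
  rw [← Finset.prod_mul_distrib]
  refine Finset.prod_congr rfl fun i _ => ?_
  rw [← Finset.prod_mul_distrib]
  refine Finset.prod_congr rfl fun g _ => ?_
  rw [ez_add, zpow_add]

theorem um_A (h : N ≃ₐ[ℚ] N) (v : Fin D.M → ℤ) :
    um h (D.A x v) = ∏ i, ∏ g : N ≃ₐ[ℚ] N, um g (x i) ^ D.ez v i (h⁻¹ * g) := by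
  unfold A
  rw [map_prod]
  refine Finset.prod_congr rfl fun i _ => ?_
  rw [map_prod, ← Equiv.prod_comp (Equiv.mulLeft h)
    (fun g => um g (x i) ^ D.ez v i (h⁻¹ * g))]
  refine Finset.prod_congr rfl fun g _ => ?_
  show um h (um g (x i) ^ D.ez v i g) = um (h * g) (x i) ^ D.ez v i (h⁻¹ * (h * g))
  rw [map_zpow, um_mul, inv_mul_cancel_left]

theorem um_A_of_H {h : N ≃ₐ[ℚ] N} (hh : ∀ y : K, h (D.ι y) = D.ι y) (v : Fin D.M → ℤ) :
    um h (D.A x v) = D.A x v := by
  rw [um_A]
  unfold A
  refine Finset.prod_congr rfl fun i _ => Finset.prod_congr rfl fun g _ => ?_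
  congr 1
  apply D.ez_H
  intro y
  have h3 := hh y
  have h4 : h⁻¹ (h (D.ι y)) = D.ι y := by
    rw [← AlgEquiv.mul_apply, inv_mul_cancel, AlgEquiv.one_apply]
  rwa [h3] at h4

theorem exists_A (v : Fin D.M → ℤ) :
    ∃ a : Kˣ, Units.map (D.ι : K →* N) a = D.A x v := by
  have h1 : ((D.A x v : Nˣ) : N) ∈ D.ι.fieldRange := by
    rw [← IsGalois.fixedField_fixingSubgroup D.ι.fieldRange,
      IntermediateField.mem_fixedField_iff]
    intro h hh
    have h2 := D.um_A_of_H x (h := h) (fun y => by
      rw [IntermediateField.mem_fixingSubgroup_iff] at hh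
      exact hh (D.ι y) ⟨y, rfl⟩) v
    exact congrArg (fun u : Nˣ => (u : N)) h2
  obtain ⟨a, ha⟩ := h1
  have ha' : D.ι a = ((D.A x v : Nˣ) : N) := ha
  have ha0 : a ≠ 0 := by
    rintro rfl
    rw [map_zero] at ha'
    exact (D.A x v).ne_zero ha'.symm
  refine ⟨Units.mk0 a ha0, ?_⟩
  ext
  exact ha'

theorem map_ι_injective : Function.Injective (Units.map (D.ι : K →* N)) :=
  Units.map_injective D.ι.toRingHom.injective

/-- The element of `Kˣ` belonging to a vector. -/
noncomputable def el (v : Fin D.M → ℤ) : Kˣ := (D.exists_A x v).choose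

theorem el_spec (v : Fin D.M → ℤ) : Units.map (D.ι : K →* N) (D.el x v) = D.A x v :=
  (D.exists_A x v).choose_spec

/-- The homomorphism whose image is the group. -/
noncomputable def Y : Multiplicative (Fin D.M → ℤ) →* Kˣ where
  toFun v := D.el x (Multiplicative.toAdd v)
  map_one' := by
    apply D.map_ι_injective
    rw [el_spec, toAdd_one, A_zero]
    exact (MonoidHom.map_one _).symm
  map_mul' v w := by
    apply D.map_ι_injective
    rw [el_spec, toAdd_mul, A_add, MonoidHom.map_mul, el_spec, el_spec]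

theorem Y_apply (v : Fin D.M → ℤ) : D.Y x (Multiplicative.ofAdd v) = D.el x v := rfl

/-- The group. -/
noncomputable def L : Subgroup Kˣ := (D.Y x).range

theorem L_fg : (D.L x).FG := by
  unfold L
  exact (Group.fg_iff_subgroup_fg _).mp (Group.fg_range (D.Y x))

variable {x} (hx : FreeConj x)

include hx in
theorem A_injective (v : Fin D.M → ℤ) (h : D.A x v = 1) : v = 0 := by
  have h1 := hx (D.ez v) h
  apply D.ez_injective
  intro i g
  exact congrFun (congrFun h1 i) g

include hx in
theorem Y_injective : Function.Injective (D.Y x) := by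
  rw [injective_iff_map_eq_one]
  intro v hv
  have h1 : D.A x (Multiplicative.toAdd v) = 1 := by
    rw [← el_spec]
    show Units.map (D.ι : K →* N) (D.Y x v) = 1
    rw [hv, map_one]
  exact Multiplicative.toAdd.injective (D.A_injective hx _ h1)

/-- `L` is free of rank `M`. -/
noncomputable def eqL : Multiplicative (Fin D.M → ℤ) ≃* D.L x :=
  MonoidHom.ofInjective (D.Y_injective hx)

include hx in
theorem rank_L : Module.finrank ℤ (Additive (D.L x)) = D.M := by
  let e : Additive (D.L x) ≃+ (Fin D.M → ℤ) :=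
    { toFun := fun y => Multiplicative.toAdd ((D.eqL hx).symm y.toMul)
      invFun := fun v => Additive.ofMul (D.eqL hx (Multiplicative.ofAdd v))
      left_inv := fun y => by simp
      right_inv := fun v => by simp
      map_add' := fun y z => by
        rw [toMul_add, map_mul, toAdd_mul] }
  rw [e.toIntLinearEquiv.finrank_eq, Module.finrank_fintype_fun_eq_card, Fintype.card_fin]

include hx in
/-- A subgroup of `L` whose elements have exponent vectors in a subspace. -/
theorem rank_inf_le (B : Subgroup Kˣ) (W : Submodule ℚ (Fin D.M → ℚ))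
    (hB : ∀ v : Fin D.M → ℤ, D.el x v ∈ B → (fun k => (v k : ℚ)) ∈ W) :
    Module.finrank ℤ (Additive ↥(D.L x ⊓ B)) ≤ Module.finrank ℚ W := by
  let g : ↥(D.L x ⊓ B) → (Fin D.M → ℤ) := fun y =>
    Multiplicative.toAdd ((D.eqL hx).symm ⟨y.1, y.2.1⟩)
  have hg : ∀ y, D.Y x (Multiplicative.ofAdd (g y)) = y.1 := by
    intro y
    have h := (D.eqL hx).apply_symm_apply ⟨y.1, y.2.1⟩
    exact congrArg Subtype.val h
  have hgadd : ∀ y z, g (y * z) = g y + g z := by
    intro y z
    have h1 : Multiplicative.ofAdd (g (y * z)) =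
        Multiplicative.ofAdd (g y) * Multiplicative.ofAdd (g z) := by
      apply D.Y_injective hx
      rw [hg, map_mul, hg, hg]; rfl
    exact h1
  let f : Additive ↥(D.L x ⊓ B) →+ W := AddMonoidHom.mk'
    (fun y => ⟨fun i => ((g y.toMul i : ℤ) : ℚ), hB (g y.toMul) (by
      have h1 := hg y.toMul
      rw [Y_apply] at h1
      rw [h1]; exact y.toMul.2.2)⟩) (by
      intro y z
      apply Subtype.ext
      funext i
      show ((g (y + z).toMul i : ℤ) : ℚ) = (g y.toMul i : ℚ) + (g z.toMul i : ℚ)
      rw [toMul_add, hgadd]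
      simp)
  refine Pool.Agent.H440R3.finrank_int_le f ?_
  intro y z hyz
  have h1 : g y.toMul = g z.toMul := by
    funext i
    have := congrFun (congrArg Subtype.val hyz) i
    have h2 : ((g y.toMul i : ℤ) : ℚ) = ((g z.toMul i : ℤ) : ℚ) := this
    exact_mod_cast h2
  have h2 : (y.toMul : ↥(D.L x ⊓ B)).1 = (z.toMul : ↥(D.L x ⊓ B)).1 := by
    rw [← hg, ← hg, h1]
  exact Additive.toMul.injective (Subtype.ext h2)

end Setup

end Pool.Agent.H447.Clo
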