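import Mathlib
import Pool.Graph.R_seed8.H440R3.Levels

set_option autoImplicit false
set_option linter.unusedSectionVars false

/-!
# Congruences modulo powers of `p`
-/

namespace Pool.Agent.H447.Clo

variable {p : ℕ} {R : Type*} [CommRing R]

/-- `(1 + p^W y)^n` modulo `p^(2W)` -/
theorem pow_lin (W : ℕ) (y : R) (n : ℕ) :
    ∃ t : R, (1 + (p : R) ^ W * y) ^ n = 1 + (p : R) ^ W * (n * y) + (p : R) ^ (2 * W) * t := by
  induction n with
  | zero => exact ⟨0, by simp⟩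
  | succ n ih =>
    obtain ⟨t, ht⟩ := ih
    refine ⟨t + (p : R) ^ W * y * t + n * y ^ 2, ?_⟩
    rw [pow_succ, ht]
    push_cast
    ring

/-- a product of `(1 + p^W y)^n` modulo `p^(2W)` -/
theorem prod_lin {α : Type*} (S : Finset α) (W : ℕ) (y : α → R) (n : α → ℕ) :
    ∃ t : R, ∏ a ∈ S, (1 + (p : R) ^ W * y a) ^ n a =
      1 + (p : R) ^ W * (∑ a ∈ S, n a * y a) + (p : R) ^ (2 * W) * t := by
  classical
  induction S using Finset.induction_on with
  | empty => exact ⟨0, by simp⟩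
  | insert a S ha ih =>
    obtain ⟨t, ht⟩ := ih
    obtain ⟨s, hs⟩ := pow_lin (p := p) W (y a) (n a)
    rw [Finset.prod_insert ha, Finset.sum_insert ha, ht, hs]
    refine ⟨(n a * y a) * (∑ a ∈ S, n a * y a) + t + (p : R) ^ W * (n a * y a) * t + s +
      (p : R) ^ W * s * (∑ a ∈ S, n a * y a) + (p : R) ^ (2 * W) * s * t, ?_⟩
    ring

/-- closure of `1 + p^W R` under products -/
theorem one_mod_mul (W : ℕ) {a b : R} (ha : ∃ r, a = 1 + (p : R) ^ W * r)
    (hb : ∃ r, b = 1 + (p : R) ^ W * r) : ∃ r, a * b = 1 + (p : R) ^ W * r := by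
  obtain ⟨r, rfl⟩ := ha
  obtain ⟨s, rfl⟩ := hb
  exact ⟨r + s + (p : R) ^ W * r * s, by ring⟩

theorem one_mod_pow (W : ℕ) {a : R} (ha : ∃ r, a = 1 + (p : R) ^ W * r) (n : ℕ) :
    ∃ r, a ^ n = 1 + (p : R) ^ W * r := by
  induction n with
  | zero => exact ⟨0, by simp⟩
  | succ n ih =>
    rw [pow_succ]
    exact one_mod_mul W ih ha

theorem one_mod_prod {α : Type*} (S : Finset α) (W : ℕ) (a : α → R)
    (ha : ∀ i ∈ S, ∃ r, a i = 1 + (p : R) ^ W * r) : ∃ r, ∏ i ∈ S, a i = 1 + (p : R) ^ W * r := by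
  classical
  induction S using Finset.induction_on with
  | empty => exact ⟨0, by simp⟩
  | insert b S hb ih =>
    rw [Finset.prod_insert hb]
    exact one_mod_mul W (ha b (Finset.mem_insert_self b S))
      (ih fun i hi => ha i (Finset.mem_insert_of_mem hi))

variable [IsDomain R]

/-- extraction of roots -/
theorem root_lev (hp : (p : R) ≠ 0) {C r s : R} {J ω : ℕ} (hω : 2 ≤ ω)
    (hC : C = 1 + (p : R) ^ 2 * r) (h : C ^ (p ^ J) = 1 + (p : R) ^ (ω + J) * s) :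
    ∃ r', C = 1 + (p : R) ^ ω * r' := by
  -- induction on the level
  have key : ∀ k, 2 ≤ k → k ≤ ω → ∃ r', C = 1 + (p : R) ^ k * r' := by
    intro k hk
    induction k, hk using Nat.le_induction with
    | base => intro _; exact ⟨r, hC⟩
    | succ k hk ih =>
      intro hk'
      obtain ⟨r', hr'⟩ := ih (by omega)
      obtain ⟨r'', t, h1, h2⟩ := Pool.Agent.H440R3.pow_pp_lev (p := p) hk r' J
      rw [← hr', h] at h1
      have h3 : (p : R) ^ (k + J) * ((p : R) ^ (ω - k) * s) = (p : R) ^ (k + J) * r'' := by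
        have h4 : (p : R) ^ (ω + J) = (p : R) ^ (k + J) * (p : R) ^ (ω - k) := by
          rw [← pow_add]; congr 1; omega
        rw [h4] at h1
        linear_combination h1
      have h5 := mul_left_cancel₀ (pow_ne_zero _ hp) h3
      obtain ⟨m, hm⟩ : ∃ m, ω - k = m + 1 := ⟨ω - k - 1, by omega⟩
      refine ⟨(p : R) ^ m * s - t, ?_⟩
      have h6 : r' = (p : R) * ((p : R) ^ m * s - t) := by
        rw [hm, h2] at h5
        linear_combination -h5
      rw [hr', pow_succ]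
      nth_rewrite 1 [h6]
      ring
  exact key ω hω le_rfl

/-- If the `p^J`-th powers of `P` and `Q` are congruent modulo `p^(2J+4)` then `P` and `Q` are
congruent modulo `p^(J+4)`. -/
theorem congr_of_pow (hp : (p : R) ≠ 0) {P Q : R} (J : ℕ) (hP : ∃ r, P = 1 + (p : R) ^ 2 * r)
    (hQ : ∃ r, Q = 1 + (p : R) ^ 2 * r)
    (h : ∃ t, P ^ (p ^ J) = Q ^ (p ^ J) + (p : R) ^ (2 * J + 4) * t) :
    ∃ t, P = Q + (p : R) ^ (J + 4) * t := by
  obtain ⟨t, ht⟩ := h
  by_cases hp0 : p = 0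
  · exact absurd (by rw [hp0]; simp) hp
  have hpos : 0 < p ^ (2 * J + 4) := pow_pos (Nat.pos_of_ne_zero hp0) _
  obtain ⟨n, hn⟩ : ∃ n, p ^ (2 * J + 4) = n + 1 := ⟨p ^ (2 * J + 4) - 1, by omega⟩
  -- `C = P Q^n`
  obtain ⟨rC, hC⟩ := one_mod_mul 2 hP (one_mod_pow 2 hQ n)
  obtain ⟨q, hq⟩ := hQ
  obtain ⟨q1, t1, hq1, -⟩ := Pool.Agent.H440R3.pow_pp_lev (p := p) (le_refl 2) q (2 * J + 4)
  rw [← hq] at hq1
  obtain ⟨q2, t2, hq2, -⟩ := Pool.Agent.H440R3.pow_pp_lev (p := p) (le_refl 2) q (J + (2 * J + 4))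
  rw [← hq] at hq2
  have hpow : (P * Q ^ n) ^ (p ^ J) = 1 + (p : R) ^ ((J + 4) + J) *
      ((p : R) ^ (J + 2) * q2 + t * Q ^ (n * p ^ J)) := by
    have h1 : Q ^ (p ^ J) * Q ^ (n * p ^ J) = Q ^ (p ^ (J + (2 * J + 4))) := by
      rw [← pow_add]
      congr 1
      rw [pow_add p J, hn]
      ring
    have e1 : (P * Q ^ n) ^ (p ^ J) = P ^ (p ^ J) * Q ^ (n * p ^ J) := by
      rw [mul_pow, ← pow_mul]
    rw [e1, ht, add_mul, h1, hq2]
    have e2 : 2 + (J + (2 * J + 4)) = (J + 4 + J) + (J + 2) := by ring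
    have e3 : 2 * J + 4 = J + 4 + J := by ring
    rw [e2, e3, pow_add]
    ring
  obtain ⟨r', hr'⟩ := root_lev hp (show 2 ≤ J + 4 by omega) hC hpow
  have h2 : P * Q ^ (p ^ (2 * J + 4)) = Q * (1 + (p : R) ^ (J + 4) * r') := by
    rw [hn, pow_succ, ← hr']
    ring
  refine ⟨Q * r' - (p : R) ^ (J + 2) * q1 * P, ?_⟩
  rw [hq1] at h2
  have e4 : 2 + (2 * J + 4) = (J + 4) + (J + 2) := by ring
  rw [e4, pow_add] at h2
  linear_combination h2

end Pool.Agent.H447.Clo
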