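import Mathlib
import Pool.Agent.H447.Clo.Group
import Pool.Agent.H447.Clo.Emb
import Pool.Graph.R_seed8.H440R3.Defs
import Pool.Graph.R_seed8.H440R3.Fill

set_option autoImplicit false
set_option linter.unusedSectionVars false

/-!
# The rank condition of the `p`-adic part
-/

namespace Pool.Agent.H447.Clo

open Module NumberField Pool.Agent.H440R3

theorem prod_zpow_sum' {α G : Type} [CommGroup G] (s : Finset α) (u : G) (f : α → ℤ) :
    ∏ x ∈ s, u ^ f x = u ^ ∑ x ∈ s, f x := by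
  classical
  induction s using Finset.induction_on with
  | empty => simp
  | insert a s ha ih => rw [Finset.prod_insert ha, Finset.sum_insert ha, zpow_add, ih]

namespace Setup

variable {K N : Type} [Field K] [NumberField K] [Field N] [NumberField N] [IsGalois ℚ N]
  (D : Setup K N) {x : D.I → Nˣ} (hx : FreeConj x)

/-- a product of conjugates of `A v` -/
theorem prod_um_A {α : Type} [Fintype α] (γ : α → (N ≃ₐ[ℚ] N)) (χ : α → ℤ)
    (v : Fin D.M → ℤ) :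
    ∏ a, um (γ a) (D.A x v) ^ χ a =
      ∏ i, ∏ g : N ≃ₐ[ℚ] N, um g (x i) ^ (∑ a, χ a * D.ez v i ((γ a)⁻¹ * g)) := by
  have h1 : ∀ a, um (γ a) (D.A x v) ^ χ a =
      ∏ i, ∏ g : N ≃ₐ[ℚ] N, um g (x i) ^ (χ a * D.ez v i ((γ a)⁻¹ * g)) := by
    intro a
    rw [um_A, ← Finset.prod_zpow]
    refine Finset.prod_congr rfl fun i _ => ?_
    rw [← Finset.prod_zpow]
    refine Finset.prod_congr rfl fun g _ => ?_
    rw [← zpow_mul, mul_comm]
  simp only [h1]
  rw [Finset.prod_comm]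
  refine Finset.prod_congr rfl fun i _ => ?_
  rw [Finset.prod_comm]
  refine Finset.prod_congr rfl fun g _ => ?_
  exact prod_zpow_sum' _ _ _

section

variable (p : ℕ) [Fact p.Prime]

/-- A fixed embedding of `N`. -/
noncomputable def τ₀ (N : Type) [Field N] [NumberField N] (p : ℕ) [Fact p.Prime] :
    N →ₐ[ℚ] AlgebraicClosure ℚ_[p] := IsAlgClosed.lift

/-- For each embedding of `K` an element of the Galois group. -/
noncomputable def gs (σ : Emb p K) : N ≃ₐ[ℚ] N := (exists_gal (τ₀ N p) D.ι σ).choose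

theorem gs_spec (σ : Emb p K) (y : K) : σ y = τ₀ N p (D.gs p σ (D.ι y)) :=
  (exists_gal (τ₀ N p) D.ι σ).choose_spec y

theorem gs_surj (g : N ≃ₐ[ℚ] N) : ∃ σ : Emb p K, ∀ y : K, ((D.gs p σ)⁻¹ * g) (D.ι y) = D.ι y := by
  refine ⟨((τ₀ N p).comp (g : N →ₐ[ℚ] N)).comp D.ι, fun y => ?_⟩
  have h1 := D.gs_spec p (((τ₀ N p).comp (g : N →ₐ[ℚ] N)).comp D.ι) y
  have h2 : g (D.ι y) = D.gs p (((τ₀ N p).comp (g : N →ₐ[ℚ] N)).comp D.ι) (D.ι y) :=
    (τ₀ N p).toRingHom.injective h1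
  rw [AlgEquiv.mul_apply, h2, ← AlgEquiv.mul_apply, inv_mul_cancel, AlgEquiv.one_apply]

theorem charValue_el (χ : Emb p K → ℤ) (v : Fin D.M → ℤ) :
    charValue p K χ (D.el x v) =
      Units.map (τ₀ N p : N →* AlgebraicClosure ℚ_[p])
        (∏ i, ∏ g : N ≃ₐ[ℚ] N, um g (x i) ^ (∑ σ, χ σ * D.ez v i ((D.gs p σ)⁻¹ * g))) := by
  rw [← prod_um_A]
  unfold charValue
  rw [map_prod]
  refine Finset.prod_congr rfl fun σ _ => ?_
  rw [map_zpow]
  congr 1
  ext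
  show σ ((D.el x v : Kˣ) : K) = τ₀ N p (D.gs p σ ((D.A x v : Nˣ) : N))
  rw [D.gs_spec p σ, ← D.el_spec x v]
  rfl

/-- The rational function on the group belonging to a character. -/
noncomputable def yc (χ : Emb p K → ℤ) : (N ≃ₐ[ℚ] N) → ℚ := by
  classical
  exact fun g => ∑ σ with D.gs p σ = g, (χ σ : ℚ)

theorem sum_yc (χ : Emb p K → ℤ) (f : (N ≃ₐ[ℚ] N) → ℚ) :
    ∑ g, D.yc p χ g * f g = ∑ σ, (χ σ : ℚ) * f (D.gs p σ) := by
  classical
  rw [← Finset.sum_fiberwise (s := (Finset.univ : Finset (Emb p K))) (g := fun σ => D.gs p σ)]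
  refine Finset.sum_congr rfl fun g _ => ?_
  unfold yc
  rw [Finset.sum_mul]
  refine Finset.sum_congr rfl fun σ hσ => ?_
  rw [(Finset.mem_filter.mp hσ).2]

include hx in
theorem mem_KY (hc : D.c = 1) (Ψ : AddSubgroup (Emb p K → ℤ)) (v : Fin D.M → ℤ)
    (h : D.el x v ∈ ratPoints p K Ψ) :
    (fun k => (v k : ℚ)) ∈ D.KY {y | ∃ χ ∈ Ψ, y = D.yc p χ} := by
  rintro _ ⟨χ, hχ, rfl⟩ i g
  have h1 : charValue p K χ (D.el x v) = 1 := h χ hχ
  rw [charValue_el] at h1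
  have h2 : Function.Injective (Units.map (τ₀ N p : N →* AlgebraicClosure ℚ_[p])) :=
    Units.map_injective (τ₀ N p).toRingHom.injective
  have h3 := h2 (h1.trans (map_one _).symm)
  have h4 : ∑ σ, χ σ * D.ez v i ((D.gs p σ)⁻¹ * g) = 0 :=
    congrFun (congrFun (hx (fun i g => ∑ σ, χ σ * D.ez v i ((D.gs p σ)⁻¹ * g)) h3) i) g
  rw [hc, one_mul]
  rw [D.sum_yc p χ (fun h => D.e (fun k => (v k : ℚ)) i (h⁻¹ * g) +
    D.e (fun k => (v k : ℚ)) i (h⁻¹ * g))]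
  have h5 : ∀ σ : Emb p K, (χ σ : ℚ) * (D.e (fun k => (v k : ℚ)) i ((D.gs p σ)⁻¹ * g) +
      D.e (fun k => (v k : ℚ)) i ((D.gs p σ)⁻¹ * g)) =
      2 * (((χ σ * D.ez v i ((D.gs p σ)⁻¹ * g) : ℤ)) : ℚ) := by
    intro σ
    rw [e_cast]
    push_cast
    ring
  simp only [h5]
  rw [← Finset.mul_sum, ← Int.cast_sum, h4, Int.cast_zero, mul_zero]

/-- The `ℚ`-span of the characters. -/
def PQ (Ψ : AddSubgroup (Emb p K → ℤ)) : Submodule ℚ (Emb p K → ℚ) :=
  Submodule.span ℚ ((fun (χ : Emb p K → ℤ) τ => (χ τ : ℚ)) '' (Ψ : Set (Emb p K → ℤ)))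

theorem finrank_Psi_le (Ψ : AddSubgroup (Emb p K → ℤ)) :
    Module.finrank ℤ Ψ ≤ Module.finrank ℚ (PQ p Ψ) := by
  let f : Ψ →+ PQ p Ψ := AddMonoidHom.mk'
    (fun χ => ⟨fun τ => ((χ : Emb p K → ℤ) τ : ℚ),
      Submodule.subset_span ⟨(χ : Emb p K → ℤ), χ.2, rfl⟩⟩) (by
      intro χ χ'
      apply Subtype.ext
      funext τ
      show (((χ + χ' : Ψ) : Emb p K → ℤ) τ : ℚ) =
        ((χ : Emb p K → ℤ) τ : ℚ) + ((χ' : Emb p K → ℤ) τ : ℚ)
      simp)
  refine finrank_int_le f ?_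
  intro χ χ' h
  apply Subtype.ext
  funext τ
  have := congrFun (congrArg Subtype.val h) τ
  have h2 : (((χ : Emb p K → ℤ) τ : ℤ) : ℚ) = (((χ' : Emb p K → ℤ) τ : ℤ) : ℚ) := this
  exact_mod_cast h2

theorem UY_le (Ψ : AddSubgroup (Emb p K → ℤ)) :
    Module.finrank ℚ (D.UY {y | ∃ χ ∈ Ψ, y = D.yc p χ}) + Module.finrank ℤ Ψ ≤
      Module.finrank ℚ K := by
  let f : D.UY {y | ∃ χ ∈ Ψ, y = D.yc p χ} →ₗ[ℚ] (Emb p K → ℚ) :=
    { toFun := fun u σ => u.1 (D.gs p σ)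
      map_add' := fun a b => rfl
      map_smul' := fun r a => rfl }
  have hf : Function.Injective f := by
    rw [← LinearMap.ker_eq_bot, LinearMap.ker_eq_bot']
    intro u hu
    apply Subtype.ext
    funext g
    obtain ⟨σ, hσ⟩ := D.gs_surj p g
    have h1 := u.2.2.1 (D.gs p σ) ((D.gs p σ)⁻¹ * g) hσ
    rw [mul_inv_cancel_left] at h1
    rw [h1]
    exact congrFun hu σ
  have horth : ∀ u ∈ PQ p Ψ, ∀ w ∈ LinearMap.range f, ∑ σ, u σ * w σ = 0 := by
    intro u hu w hw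
    obtain ⟨w, rfl⟩ := hw
    induction hu using Submodule.span_induction with
    | mem y hy =>
      obtain ⟨χ, hχ, rfl⟩ := hy
      have h1 := w.2.2.2 (D.yc p χ) ⟨χ, hχ, rfl⟩
      rw [D.sum_yc p χ] at h1
      exact h1
    | zero => simp
    | add a b _ _ ha hb =>
      simp only [Pi.add_apply, add_mul, Finset.sum_add_distrib, ha, hb, add_zero]
    | smul r a _ ha =>
      simp only [Pi.smul_apply, smul_eq_mul, mul_assoc, ← Finset.mul_sum, ha, mul_zero]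
  have hdisj : Disjoint (PQ p Ψ) (LinearMap.range f) := by
    rw [Submodule.disjoint_def]
    intro u hu hw
    have h := horth u hu u hw
    have h2 : ∀ τ ∈ Finset.univ, u τ * u τ = 0 :=
      (Finset.sum_eq_zero_iff_of_nonneg (fun τ _ => mul_self_nonneg (u τ))).mp h
    funext τ
    exact mul_self_eq_zero.mp (h2 τ (Finset.mem_univ _))
  have h1 := Submodule.finrank_add_finrank_le_of_disjoint hdisj
  rw [LinearMap.finrank_range_of_inj hf, Module.finrank_fintype_fun_eq_card] at h1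
  have h2 : Fintype.card (Emb p K) = Module.finrank ℚ K := AlgHom.card ℚ K _
  rw [h2] at h1
  have h3 := finrank_Psi_le p Ψ
  omega

include hx in
theorem rank_condition (hc : D.c = 1) (hS : D.Semi) (Ψ : AddSubgroup (Emb p K → ℤ)) :
    rk ↥(D.L x ⊓ ratPoints p K Ψ) + Module.finrank ℤ Ψ ≤ Module.finrank ℚ K := by
  have h1 := D.rank_inf_le hx (ratPoints p K Ψ) (D.KY {y | ∃ χ ∈ Ψ, y = D.yc p χ})
    (fun v hv => D.mem_KY hx p hc Ψ v hv)
  have h2 := hS {y | ∃ χ ∈ Ψ, y = D.yc p χ}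
  have h3 := D.UY_le p Ψ
  unfold rk
  omega

end

end Setup

end Pool.Agent.H447.Clo
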