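import Mathlib
import Pool.Agent.H447.Clo.RankP
import Pool.Agent.H447.Clo.Lev
import Pool.Agent.H447.Clo.Comm
import Pool.Graph.R_seed8.H440R3.Topo
import Pool.Graph.R_seed8.H440R3.Seq

set_option autoImplicit false
set_option linter.unusedSectionVars false

/-!
# The `p`-adic part fails
-/

namespace Pool.Agent.H447.Clo

open Module NumberField Pool.Agent.H440R3 Filter Topology

theorem exists_primitive {M : ℕ} (v : Fin M → ℚ) (hv : v ≠ 0) (p : ℕ) (hp : p.Prime) :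
    ∃ (w : Fin M → ℤ) (r : ℚ), (∃ k, ¬ (p : ℤ) ∣ w k) ∧ ∀ k, (w k : ℚ) = r * v k := by
  classical
  obtain ⟨d, hd, F, hF⟩ := exists_common_denom v
  have hne : (Finset.univ : Finset (Fin M)).Nonempty := by
    by_contra h
    rw [Finset.not_nonempty_iff_eq_empty, Finset.univ_eq_empty_iff] at h
    exact hv (funext fun k => h.elim k)
  obtain ⟨w, hw, hgcd⟩ := Finset.extract_gcd F hne
  set g := Finset.univ.gcd F with hg
  have hg0 : g ≠ 0 := by
    intro h0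
    apply hv
    funext k
    have h1 := hw k (Finset.mem_univ k)
    rw [h0, zero_mul] at h1
    have h2 := hF k
    rw [h1, Int.cast_zero] at h2
    have h3 := (mul_eq_zero.mp h2.symm).resolve_left (by exact_mod_cast hd)
    exact h3
  refine ⟨w, d / g, ?_, ?_⟩
  · by_contra hcon
    push Not at hcon
    have h1 : (p : ℤ) ∣ Finset.univ.gcd w := Finset.dvd_gcd fun k _ => hcon k
    rw [hgcd] at h1
    exact (Nat.prime_iff_prime_int.mp hp).not_isUnit (isUnit_of_dvd_one h1)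
  · intro k
    have h1 := hw k (Finset.mem_univ k)
    have h2 := hF k
    rw [h1] at h2
    push_cast at h2
    have hg' : (g : ℚ) ≠ 0 := by exact_mod_cast hg0
    field_simp
    linarith

namespace Setup

variable {K N : Type} [Field K] [NumberField K] [Field N] [NumberField N] [IsGalois ℚ N]
  (D : Setup K N)

/-- A primitive integral relation for any elements `z i` of `N`. -/
theorem exists_vec (hc : D.c = 1) (hS : D.Sing) (p : ℕ) (hp : p.Prime) (z : D.I → N) :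
    ∃ v : Fin D.M → ℤ, (∃ k, ¬ (p : ℤ) ∣ v k) ∧
      ∑ i, ∑ g : N ≃ₐ[ℚ] N, ((D.ez v i g : ℤ) : N) * g (z i) = 0 := by
  classical
  let b := IsGalois.normalBasis ℚ N
  obtain ⟨v, hv, hrel⟩ := hS (fun i g => b.repr (z i) g⁻¹) (by
    intro i g
    rw [hc, one_mul])
  obtain ⟨w, r, hw, hwr⟩ := exists_primitive v hv p hp
  refine ⟨w, hw, ?_⟩
  have hb : ∀ g : N ≃ₐ[ℚ] N, b g = g (b 1) := fun g => IsGalois.normalBasis_apply g
  -- expand
  have h1 : ∀ i (g : N ≃ₐ[ℚ] N), g (z i) = ∑ k : N ≃ₐ[ℚ] N, b.repr (z i) (g⁻¹ * k) • b k := by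
    intro i g
    conv_lhs => rw [← b.sum_repr (z i)]
    rw [map_sum, ← Equiv.sum_comp (Equiv.mulLeft g)
      (fun k => b.repr (z i) (g⁻¹ * k) • b k)]
    refine Finset.sum_congr rfl fun k _ => ?_
    show g (b.repr (z i) k • b k) = b.repr (z i) (g⁻¹ * (g * k)) • b (g * k)
    rw [inv_mul_cancel_left, hb (g * k), AlgEquiv.mul_apply, ← hb k, Algebra.smul_def,
      Algebra.smul_def, map_mul, AlgEquiv.commutes]
  have h2 : ∀ i (g : N ≃ₐ[ℚ] N), ((D.ez w i g : ℤ) : N) * g (z i) =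
      ∑ k : N ≃ₐ[ℚ] N, (r * (D.e v i g * b.repr (z i) (g⁻¹ * k))) • b k := by
    intro i g
    have h3 : ((D.ez w i g : ℤ) : ℚ) = r * D.e v i g := by
      unfold ez e
      push_cast
      rw [Finset.mul_sum]
      refine Finset.sum_congr rfl fun k _ => ?_
      rw [hwr k]
      ring
    have h4 : ((D.ez w i g : ℤ) : N) = algebraMap ℚ N (r * D.e v i g) := by
      rw [← h3]; simp
    rw [h4, h1 i g, ← Algebra.smul_def, Finset.smul_sum]
    refine Finset.sum_congr rfl fun k _ => ?_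
    rw [smul_smul]
    congr 1
    ring
  simp only [h2]
  have h5 : ∀ i : D.I, ∑ g : N ≃ₐ[ℚ] N, ∑ k : N ≃ₐ[ℚ] N,
      (r * (D.e v i g * b.repr (z i) (g⁻¹ * k))) • b k =
      ∑ k : N ≃ₐ[ℚ] N, (r * ∑ g, (D.e v i g * b.repr (z i) (g⁻¹ * k))) • b k := by
    intro i
    rw [Finset.sum_comm]
    refine Finset.sum_congr rfl fun k _ => ?_
    rw [← Finset.sum_smul, Finset.mul_sum]
  simp only [h5]
  rw [Finset.sum_comm]
  refine Finset.sum_eq_zero fun k _ => ?_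
  rw [← Finset.sum_smul, ← Finset.mul_sum]
  have h6 : ∑ i, ∑ g : N ≃ₐ[ℚ] N, (D.e v i g * b.repr (z i) (g⁻¹ * k)) = 0 := by
    rw [← hrel k⁻¹]
    refine Finset.sum_congr rfl fun i _ => Finset.sum_congr rfl fun g _ => ?_
    have : (k⁻¹ * g)⁻¹ = g⁻¹ * k := by group
    rw [this]
  rw [h6, mul_zero, zero_smul]

section lev

variable (β : D.I → 𝓞 N)

variable {x : D.I → Nˣ}

/-- numerator -/
noncomputable def PP (π : D.I → 𝓞 N) (v : Fin D.M → ℤ) : 𝓞 N :=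
  ∏ a : D.I × (N ≃ₐ[ℚ] N), (act a.2 (π a.1)) ^ (D.ez v a.1 a.2).toNat

/-- denominator -/
noncomputable def QQ (π : D.I → 𝓞 N) (v : Fin D.M → ℤ) : 𝓞 N :=
  ∏ a : D.I × (N ≃ₐ[ℚ] N), (act a.2 (π a.1)) ^ (-(D.ez v a.1 a.2)).toNat

theorem zpow_split {G : Type*} [Group G] (u : G) (n : ℤ) :
    u ^ n * u ^ (-n).toNat = u ^ n.toNat := by
  rw [← zpow_natCast, ← zpow_natCast, ← zpow_add]
  congr 1
  omega

theorem A_mul_QQ (π : D.I → 𝓞 N) (hπ : ∀ i, ((x i : Nˣ) : N) = (π i : N)) (v : Fin D.M → ℤ) :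
    ((D.A x v : Nˣ) : N) * ((D.QQ π v : 𝓞 N) : N) = ((D.PP π v : 𝓞 N) : N) := by
  have h1 : ∀ n : D.I → (N ≃ₐ[ℚ] N) → ℕ, ((∏ a : D.I × (N ≃ₐ[ℚ] N),
      (act a.2 (π a.1)) ^ (n a.1 a.2) : 𝓞 N) : N) =
      ((∏ i, ∏ g : N ≃ₐ[ℚ] N, um g (x i) ^ (n i g) : Nˣ) : N) := by
    intro n
    show algebraMap (𝓞 N) N _ = _
    rw [map_prod, Fintype.prod_prod_type, Units.coe_prod]
    refine Finset.prod_congr rfl fun i _ => ?_
    rw [Units.coe_prod]
    refine Finset.prod_congr rfl fun g _ => ?_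
    rw [map_pow, Units.val_pow_eq_pow_val, coe_um, hπ i]
    rfl
  unfold PP QQ
  rw [h1 (fun i g => (-(D.ez v i g)).toNat), h1 (fun i g => (D.ez v i g).toNat), ← Units.val_mul]
  congr 1
  unfold A
  rw [← Finset.prod_mul_distrib]
  refine Finset.prod_congr rfl fun i _ => ?_
  rw [← Finset.prod_mul_distrib]
  refine Finset.prod_congr rfl fun g _ => ?_
  exact zpow_split _ _

theorem one_mod_PP (p : ℕ) (π : D.I → 𝓞 N) (hπ : ∀ i, ∃ r, π i = 1 + (p : 𝓞 N) ^ 2 * r)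
    (n : D.I × (N ≃ₐ[ℚ] N) → ℕ) :
    ∃ r, ∏ a : D.I × (N ≃ₐ[ℚ] N), (act a.2 (π a.1)) ^ (n a) = 1 + (p : 𝓞 N) ^ 2 * r := by
  refine one_mod_prod _ _ _ fun a _ => ?_
  apply one_mod_pow
  obtain ⟨r, hr⟩ := hπ a.1
  exact ⟨act a.2 r, by rw [hr, map_add, map_mul, map_pow, map_one, map_natCast]⟩

/-- The main congruence. -/
theorem PP_congr (p : ℕ) [hp : Fact p.Prime] (π : D.I → 𝓞 N)
    (hπ : ∀ i, ∃ r, π i = 1 + (p : 𝓞 N) ^ 2 * r) (J : ℕ) (z : D.I → 𝓞 N)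
    (hz : ∀ i, (π i) ^ (p ^ J) = 1 + (p : 𝓞 N) ^ (J + 2) * z i) (v : Fin D.M → ℤ)
    (hv : ∑ i, ∑ g : N ≃ₐ[ℚ] N, ((D.ez v i g : ℤ) : N) * g ((z i : 𝓞 N) : N) = 0) :
    ∃ t, D.PP π v = D.QQ π v + (p : 𝓞 N) ^ (J + 4) * t := by
  have hp0 : (p : 𝓞 N) ≠ 0 := by exact_mod_cast hp.out.ne_zero
  apply congr_of_pow hp0 J (D.one_mod_PP p π hπ _) (D.one_mod_PP p π hπ _)
  have h1 : ∀ n : D.I × (N ≃ₐ[ℚ] N) → ℕ, (∏ a : D.I × (N ≃ₐ[ℚ] N),
      (act a.2 (π a.1)) ^ (n a)) ^ (p ^ J) =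
      ∏ a : D.I × (N ≃ₐ[ℚ] N), (1 + (p : 𝓞 N) ^ (J + 2) * act a.2 (z a.1)) ^ (n a) := by
    intro n
    rw [← Finset.prod_pow]
    refine Finset.prod_congr rfl fun a _ => ?_
    rw [← pow_mul, mul_comm (n a), pow_mul, ← map_pow, hz, map_add, map_mul, map_pow, map_one,
      map_natCast]
  obtain ⟨t₁, ht₁⟩ := prod_lin (p := p) (Finset.univ : Finset (D.I × (N ≃ₐ[ℚ] N))) (J + 2)
    (fun a => act a.2 (z a.1)) (fun a => (D.ez v a.1 a.2).toNat)
  obtain ⟨t₂, ht₂⟩ := prod_lin (p := p) (Finset.univ : Finset (D.I × (N ≃ₐ[ℚ] N))) (J + 2)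
    (fun a => act a.2 (z a.1)) (fun a => (-(D.ez v a.1 a.2)).toNat)
  have hsum : ∑ a : D.I × (N ≃ₐ[ℚ] N), ((D.ez v a.1 a.2).toNat : 𝓞 N) * act a.2 (z a.1) =
      ∑ a : D.I × (N ≃ₐ[ℚ] N), ((-(D.ez v a.1 a.2)).toNat : 𝓞 N) * act a.2 (z a.1) := by
    rw [← sub_eq_zero, ← Finset.sum_sub_distrib]
    apply RingOfIntegers.coe_injective
    show algebraMap (𝓞 N) N _ = algebraMap (𝓞 N) N _
    rw [map_sum, map_zero, Fintype.sum_prod_type, ← hv]
    refine Finset.sum_congr rfl fun i _ => Finset.sum_congr rfl fun g _ => ?_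
    rw [← sub_mul, map_mul, map_sub, map_natCast, map_natCast]
    congr 1
    have h2 : (((D.ez v i g).toNat : ℤ) - ((-(D.ez v i g)).toNat : ℤ)) = D.ez v i g := by omega
    have h3 := congrArg (fun n : ℤ => (n : N)) h2
    simp only [Int.cast_sub, Int.cast_natCast] at h3
    exact h3
  refine ⟨t₁ - t₂, ?_⟩
  rw [h1, h1, ht₁, ht₂, hsum]
  have e1 : 2 * (J + 2) = 2 * J + 4 := by ring
  rw [e1]
  ring

end lev

end Setup

section final

variable {K N : Type} [Field K] [NumberField K] [Field N] [NumberField N] [IsGalois ℚ N]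

/-- elements of `K` close to `1` -/
theorem mem_SS_of (p : ℕ) [hp : Fact p.Prime] (ι : K →ₐ[ℚ] N) (a : Kˣ) (P Q : 𝓞 N) (J : ℕ)
    (h : ι (a : K) * (Q : N) = (P : N)) (hQ : ∃ r, Q = 1 + (p : 𝓞 N) ^ 2 * r)
    (hPQ : ∃ t, P = Q + (p : 𝓞 N) ^ J * t) :
    ∃ y ∈ SS p K, ((incl p K a : QpPoints p K) : Kp p K) = 1 + (p : Kp p K) ^ J * y := by
  obtain ⟨r, hr⟩ := hQ
  obtain ⟨t, ht⟩ := hPQ
  set ν : ℤ := Algebra.norm ℤ Q with hν
  -- `ν ≡ 1`
  obtain ⟨s, hs⟩ : ∃ s, ((ν : ℤ) : 𝓞 N) = 1 + (p : 𝓞 N) ^ 2 * s := by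
    rw [hν, coe_norm_prod]
    refine one_mod_prod _ _ _ fun g _ => ?_
    exact ⟨act g r, by rw [hr, map_add, map_mul, map_pow, map_one, map_natCast]⟩
  have hpν : ¬ (p : ℤ) ∣ ν := by
    rintro ⟨m, hm⟩
    have h1 : (p : 𝓞 N) * ((m : 𝓞 N) - (p : 𝓞 N) * s) = 1 := by
      have h2 := congrArg (fun n : ℤ => (n : 𝓞 N)) hm
      simp only [Int.cast_mul, Int.cast_natCast] at h2
      rw [hs] at h2
      linear_combination -h2
    have h2 : IsUnit (p : 𝓞 N) := IsUnit.of_mul_eq_one _ h1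
    have h3 : IsUnit ((p : ℤ) : 𝓞 N) := by exact_mod_cast h2
    rw [NumberField.isUnit_iff_norm, RingOfIntegers.coe_norm] at h3
    have h4 : Algebra.norm ℚ ((((p : ℤ) : 𝓞 N)) : N) = (p : ℚ) ^ (finrank ℚ N) := by
      have h5 : ((((p : ℤ) : 𝓞 N)) : N) = algebraMap ℚ N (p : ℚ) := by simp
      rw [h5, Algebra.norm_algebraMap]
    rw [h4, abs_pow, Nat.abs_cast] at h3
    have h6 : (1 : ℚ) < (p : ℚ) ^ (finrank ℚ N) :=
      one_lt_pow₀ (by exact_mod_cast hp.out.one_lt) (finrank_pos).ne'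
    exact absurd h3 h6.ne'
  have hν0 : ν ≠ 0 := by
    intro h0
    apply hpν
    rw [h0]
    exact dvd_zero _
  -- the cofactor
  obtain ⟨Q', hQ'⟩ : Q ∣ ((ν : ℤ) : 𝓞 N) := by
    have := act_dvd_norm (1 : N ≃ₐ[ℚ] N) Q
    rwa [act_one] at this
  -- the integral element of `K`
  set y : K := ((ν : ℤ) : K) * ((a : K) - 1) / (p : K) ^ J with hy
  have hpK : ((p : K)) ≠ 0 := by exact_mod_cast hp.out.ne_zero
  have hpN : ((p : N)) ≠ 0 := by exact_mod_cast hp.out.ne_zero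
  have hιy : ι y = ((t * Q' : 𝓞 N) : N) := by
    show ι y = algebraMap (𝓞 N) N (t * Q')
    rw [hy, map_div₀, map_mul, map_intCast, map_sub, map_one, map_pow, map_natCast,
      map_mul (algebraMap (𝓞 N) N)]
    have h1 : ((ν : ℤ) : N) = (Q : N) * (Q' : N) := by
      have := congrArg (algebraMap (𝓞 N) N) hQ'
      rw [map_intCast, map_mul] at this
      exact this
    have h2 : (P : N) = (Q : N) + (p : N) ^ J * (t : N) := by
      have := congrArg (algebraMap (𝓞 N) N) ht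
      rw [map_add, map_mul, map_pow, map_natCast] at this
      exact this
    rw [div_eq_iff (pow_ne_zero _ hpN), h1]
    rw [h2] at h
    linear_combination (Q' : N) * h
  have hyint : IsIntegral ℤ y := by
    have h1 : IsIntegral ℤ (ι y) := by
      rw [hιy]
      exact RingOfIntegers.isIntegral_coe _
    exact (isIntegral_algHom_iff (ι.restrictScalars ℤ) ι.toRingHom.injective).mp h1
  -- the unit `ν` of `ℤ_p`
  have hu : IsUnit ((ν : ℤ) : ℤ_[p]) := by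
    rw [PadicInt.isUnit_iff]
    by_contra hcon
    have h2 : ‖((ν : ℤ) : ℤ_[p])‖ < 1 := lt_of_le_of_ne (PadicInt.norm_le_one _) hcon
    rw [PadicInt.norm_int_lt_one_iff_dvd] at h2
    exact hpν h2
  obtain ⟨u, hu⟩ := hu
  refine ⟨fZ p K ((u⁻¹ : ℤ_[p]ˣ) : ℤ_[p]) * gK p K y, ?_, ?_⟩
  · exact (SS p K).mul_mem (fZ_mem p K _) (gK_mem p K ⟨y, hyint⟩)
  · show gK p K (a : K) = _
    have h1 : ((ν : ℤ) : K) * ((a : K) - 1) = (p : K) ^ J * y := by
      rw [hy]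
      field_simp
    have h2 := congrArg (gK p K) h1
    rw [map_mul, map_mul, map_sub, map_one, map_intCast, map_pow, map_natCast] at h2
    have h3 : fZ p K ((u⁻¹ : ℤ_[p]ˣ) : ℤ_[p]) * ((ν : ℤ) : Kp p K) = 1 := by
      have h4 := congrArg (fZ p K) (u.inv_mul)
      rw [map_mul, map_one, hu, map_intCast] at h4
      exact h4
    linear_combination (fZ p K ((u⁻¹ : ℤ_[p]ˣ) : ℤ_[p])) * h2 - (gK p K (a : K) - 1) * h3

/-- The `p`-adic part of the expected answer fails. -/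
theorem not_padicPart (p : ℕ) [hp : Fact p.Prime] (D : Setup K N) (hc : D.c = 1) (hS : D.Semi)
    (hS' : D.Sing) : ¬ PadicPart p K := by
  classical
  intro h
  -- the independent numbers
  obtain ⟨x, β, hβ, hx⟩ := exists_free (N := N) D.I (B := (p : ℤ) ^ 2)
    (pow_ne_zero _ (by exact_mod_cast hp.out.ne_zero))
  let π : D.I → 𝓞 N := fun i => 1 + (p : 𝓞 N) ^ 2 * β i
  have hπ : ∀ i, ∃ r, π i = 1 + (p : 𝓞 N) ^ 2 * r := fun i => ⟨β i, rfl⟩
  have hxπ : ∀ i, ((x i : Nˣ) : N) = (π i : N) := by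
    intro i
    rw [hβ i]
    simp [π]
  have hQ : ∀ v, ∃ r, D.QQ π v = 1 + (p : 𝓞 N) ^ 2 * r := fun v => D.one_mod_PP p π hπ _
  have hP : ∀ v, ∃ r, D.PP π v = 1 + (p : 𝓞 N) ^ 2 * r := fun v => D.one_mod_PP p π hπ _
  have hιel : ∀ v, D.ι ((D.el x v : Kˣ) : K) = ((D.A x v : Nˣ) : N) := by
    intro v
    rw [← D.el_spec x v]
    rfl
  -- closeness to `1`
  have hclose : ∀ (v : Fin D.M → ℤ) (J : ℕ), (∃ t, D.PP π v = D.QQ π v + (p : 𝓞 N) ^ J * t) →
      (∃ y ∈ SS p K, ((incl p K (D.el x v) : QpPoints p K) : Kp p K) = 1 + (p : Kp p K) ^ J * y) ∧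
      (∃ y ∈ SS p K, (((incl p K (D.el x v))⁻¹ : QpPoints p K) : Kp p K) =
        1 + (p : Kp p K) ^ J * y) := by
    rintro v J ⟨t, ht⟩
    have h1 := D.A_mul_QQ π hxπ v
    rw [← hιel v] at h1
    refine ⟨mem_SS_of p D.ι (D.el x v) (D.PP π v) (D.QQ π v) J h1 (hQ v) ⟨t, ht⟩, ?_⟩
    rw [← map_inv]
    refine mem_SS_of p D.ι (D.el x v)⁻¹ (D.QQ π v) (D.PP π v) J ?_ (hP v)
      ⟨-t, by rw [ht]; ring⟩
    rw [← h1, Units.val_inv_eq_inv_val, map_inv₀, inv_mul_cancel_left₀]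
    rw [hιel v]
    exact (D.A x v).ne_zero
  -- compactness
  have hLC : (D.L x).map (incl p K) ≤ CU p K := by
    rintro _ ⟨_, ⟨v, rfl⟩, rfl⟩
    obtain ⟨⟨y, hy, h1⟩, ⟨y', hy', h2⟩⟩ := hclose (Multiplicative.toAdd v) 0
      ⟨D.PP π (Multiplicative.toAdd v) - D.QQ π (Multiplicative.toAdd v), by rw [pow_zero]; ring⟩
    refine ⟨?_, ?_⟩
    · show ((incl p K (D.el x (Multiplicative.toAdd v)) : QpPoints p K) : Kp p K) ∈ SS p K
      rw [h1, pow_zero, one_mul]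
      exact (SS p K).add_mem (SS p K).one_mem hy
    · show (((incl p K (D.el x (Multiplicative.toAdd v)))⁻¹ : QpPoints p K) : Kp p K) ∈ SS p K
      rw [h2, pow_zero, one_mul]
      exact (SS p K).add_mem (SS p K).one_mem hy'
  have hcl : IsClosed (CU p K : Set (QpPoints p K)) := (CU_compact p K).isClosed
  have hle : closureIn p K (D.L x) ≤ CU p K := Subgroup.topologicalClosure_minimal _ hLC hcl
  have hCc : IsCompact (closureIn p K (D.L x) : Set (QpPoints p K)) :=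
    (CU_compact p K).of_isClosed_subset (Subgroup.isClosed_topologicalClosure _) hle
  obtain ⟨H, Z, hH, hZ, ⟨φ⟩⟩ := h (D.L x) (D.L_fg x)
    ⟨CU p K, CU_compact p K, hLC⟩ (fun Ψ => D.rank_condition hx p hc hS Ψ)
    (closureIn p K (D.L x)) ⟨le_rfl, hCc, fun C' h' _ => h'⟩
  -- the sequence
  have hz : ∀ J : ℕ, ∃ z : D.I → 𝓞 N, ∀ i, (π i) ^ (p ^ J) = 1 + (p : 𝓞 N) ^ (J + 2) * z i := by
    intro J
    have h1 : ∀ i, ∃ z, (π i) ^ (p ^ J) = 1 + (p : 𝓞 N) ^ (J + 2) * z := by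
      intro i
      obtain ⟨r', t, h2, -⟩ := pow_pp_lev (p := p) (le_refl 2) (β i) J
      refine ⟨r', ?_⟩
      rw [add_comm J 2]
      exact h2
    choose z hz using h1
    exact ⟨z, hz⟩
  choose z hz using hz
  choose c hc1 hc2 using fun J => D.exists_vec hc hS' p hp.out (fun i => ((z J i : 𝓞 N) : N))
  have hcong : ∀ J, ∃ t, D.PP π (c J) = D.QQ π (c J) + (p : 𝓞 N) ^ (J + 4) * t := fun J =>
    D.PP_congr p π hπ J (z J) (hz J) (c J) (hc2 J)
  -- a convergent subsequence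
  let S : Set (Fin D.M → ℤ_[p]) := {n | ∃ i, 1 ≤ ‖n i‖}
  have hScomp : IsCompact S := by
    apply IsClosed.isCompact
    have : S = ⋃ i, {n : Fin D.M → ℤ_[p] | 1 ≤ ‖n i‖} := by
      ext n; simp [S]
    rw [this]
    refine isClosed_iUnion_of_finite fun i => ?_
    exact isClosed_le continuous_const (continuous_norm.comp (continuous_apply _))
  obtain ⟨cinf, hcinf, φ', hφ', hlim⟩ := hScomp.tendsto_subseq
    (x := fun m j => ((c m j : ℤ) : ℤ_[p])) (fun m => by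
      obtain ⟨i, hi⟩ := hc1 m
      refine ⟨i, ?_⟩
      by_contra hcon
      push Not at hcon
      rw [PadicInt.norm_int_lt_one_iff_dvd] at hcon
      exact hi hcon)
  have hcinf0 : cinf ≠ 0 := by
    intro h0
    obtain ⟨i, hi⟩ := hcinf
    rw [h0, Pi.zero_apply, norm_zero] at hi
    linarith
  have hone : Tendsto (fun m => ((incl p K).comp (D.Y x)) (Multiplicative.ofAdd (c (φ' m))))
      atTop (𝓝 1) := by
    have he : Tendsto (fun m => φ' m + 4) atTop atTop :=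
      tendsto_atTop_mono (fun m => Nat.le_add_right _ _) hφ'.tendsto_atTop
    exact tendsto_units p K (fun m => φ' m + 4) he
      (fun m => (hclose (c (φ' m)) (φ' m + 4) (hcong (φ' m))).1)
      (fun m => (hclose (c (φ' m)) (φ' m + 4) (hcong (φ' m))).2)
  have hC' : closureIn p K (D.L x) = ((incl p K).comp (D.Y x)).range.topologicalClosure := by
    unfold closureIn Setup.L
    rw [MonoidHom.range_comp]
  have hrk : rk (D.L x) = D.M := D.rank_L hx
  revert φ hH hZ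
  revert Z
  rw [hrk]
  intro Z hH hZ φ
  exact commens_contra ((incl p K).comp (D.Y x)) _ hC' hCc H Z hH hZ φ
    (fun m => c (φ' m)) cinf hcinf0 hlim hone

end final

end Pool.Agent.H447.Clo
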