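import Mathlib
import Pool.Graph.R_seed8.H492R2.Tor.Defs
import Pool.Graph.R_seed8.H492R2.Tor.Artin

set_option autoImplicit false
set_option linter.unusedSectionVars false

/-!
# Logarithms and exponentials on `(K ⊗ ℝ)ˣ`
-/

namespace Pool.Agent.H447.Clo

open Module NumberField NumberField.mixedEmbedding NumberField.InfinitePlace Pool.Agent.H492R2.Tor

variable {K : Type} [Field K] [NumberField K]

/-- The exponential map. -/
noncomputable def Ex (z : mixedSpace K) : RealPoints K where
  val := (fun w => Real.exp (z.1 w), fun w => Complex.exp (z.2 w))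
  inv := (fun w => Real.exp (-(z.1 w)), fun w => Complex.exp (-(z.2 w)))
  val_inv := by
    ext w <;> simp [← Complex.exp_add, ← Real.exp_add]
  inv_val := by
    ext w <;> simp [← Complex.exp_add, ← Real.exp_add]

theorem Ex_fst (z : mixedSpace K) (w : {w : InfinitePlace K // IsReal w}) :
    ((Ex z : RealPoints K) : mixedSpace K).1 w = Real.exp (z.1 w) := rfl

theorem Ex_snd (z : mixedSpace K) (w : {w : InfinitePlace K // IsComplex w}) :
    ((Ex z : RealPoints K) : mixedSpace K).2 w = Complex.exp (z.2 w) := rfl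

theorem Ex_zero : Ex (0 : mixedSpace K) = 1 := by
  ext w <;> simp [Ex]

theorem Ex_add (z z' : mixedSpace K) : Ex (z + z') = Ex z * Ex z' := by
  ext w <;> simp [Ex, Complex.exp_add, Real.exp_add]

theorem Ex_neg (z : mixedSpace K) : Ex (-z) = (Ex z)⁻¹ := by
  rw [eq_inv_iff_mul_eq_one, ← Ex_add, neg_add_cancel, Ex_zero]

theorem Ex_nsmul (n : ℕ) (z : mixedSpace K) : Ex ((n : ℝ) • z) = (Ex z) ^ n := by
  induction n with
  | zero => simp [Ex_zero]
  | succ n ih =>
    rw [Nat.cast_succ, add_smul, one_smul, Ex_add, ih, pow_succ]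

theorem Ex_continuous : Continuous (Ex : mixedSpace K → RealPoints K) := by
  rw [Units.continuous_iff]
  constructor
  · refine Continuous.prodMk ?_ ?_
    · exact continuous_pi fun w => Real.continuous_exp.comp
        ((continuous_apply w).comp continuous_fst)
    · exact continuous_pi fun w => Complex.continuous_exp.comp
        ((continuous_apply w).comp continuous_snd)
  · refine Continuous.prodMk ?_ ?_
    · exact continuous_pi fun w => Real.continuous_exp.comp
        ((continuous_apply w).comp continuous_fst).neg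
    · exact continuous_pi fun w => Complex.continuous_exp.comp
        ((continuous_apply w).comp continuous_snd).neg

open scoped Classical in
/-- The real part at each place. -/
noncomputable def reP : mixedSpace K →ₗ[ℝ] (InfinitePlace K → ℝ) where
  toFun z w := if h : IsReal w then z.1 ⟨w, h⟩ else
    (z.2 ⟨w, not_isReal_iff_isComplex.mp h⟩).re
  map_add' a b := by
    funext w
    by_cases h : IsReal w
    · simp [h]
    · simp [h]
  map_smul' r a := by
    funext w
    by_cases h : IsReal w
    · simp [h]
    · simp [h]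

open scoped Classical in
theorem reP_real (z : mixedSpace K) (w : {w : InfinitePlace K // IsReal w}) :
    reP z w.1 = z.1 w := by
  show (if h : IsReal w.1 then z.1 ⟨w.1, h⟩ else _) = _
  rw [dif_pos w.2]

open scoped Classical in
theorem reP_complex (z : mixedSpace K) (w : {w : InfinitePlace K // IsComplex w}) :
    reP z w.1 = (z.2 w).re := by
  show (if h : IsReal w.1 then z.1 ⟨w.1, h⟩ else (z.2 ⟨w.1, not_isReal_iff_isComplex.mp h⟩).re) = _
  rw [dif_neg (not_isReal_iff_isComplex.mpr w.2)]

/-- The inclusion of the real parts. -/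
noncomputable def inc : (InfinitePlace K → ℝ) →ₗ[ℝ] mixedSpace K where
  toFun r := (fun w => r w.1, fun w => (r w.1 : ℂ))
  map_add' a b := by
    ext w <;> simp
  map_smul' r a := by
    ext w <;> simp

theorem inc_fst (r : InfinitePlace K → ℝ) (w : {w : InfinitePlace K // IsReal w}) :
    (inc r).1 w = r w.1 := rfl

theorem inc_snd (r : InfinitePlace K → ℝ) (w : {w : InfinitePlace K // IsComplex w}) :
    (inc r).2 w = (r w.1 : ℂ) := rfl

theorem reP_inc (r : InfinitePlace K → ℝ) : reP (inc r) = r := by
  funext w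
  by_cases h : IsReal w
  · exact reP_real (inc r) ⟨w, h⟩
  · have h' := not_isReal_iff_isComplex.mp h
    rw [reP_complex (inc r) ⟨w, h'⟩, inc_snd, Complex.ofReal_re]

/-- The logarithms of the absolute values. -/
noncomputable def lgP (u : RealPoints K) (w : InfinitePlace K) : ℝ :=
  Real.log (normAtPlace w (u : mixedSpace K))

theorem normAtPlace_ne (u : RealPoints K) (w : InfinitePlace K) :
    normAtPlace w (u : mixedSpace K) ≠ 0 := by
  intro h
  have h1 : normAtPlace w ((u * u⁻¹ : RealPoints K) : mixedSpace K) = 1 := by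
    rw [mul_inv_cancel, Units.val_one, map_one]
  rw [Units.val_mul, map_mul, h, zero_mul] at h1
  exact zero_ne_one h1

theorem exp_lgP (u : RealPoints K) (w : InfinitePlace K) :
    Real.exp (lgP u w) = normAtPlace w (u : mixedSpace K) := by
  unfold lgP
  rw [Real.exp_log]
  exact lt_of_le_of_ne (normAtPlace_nonneg _ _) (normAtPlace_ne u w).symm

theorem lgP_mul (u v : RealPoints K) : lgP (u * v) = lgP u + lgP v := by
  funext w
  simp only [lgP, Pi.add_apply]
  rw [Units.val_mul, map_mul, Real.log_mul (normAtPlace_ne u w) (normAtPlace_ne v w)]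

theorem lgP_one : lgP (1 : RealPoints K) = 0 := by
  funext w
  simp [lgP]

theorem lgP_inv (u : RealPoints K) : lgP u⁻¹ = - lgP u := by
  have := lgP_mul u u⁻¹
  rw [mul_inv_cancel, lgP_one] at this
  exact (neg_eq_of_add_eq_zero_right this.symm).symm

theorem lgP_pow (u : RealPoints K) (n : ℕ) : lgP (u ^ n) = (n : ℝ) • lgP u := by
  induction n with
  | zero => simp [lgP_one]
  | succ n ih =>
    rw [pow_succ, lgP_mul, ih]
    push_cast
    rw [add_smul, one_smul]

theorem lgP_Ex (z : mixedSpace K) : lgP (Ex z) = reP z := by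
  funext w
  unfold lgP
  by_cases h : IsReal w
  · rw [normAtPlace_apply_of_isReal h, Ex_fst, Real.norm_eq_abs, Real.abs_exp, Real.log_exp]
    exact (reP_real z ⟨w, h⟩).symm
  · have h' := not_isReal_iff_isComplex.mp h
    rw [normAtPlace_apply_of_isComplex h', Ex_snd, Complex.norm_exp, Real.log_exp]
    exact (reP_complex z ⟨w, h'⟩).symm

theorem lgP_continuous : Continuous (fun u : RealPoints K => lgP u) := by
  refine continuous_pi fun w => ?_
  have h1 : Continuous (fun u : RealPoints K => normAtPlace w (u : mixedSpace K)) :=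
    (continuous_normAtPlace w).comp Units.continuous_val
  exact h1.log (fun u => normAtPlace_ne u w)

theorem lgP_inclusion (a : Kˣ) (w : InfinitePlace K) :
    lgP (inclusion K a) w = Real.log (w (a : K)) := by
  unfold lgP
  congr 1
  exact normAtPlace_apply w (a : K)

section artin

/-- coordinate functions and their conjugates -/
def basicF (K : Type) [Field K] [NumberField K] : Set (RealPoints K → ℂ) :=
  {g | (∃ w : {w : InfinitePlace K // IsReal w},
      g = (fun u : RealPoints K => (((u : mixedSpace K).1 w : ℝ) : ℂ))) ∨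
    ∃ w : {w : InfinitePlace K // IsComplex w}, g = (fun u : RealPoints K => (u : mixedSpace K).2 w) ∨
    g = (fun u : RealPoints K => (starRingEnd ℂ) ((u : mixedSpace K).2 w))}

/-- A real linear functional on the mixed space is a combination of the basic functions. -/
theorem functional_mem' (φ : mixedSpace K →ₗ[ℝ] ℝ) :
    (fun u : RealPoints K => ((φ (u : mixedSpace K) : ℝ) : ℂ)) ∈
      Algebra.adjoin ℂ (basicF K) := by
  classical
  have key : ∀ x : mixedSpace K, φ x = (∑ w : {w : InfinitePlace K // IsReal w},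
      x.1 w * φ (Pi.single w 1, 0)) + ∑ w : {w : InfinitePlace K // IsComplex w},
      ((x.2 w).re * φ (0, Pi.single w 1) + (x.2 w).im * φ (0, Pi.single w Complex.I)) := by
    intro x
    have hx : x = (∑ w : {w : InfinitePlace K // IsReal w},
        (x.1 w) • ((Pi.single w 1, 0) : mixedSpace K)) +
        ∑ w : {w : InfinitePlace K // IsComplex w}, ((x.2 w).re • ((0, Pi.single w 1) : mixedSpace K) +
        (x.2 w).im • ((0, Pi.single w Complex.I) : mixedSpace K)) := by
      apply Prod.ext
      · funext w
        rw [Prod.fst_add, Prod.fst_sum, Prod.fst_sum]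
        simp only [Prod.fst_add, Prod.smul_fst, Finset.sum_apply, Pi.add_apply, Pi.smul_apply,
          Pi.single_apply, Pi.zero_apply, smul_eq_mul, mul_ite, mul_one, mul_zero, add_zero,
          Finset.sum_const_zero]
        rw [Finset.sum_ite_eq]
        simp
      · funext w
        rw [Prod.snd_add, Prod.snd_sum, Prod.snd_sum]
        simp only [Prod.snd_add, Prod.smul_snd, Finset.sum_apply, Pi.add_apply, Pi.smul_apply,
          Pi.single_apply, Pi.zero_apply, smul_zero, Finset.sum_const_zero, zero_add]
        rw [Finset.sum_eq_single w]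
        · simp only [if_true]
          rw [Complex.real_smul, Complex.real_smul, mul_one, Complex.re_add_im]
        · intro b _ hb
          simp [Ne.symm hb]
        · intro h; exact absurd (Finset.mem_univ w) h
    conv_lhs => rw [hx]
    rw [map_add, map_sum, map_sum]
    congr 1
    · apply Finset.sum_congr rfl
      intro w _
      rw [map_smul, smul_eq_mul]
    · apply Finset.sum_congr rfl
      intro w _
      rw [map_add, map_smul, map_smul, smul_eq_mul, smul_eq_mul]
  have key2 : (fun u : RealPoints K => ((φ (u : mixedSpace K) : ℝ) : ℂ)) =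
      (∑ w : {w : InfinitePlace K // IsReal w},
        (algebraMap ℂ (RealPoints K → ℂ) (φ (Pi.single w 1, 0) : ℂ)) *
          (fun u : RealPoints K => (((u : mixedSpace K).1 w : ℝ) : ℂ))) +
      ∑ w : {w : InfinitePlace K // IsComplex w}, (
        (algebraMap ℂ (RealPoints K → ℂ) ((φ (0, Pi.single w 1) : ℂ) / 2 +
            (φ (0, Pi.single w Complex.I) : ℂ) / (2 * Complex.I))) *
          (fun u : RealPoints K => (u : mixedSpace K).2 w) +
        (algebraMap ℂ (RealPoints K → ℂ) ((φ (0, Pi.single w 1) : ℂ) / 2 -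
            (φ (0, Pi.single w Complex.I) : ℂ) / (2 * Complex.I))) *
          (fun u : RealPoints K => (starRingEnd ℂ) ((u : mixedSpace K).2 w))) := by
    funext u
    rw [key, Pi.add_apply, Finset.sum_apply, Finset.sum_apply, Complex.ofReal_add,
      Complex.ofReal_sum, Complex.ofReal_sum]
    congr 1
    · apply Finset.sum_congr rfl
      intro w _
      rw [Complex.ofReal_mul]
      simp only [Pi.mul_apply, Pi.algebraMap_apply, Algebra.algebraMap_self, RingHom.id_apply]
      ring
    · apply Finset.sum_congr rfl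
      intro w _
      rw [Complex.ofReal_add, Complex.ofReal_mul, Complex.ofReal_mul]
      simp only [Pi.add_apply, Pi.mul_apply, Pi.algebraMap_apply, Algebra.algebraMap_self,
        RingHom.id_apply]
      have h1 : (((u : mixedSpace K).2 w).re : ℂ) = ((u : mixedSpace K).2 w +
          (starRingEnd ℂ) ((u : mixedSpace K).2 w)) / 2 := Complex.re_eq_add_conj _
      have h2 : (((u : mixedSpace K).2 w).im : ℂ) = ((u : mixedSpace K).2 w -
          (starRingEnd ℂ) ((u : mixedSpace K).2 w)) / (2 * Complex.I) := Complex.im_eq_sub_conj _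
      rw [h1, h2]
      ring
  rw [key2]
  apply Subalgebra.add_mem
  · apply Subalgebra.sum_mem
    intro w _
    apply Subalgebra.mul_mem
    · exact Subalgebra.algebraMap_mem _ _
    · exact Algebra.subset_adjoin (Or.inl ⟨w, rfl⟩)
  · apply Subalgebra.sum_mem
    intro w _
    apply Subalgebra.add_mem
    · apply Subalgebra.mul_mem
      · exact Subalgebra.algebraMap_mem _ _
      · exact Algebra.subset_adjoin (Or.inr ⟨w, Or.inl rfl⟩)
    · apply Subalgebra.mul_mem
      · exact Subalgebra.algebraMap_mem _ _
      · exact Algebra.subset_adjoin (Or.inr ⟨w, Or.inr rfl⟩)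

/-- Polynomial functions are combinations of products of basic functions. -/
theorem poly_mem' (f : MvPolynomial (Module.Free.ChooseBasisIndex ℤ (𝓞 K)) ℚ) :
    (fun u : RealPoints K => ((MvPolynomial.aeval (coord K u) f : ℝ) : ℂ)) ∈
      Algebra.adjoin ℂ (basicF K) := by
  induction f using MvPolynomial.induction_on with
  | C a =>
    have : (fun u : RealPoints K =>
        ((MvPolynomial.aeval (coord K u) (MvPolynomial.C a : MvPolynomial _ ℚ) : ℝ) : ℂ)) =
        algebraMap ℂ (RealPoints K → ℂ) (a : ℂ) := by
      funext u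
      simp
    rw [this]
    exact Subalgebra.algebraMap_mem _ _
  | add p q hp hq =>
    have : (fun u : RealPoints K => ((MvPolynomial.aeval (coord K u) (p + q) : ℝ) : ℂ)) =
        (fun u : RealPoints K => ((MvPolynomial.aeval (coord K u) p : ℝ) : ℂ)) +
        (fun u : RealPoints K => ((MvPolynomial.aeval (coord K u) q : ℝ) : ℂ)) := by
      funext u
      simp
    rw [this]
    exact Subalgebra.add_mem _ hp hq
  | mul_X p i hp =>
    have : (fun u : RealPoints K =>
        ((MvPolynomial.aeval (coord K u) (p * MvPolynomial.X i) : ℝ) : ℂ)) =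
        (fun u : RealPoints K => ((MvPolynomial.aeval (coord K u) p : ℝ) : ℂ)) *
        (fun u : RealPoints K => (((latticeBasis K).coord i (u : mixedSpace K) : ℝ) : ℂ)) := by
      funext u
      simp [coord]
    rw [this]
    exact Subalgebra.mul_mem _ hp (functional_mem' _)

/-- The properties of products of basic functions that are used. -/
def GoodF (g : RealPoints K → ℂ) : Prop :=
  (∃ χ : RealPoints K →* ℂ, ∀ u, χ u = g u) ∧ ∃ n : InfinitePlace K → ℤ,
    (∀ v : InfinitePlace K → ℝ, g (Ex (inc v)) = ((Real.exp (∑ i, v i * (n i : ℝ)) : ℝ) : ℂ)) ∧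
    ∀ u : RealPoints K, ‖g u‖ = Real.exp (∑ i, lgP u i * (n i : ℝ))

theorem goodF_one : GoodF (1 : RealPoints K → ℂ) := by
  refine ⟨⟨1, fun u => rfl⟩, 0, ?_, ?_⟩
  · intro v; simp
  · intro u; simp

theorem goodF_mul (g g' : RealPoints K → ℂ) (h : GoodF g) (h' : GoodF g') : GoodF (g * g') := by
  obtain ⟨⟨χ, hχ⟩, n, h1, h2⟩ := h
  obtain ⟨⟨χ', hχ'⟩, n', h1', h2'⟩ := h'
  refine ⟨⟨χ * χ', fun u => ?_⟩, n + n', ?_, ?_⟩
  · rw [MonoidHom.mul_apply, hχ, hχ', Pi.mul_apply]
  · intro v
    rw [Pi.mul_apply, h1, h1', ← Complex.ofReal_mul, ← Real.exp_add, ← Finset.sum_add_distrib]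
    congr 2
    apply Finset.sum_congr rfl
    intro i _
    rw [Pi.add_apply]
    push_cast
    ring
  · intro u
    rw [Pi.mul_apply, norm_mul, h2 u, h2' u, ← Real.exp_add, ← Finset.sum_add_distrib]
    congr 1
    apply Finset.sum_congr rfl
    intro i _
    rw [Pi.add_apply]
    push_cast
    ring

theorem sum_single_mul (w : InfinitePlace K) (v : InfinitePlace K → ℝ) [DecidableEq (InfinitePlace K)] :
    ∑ i, v i * (((Pi.single w 1 : InfinitePlace K → ℤ) i : ℤ) : ℝ) = v w := by
  rw [Finset.sum_eq_single w]
  · simp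
  · intro b _ hb
    rw [Pi.single_eq_of_ne hb]
    simp
  · intro h; exact absurd (Finset.mem_univ w) h

theorem goodF_basic (g : RealPoints K → ℂ) (hg : g ∈ basicF K) : GoodF g := by
  classical
  rcases hg with ⟨w, rfl⟩ | ⟨w, rfl | rfl⟩
  · refine ⟨⟨⟨⟨fun u : RealPoints K => (((u : mixedSpace K).1 w : ℝ) : ℂ), ?_⟩, ?_⟩,
      fun u => rfl⟩, Pi.single w.1 1, ?_, ?_⟩
    · show (((1 : ℝ)) : ℂ) = 1
      simp
    · intro a b
      show ((((a : mixedSpace K).1 w * (b : mixedSpace K).1 w : ℝ)) : ℂ) = _
      exact Complex.ofReal_mul _ _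
    · intro v
      rw [sum_single_mul]
      rfl
    · intro u
      rw [sum_single_mul, exp_lgP, normAtPlace_apply_of_isReal w.2]
      exact Complex.norm_real _
  · refine ⟨⟨⟨⟨fun u : RealPoints K => (u : mixedSpace K).2 w, rfl⟩, fun a b => rfl⟩,
      fun u => rfl⟩, Pi.single w.1 1, ?_, ?_⟩
    · intro v
      rw [sum_single_mul, Complex.ofReal_exp]
      rfl
    · intro u
      rw [sum_single_mul, exp_lgP, normAtPlace_apply_of_isComplex w.2]
  · refine ⟨⟨⟨⟨fun u : RealPoints K => (starRingEnd ℂ) ((u : mixedSpace K).2 w), ?_⟩, ?_⟩,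
      fun u => rfl⟩, Pi.single w.1 1, ?_, ?_⟩
    · show (starRingEnd ℂ) (1 : ℂ) = 1
      exact map_one _
    · intro a b
      show (starRingEnd ℂ) ((a : mixedSpace K).2 w * (b : mixedSpace K).2 w) = _
      exact map_mul _ _ _
    · intro v
      rw [sum_single_mul]
      show (starRingEnd ℂ) (Complex.exp ((v w.1 : ℝ) : ℂ)) = _
      rw [← Complex.ofReal_exp, Complex.conj_ofReal]
    · intro u
      rw [sum_single_mul, exp_lgP, normAtPlace_apply_of_isComplex w.2]
      exact Complex.norm_conj _

theorem goodF_closure (g : RealPoints K → ℂ) (hg : g ∈ Submonoid.closure (basicF K)) :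
    GoodF g := by
  induction hg using Submonoid.closure_induction with
  | mem x hx => exact goodF_basic x hx
  | one => exact goodF_one
  | mul x y _ _ hx hy => exact goodF_mul x y hx hy

/-- The Artin step: if `v` is orthogonal to all integer vectors orthogonal to the logarithms of
the points of a rational algebraic group `B`, then `exp v ∈ B`. -/
theorem mem_of_orth (B : Subgroup (RealPoints K)) (hB : IsRationalAlgebraic K B)
    (v : InfinitePlace K → ℝ)
    (hv : ∀ n : InfinitePlace K → ℤ, (∀ b ∈ B, ∑ i, lgP b i * (n i : ℝ) = 0) →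
      ∑ i, v i * (n i : ℝ) = 0) : Ex (inc v) ∈ B := by
  classical
  obtain ⟨S, hS⟩ := hB
  rw [hS]
  intro f hf
  have hmem := poly_mem' (K := K) f
  rw [← Subalgebra.mem_toSubmodule, Algebra.adjoin_eq_span] at hmem
  rw [Finsupp.mem_span_iff_linearCombination] at hmem
  obtain ⟨c, hc⟩ := hmem
  have hgood : ∀ g : Submonoid.closure (basicF K), GoodF (g : RealPoints K → ℂ) :=
    fun g => goodF_closure _ g.2
  choose χ hχ using fun g => (hgood g).1
  choose N hN1 hN2 using fun g => (hgood g).2
  have hval : ∀ u : RealPoints K, ((MvPolynomial.aeval (coord K u) f : ℝ) : ℂ) =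
      ∑ g ∈ c.support, c g * χ g u := by
    intro u
    have h1 := congrFun hc u
    rw [← h1, Finsupp.linearCombination_apply, Finsupp.sum, Finset.sum_apply]
    apply Finset.sum_congr rfl
    intro g _
    rw [Pi.smul_apply, smul_eq_mul, hχ g u]
  have hzero := artin_extend B c.support c χ (fun b' hb' => by
    rw [← hval, (hS b').mp hb' f hf]; simp)
    (Ex (inc v)) (by
    intro g _ g' _ hgg
    have hsub : ∀ r : InfinitePlace K → ℝ, ∑ i, r i * (((N g - N g') i : ℤ) : ℝ) =
        ∑ i, r i * (N g i : ℝ) - ∑ i, r i * (N g' i : ℝ) := by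
      intro r
      rw [← Finset.sum_sub_distrib]
      apply Finset.sum_congr rfl
      intro i _
      rw [Pi.sub_apply]; push_cast; ring
    have h4 : ∀ b ∈ B, ∑ i, lgP b i * (((N g - N g') i : ℤ) : ℝ) = 0 := by
      intro b hb
      have h1 := hgg b hb
      have h2 : Real.exp (∑ i, lgP b i * (N g i : ℝ)) = Real.exp (∑ i, lgP b i * (N g' i : ℝ)) := by
        rw [← hN2 g b, ← hN2 g' b, ← hχ g b, ← hχ g' b, h1]
      rw [hsub, Real.exp_injective h2, sub_self]
    have h5 := hv _ h4
    rw [hsub] at h5
    have h6 : ∑ i, v i * (N g i : ℝ) = ∑ i, v i * (N g' i : ℝ) := by linarith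
    rw [hχ, hχ, hN1, hN1, h6])
  rw [← hval] at hzero
  exact_mod_cast hzero

end artin

end Pool.Agent.H447.Clo
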