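import Mathlib
import Pool.Agent.H447.Clo.RealGeo
import Pool.Agent.H447.Clo.Core
import Pool.Graph.R_seed8.H492R2.Tor.Closed
import Pool.Graph.R_seed8.H492R2.Tor.Core3

set_option autoImplicit false
set_option linter.unusedSectionVars false

/-!
# A criterion for the failure of the real part
-/

namespace Pool.Agent.H447.Clo

open Module NumberField NumberField.mixedEmbedding NumberField.InfinitePlace Pool.Agent.H492R2.Tor

open scoped Classical

variable {K : Type} [Field K] [NumberField K]

/-- The vectors orthogonal to a set of integral vectors. -/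
def orthP (S : Set (InfinitePlace K → ℤ)) : Submodule ℝ (InfinitePlace K → ℝ) where
  carrier := {r | ∀ n ∈ S, ∑ i, r i * (n i : ℝ) = 0}
  add_mem' := by
    intro a b ha hb n hn
    simp only [Pi.add_apply, add_mul, Finset.sum_add_distrib, ha n hn, hb n hn, add_zero]
  zero_mem' := by
    intro n _
    simp
  smul_mem' := by
    intro c a ha n hn
    simp only [Pi.smul_apply, smul_eq_mul, mul_assoc, ← Finset.mul_sum, ha n hn, mul_zero]

section

variable {M : ℕ} (a : Fin M → Kˣ)

/-- The logarithms of the absolute values of a real combination. -/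
noncomputable def Lam : (Fin M → ℝ) →ₗ[ℝ] (InfinitePlace K → ℝ) where
  toFun μ w := ∑ k, μ k * Real.log (w (a k : K))
  map_add' μ ν := by
    funext w
    simp only [Pi.add_apply, add_mul, Finset.sum_add_distrib]
  map_smul' r μ := by
    funext w
    simp only [Pi.smul_apply, smul_eq_mul, RingHom.id_apply, Finset.mul_sum, mul_assoc]

theorem Lam_apply (μ : Fin M → ℝ) (w : InfinitePlace K) :
    Lam a μ w = ∑ k, μ k * Real.log (w (a k : K)) := rfl

/-- The group generated by the `a k`. -/
def LL : Subgroup Kˣ := Subgroup.closure (Set.range a)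

theorem LL_fg : (LL a).FG := by
  classical
  exact ⟨Finset.univ.image a, by rw [LL, Finset.coe_image, Finset.coe_univ, Set.image_univ]⟩

theorem closure_log (u : RealPoints K) (hu : u ∈ closureIn K (LL a)) :
    lgP u ∈ LinearMap.range (Lam a) := by
  let P : Subgroup (RealPoints K) :=
    { carrier := {u | lgP u ∈ LinearMap.range (Lam a)}
      mul_mem' := by
        intro x y hx hy
        show lgP (x * y) ∈ LinearMap.range (Lam a)
        rw [lgP_mul]
        exact Submodule.add_mem _ hx hy
      one_mem' := by
        show lgP 1 ∈ LinearMap.range (Lam a)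
        rw [lgP_one]
        exact Submodule.zero_mem _
      inv_mem' := by
        intro x hx
        show lgP x⁻¹ ∈ LinearMap.range (Lam a)
        rw [lgP_inv]
        exact Submodule.neg_mem _ hx }
  have hclosed : IsClosed (P : Set (RealPoints K)) := by
    have h : IsClosed ((LinearMap.range (Lam a) : Submodule ℝ (InfinitePlace K → ℝ)) :
        Set (InfinitePlace K → ℝ)) := Submodule.closed_of_finiteDimensional _
    exact h.preimage lgP_continuous
  have hle : closureIn K (LL a) ≤ P := by
    apply Subgroup.topologicalClosure_minimal _ _ hclosed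
    rw [LL, MonoidHom.map_closure, Subgroup.closure_le]
    rintro _ ⟨_, ⟨k, rfl⟩, rfl⟩
    show lgP (inclusion K (a k)) ∈ LinearMap.range (Lam a)
    refine ⟨Pi.single k 1, ?_⟩
    funext w
    rw [lgP_inclusion, Lam_apply, Finset.sum_eq_single k]
    · simp
    · intro b _ hb
      rw [Pi.single_eq_of_ne hb, zero_mul]
    · intro h; exact absurd (Finset.mem_univ k) h
  exact hle hu

/-- The closed additive group of the logarithms of the points of the closure. -/
noncomputable def Gam : AddSubgroup (mixedSpace K) where
  carrier := {z | Ex z ∈ closureIn K (LL a)}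
  add_mem' := by
    intro x y hx hy
    show Ex (x + y) ∈ closureIn K (LL a)
    rw [Ex_add]
    exact Subgroup.mul_mem _ hx hy
  zero_mem' := by
    show Ex 0 ∈ closureIn K (LL a)
    rw [Ex_zero]
    exact Subgroup.one_mem _
  neg_mem' := by
    intro x hx
    show Ex (-x) ∈ closureIn K (LL a)
    rw [Ex_neg]
    exact Subgroup.inv_mem _ hx

theorem Gam_closed : IsClosed (Gam a : Set (mixedSpace K)) := by
  have h : IsClosed ((closureIn K (LL a) : Subgroup (RealPoints K)) : Set (RealPoints K)) :=
    Subgroup.isClosed_topologicalClosure _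
  exact h.preimage Ex_continuous

/-- lines in the closure lie in the identity component -/
theorem Ex_mem_identityComponent (z : mixedSpace K) (hz : ∀ t : ℝ, t • z ∈ Gam a) :
    Ex z ∈ identityComponent K (LL a) := by
  have hmem : ∀ r : ℝ, Ex (r • z) ∈ closureIn K (LL a) := fun r => hz r
  let c : ℝ → closureIn K (LL a) := fun r => ⟨Ex (r • z), hmem r⟩
  have hc : Continuous c := by
    apply Continuous.subtype_mk
    exact Ex_continuous.comp (continuous_id.smul continuous_const)
  have hconn : IsPreconnected (Set.range c) := isPreconnected_range hc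
  have h1 : (1 : closureIn K (LL a)) ∈ Set.range c := by
    refine ⟨0, ?_⟩
    apply Subtype.ext
    show Ex ((0 : ℝ) • z) = 1
    rw [zero_smul, Ex_zero]
  have h2 : c 1 ∈ connectedComponent (1 : closureIn K (LL a)) :=
    hconn.subset_connectedComponent h1 ⟨1, rfl⟩
  refine ⟨c 1, h2, ?_⟩
  show Ex ((1 : ℝ) • z) = Ex z
  rw [one_smul]

theorem identityComponent_le : identityComponent K (LL a) ≤ closureIn K (LL a) := by
  rintro _ ⟨u, _, rfl⟩
  exact u.2

/-- logarithms of the squares of the generators -/
noncomputable def zz (k : Fin M) : mixedSpace K :=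
  (fun w => 2 * Real.log |w.1.embedding_of_isReal w.2 (a k : K)|,
    fun w => 2 * Complex.log (w.1.embedding (a k : K)))

theorem Ex_zz (k : Fin M) : Ex (zz a k) = inclusion K (a k) ^ 2 := by
  apply Units.ext
  rw [Units.val_pow_eq_pow_val]
  apply Prod.ext
  · funext w
    show Real.exp (2 * Real.log |w.1.embedding_of_isReal w.2 (a k : K)|) =
      (w.1.embedding_of_isReal w.2 (a k : K)) ^ 2
    have h : w.1.embedding_of_isReal w.2 (a k : K) ≠ 0 := by
      rw [Ne, map_eq_zero]
      exact (a k).ne_zero
    rw [two_mul, Real.exp_add, Real.exp_log (abs_pos.mpr h), ← sq, sq_abs]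
  · funext w
    show Complex.exp (2 * Complex.log (w.1.embedding (a k : K))) = (w.1.embedding (a k : K)) ^ 2
    have h : w.1.embedding (a k : K) ≠ 0 := by
      rw [Ne, map_eq_zero]
      exact (a k).ne_zero
    rw [two_mul, Complex.exp_add, Complex.exp_log h, ← sq]

theorem zz_mem (k : Fin M) : zz a k ∈ Gam a := by
  show Ex (zz a k) ∈ closureIn K (LL a)
  rw [Ex_zz]
  apply Subgroup.pow_mem
  apply Subgroup.le_topologicalClosure
  exact Subgroup.mem_map_of_mem _ (Subgroup.subset_closure ⟨k, rfl⟩)

theorem reP_zz (k : Fin M) (w : InfinitePlace K) : reP (zz a k) w = 2 * Real.log (w (a k : K)) := by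
  by_cases h : IsReal w
  · have h1 := reP_real (zz a k) ⟨w, h⟩
    rw [h1]
    show 2 * Real.log |w.embedding_of_isReal h (a k : K)| = _
    rw [← Real.norm_eq_abs, InfinitePlace.norm_embedding_of_isReal]
  · have h' := not_isReal_iff_isComplex.mp h
    have h1 := reP_complex (zz a k) ⟨w, h'⟩
    rw [h1]
    show (2 * Complex.log (w.embedding (a k : K))).re = _
    rw [Complex.mul_re, Complex.log_re, InfinitePlace.norm_embedding_eq]
    simp

/-- The complex places. -/
abbrev CPl (K : Type) [Field K] [NumberField K] : Type := {w : InfinitePlace K // IsComplex w}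

/-- periods -/
noncomputable def per (w : CPl K) : mixedSpace K := (0, Pi.single w (2 * Real.pi * Complex.I))

theorem Ex_per (w : CPl K) : Ex (per w) = 1 := by
  classical
  apply Units.ext
  apply Prod.ext
  · funext w'
    show Real.exp 0 = 1
    exact Real.exp_zero
  · funext w'
    show Complex.exp ((per w).2 w') = 1
    rw [per]
    show Complex.exp ((Pi.single w (2 * Real.pi * Complex.I) : CPl K → ℂ) w') = 1
    rw [Pi.single_apply]
    split_ifs
    · exact Complex.exp_two_pi_mul_I
    · exact Complex.exp_zero

theorem per_mem (w : CPl K) : per w ∈ Gam a := by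
  show Ex (per w) ∈ closureIn K (LL a)
  rw [Ex_per]
  exact Subgroup.one_mem _

theorem reP_per (w : CPl K) : reP (per w) = 0 := by
  classical
  funext w'
  by_cases h : IsReal w'
  · exact reP_real (per w) ⟨w', h⟩
  · have h' := not_isReal_iff_isComplex.mp h
    rw [reP_complex (per w) ⟨w', h'⟩, per]
    show ((Pi.single w (2 * Real.pi * Complex.I) : CPl K → ℂ) ⟨w', h'⟩).re = 0
    rw [Pi.single_apply]
    split_ifs
    · simp
    · simp

/-- integral combinations of the logarithms -/
noncomputable def ZV (v : Fin M → ℤ) : mixedSpace K := ∑ k, v k • zz a k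

/-- integral combinations of the periods -/
noncomputable def PV (n : CPl K → ℤ) : mixedSpace K := ∑ w, n w • per w

theorem ZV_mem (v : Fin M → ℤ) : ZV a v ∈ Gam a :=
  AddSubgroup.sum_mem _ fun k _ => AddSubgroup.zsmul_mem _ (zz_mem a k) _

theorem PV_mem (n : CPl K → ℤ) : PV n ∈ Gam a :=
  AddSubgroup.sum_mem _ fun k _ => AddSubgroup.zsmul_mem _ (per_mem a k) _

theorem reP_ZV (v : Fin M → ℤ) : reP (ZV a v) = (2 : ℝ) • Lam a (fun k => (v k : ℝ)) := by
  funext w
  unfold ZV
  rw [map_sum, Finset.sum_apply, Pi.smul_apply, Lam_apply, smul_eq_mul, Finset.mul_sum]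
  refine Finset.sum_congr rfl fun k _ => ?_
  rw [map_zsmul, Pi.smul_apply, reP_zz, zsmul_eq_mul]
  ring

theorem reP_PV (n : CPl K → ℤ) : reP (PV n) = 0 := by
  unfold PV
  rw [map_sum]
  refine Finset.sum_eq_zero fun w _ => ?_
  rw [map_zsmul, reP_per, smul_zero]

theorem im_PV (n : CPl K → ℤ) (w : CPl K) : ((PV n).2 w).im = (n w : ℝ) * (2 * Real.pi) := by
  classical
  unfold PV
  rw [Prod.snd_sum, Finset.sum_apply, Complex.im_sum, Finset.sum_eq_single w]
  · show ((n w • per w).2 w).im = _
    rw [Prod.smul_snd, Pi.smul_apply, zsmul_eq_mul, Complex.mul_im, Complex.intCast_im, zero_mul,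
      add_zero, Complex.intCast_re, per]
    simp
  · intro b _ hb
    rw [Prod.smul_snd, Pi.smul_apply, per]
    show (n b • (Pi.single b (2 * Real.pi * Complex.I) : CPl K → ℂ) w).im = 0
    rw [Pi.single_eq_of_ne hb.symm, smul_zero]
    rfl
  · intro h; exact absurd (Finset.mem_univ w) h

theorem ZV_zero : ZV a 0 = 0 := by
  unfold ZV
  simp

theorem ZV_add (v v' : Fin M → ℤ) : ZV a (v + v') = ZV a v + ZV a v' := by
  unfold ZV
  rw [← Finset.sum_add_distrib]
  refine Finset.sum_congr rfl fun k _ => ?_
  rw [Pi.add_apply, add_smul]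

theorem ZV_smul (m : ℤ) (v : Fin M → ℤ) : ZV a (m • v) = m • ZV a v := by
  unfold ZV
  rw [Finset.smul_sum]
  refine Finset.sum_congr rfl fun k _ => ?_
  rw [Pi.smul_apply, smul_eq_mul, mul_smul]

/-- The kernel of the real part has the dimension of the number of the complex places. -/
theorem finrank_ker_reP : finrank ℝ (LinearMap.ker (reP (K := K))) ≤ Fintype.card (CPl K) := by
  let f : LinearMap.ker (reP (K := K)) →ₗ[ℝ] (CPl K → ℝ) :=
    { toFun := fun z w => (z.1.2 w).im
      map_add' := fun x y => rfl
      map_smul' := fun r x => by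
        funext w
        show (r • (x.1.2 w)).im = r * (x.1.2 w).im
        rw [Complex.real_smul, Complex.im_ofReal_mul] }
  have hf : Function.Injective f := by
    rw [← LinearMap.ker_eq_bot, LinearMap.ker_eq_bot']
    intro z hz
    have hz0 : reP z.1 = 0 := z.2
    apply Subtype.ext
    apply Prod.ext
    · funext w
      rw [← reP_real z.1 w, hz0]
      rfl
    · funext w
      apply Complex.ext
      · rw [← reP_complex z.1 w, hz0]
        rfl
      · exact congrFun hz w
  have h := LinearMap.finrank_le_finrank_of_injective hf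
  rwa [Module.finrank_fintype_fun_eq_card] at h

end

end Pool.Agent.H447.Clo
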