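import Mathlib
import Pool.Agent.H447.Clo.RealTop

set_option autoImplicit false
set_option linter.unusedSectionVars false

/-!
# A criterion for the failure of the real part: the proof
-/

namespace Pool.Agent.H447.Clo

open Module NumberField NumberField.mixedEmbedding NumberField.InfinitePlace Pool.Agent.H492R2.Tor

open scoped Classical

variable {K : Type} [Field K] [NumberField K]

/-- a projection with a given kernel -/
theorem exists_proj {V : Type} [AddCommGroup V] [Module ℝ V] (U : Submodule ℝ V) :
    ∃ q : V →ₗ[ℝ] V, (∀ x, x - q x ∈ U) ∧ ∀ x ∈ U, q x = 0 := by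
  obtain ⟨R, hR⟩ := U.exists_isCompl
  refine ⟨LinearMap.id - U.subtype ∘ₗ (U.projectionOnto R hR), ?_, ?_⟩
  · intro x
    have : x - (LinearMap.id - U.subtype ∘ₗ (U.projectionOnto R hR) : V →ₗ[ℝ] V) x =
        ((U.projectionOnto R hR x : U) : V) := by
      show x - (x - ((U.projectionOnto R hR x : U) : V)) = _
      rw [sub_sub_cancel]
    rw [this]
    exact Submodule.coe_mem _
  · intro x hx
    show x - ((U.projectionOnto R hR x : U) : V) = 0
    rw [Submodule.projectionOnto_apply_of_mem_left hR hx, sub_self]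

/-- The criterion. -/
theorem not_real_of {M : ℕ} (a : Fin M → Kˣ)
    (h1 : ∃ μ : Fin M → ℝ, μ ≠ 0 ∧ Lam a μ = 0)
    (h2 : ∀ S : Set (InfinitePlace K → ℤ), ∃ Q : Submodule ℚ (Fin M → ℚ),
      (∀ v : Fin M → ℤ, Lam a (fun k => (v k : ℝ)) ∈ orthP S → (fun k => (v k : ℚ)) ∈ Q) ∧
      finrank ℚ Q ≤ finrank ℝ (orthP S)) : ¬ ExpectedAnswerReal K := by
  intro h
  obtain ⟨B, hB, hle, hidx⟩ := h (LL a) (LL_fg a)
  set S : Set (InfinitePlace K → ℤ) := {n | ∀ b ∈ B, ∑ i, lgP b i * (n i : ℝ) = 0} with hS
  set W := orthP S with hW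
  -- exponentials of `W` lie in `B`
  have hWB : ∀ r ∈ W, Ex (inc r) ∈ B := by
    intro r hr
    apply mem_of_orth B hB r
    intro n hn
    exact hr n hn
  -- points of `B` have logarithms in `W`
  have hBW : ∀ b ∈ B, lgP b ∈ W := fun b hb n hn => hn b hb
  -- a common exponent
  set m : ℕ := ((identityComponent K (LL a)).relIndex B).factorial with hm
  have hm0 : (m : ℝ) ≠ 0 := by exact_mod_cast (Nat.factorial_pos _).ne'
  have hpow : ∀ b ∈ B, b ^ m ∈ identityComponent K (LL a) := by
    intro b hb
    have h3 := Subgroup.pow_mem_of_relIndex_ne_zero_of_dvd hidx hb (n := m) (by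
      intro j hj hj'
      exact Nat.dvd_factorial hj hj')
    exact h3.1
  have hWΓ : ∀ r ∈ W, Ex (inc r) ∈ identityComponent K (LL a) := by
    intro r hr
    have h3 := hpow _ (hWB ((m : ℝ)⁻¹ • r) (W.smul_mem _ hr))
    rwa [← Ex_nsmul, ← map_smul, smul_smul, mul_inv_cancel₀ hm0, one_smul] at h3
  have hWG : ∀ r ∈ W, inc r ∈ Gam a := fun r hr => identityComponent_le a (hWΓ r hr)
  -- `W` lies in the span of the logarithms
  have hWR : W ≤ LinearMap.range (Lam a) := by
    intro r hr
    have h3 := closure_log a _ (hWG r hr)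
    rwa [lgP_Ex, reP_inc] at h3
  have hrk : finrank ℝ (LinearMap.range (Lam a)) + 1 ≤ M := by
    have h3 := LinearMap.finrank_range_add_finrank_ker (Lam a)
    rw [Module.finrank_fintype_fun_eq_card, Fintype.card_fin] at h3
    obtain ⟨μ, hμ, hμ0⟩ := h1
    have h4 : 0 < finrank ℝ (LinearMap.ker (Lam a)) := by
      rw [Module.finrank_pos_iff]
      exact ⟨⟨⟨μ, hμ0⟩, 0, fun h => hμ (congrArg Subtype.val h)⟩⟩
    omega
  obtain ⟨Q, hQ, hQW'⟩ := h2 S
  have hQW : finrank ℚ Q ≤ finrank ℝ W := hQW'
  -- independent exponent vectors modulo `Q`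
  obtain ⟨C, hC⟩ := Q.exists_isCompl
  have hCdim : finrank ℚ Q + finrank ℚ C = M := by
    rw [Submodule.finrank_add_eq_of_isCompl hC, Module.finrank_fintype_fun_eq_card,
      Fintype.card_fin]
  let b := finBasis ℚ C
  obtain ⟨d, hd, F, hF⟩ := exists_common_denom
    (fun x : Fin (finrank ℚ C) × Fin M => (b x.1 : Fin M → ℚ) x.2)
  have hd' : (d : ℚ) ≠ 0 := by exact_mod_cast hd
  let V : (Fin (finrank ℚ C) → ℤ) → (Fin M → ℤ) := fun g k => ∑ j, g j * F (j, k)
  have hV : ∀ g, (fun k => ((V g k : ℤ) : ℚ)) ∈ Q → g = 0 := by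
    intro g hg
    have h3 : (fun k => ((V g k : ℤ) : ℚ)) =
        (((∑ j, ((d : ℚ) * (g j : ℚ)) • b j : C) : Fin M → ℚ)) := by
      funext k
      simp only [V, Submodule.coe_sum, Submodule.coe_smul, Finset.sum_apply, Pi.smul_apply,
        smul_eq_mul]
      push_cast
      refine Finset.sum_congr rfl fun j _ => ?_
      rw [hF]
      ring
    have h4 : (∑ j, ((d : ℚ) * (g j : ℚ)) • b j : C) = 0 := by
      apply Subtype.ext
      rw [h3] at hg
      exact Submodule.disjoint_def.mp hC.disjoint _ hg (Submodule.coe_mem _)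
    have h5 := Fintype.linearIndependent_iff.mp b.linearIndependent _ h4
    funext j
    have h6 := (mul_eq_zero.mp (h5 j)).resolve_left hd'
    show g j = 0
    exact_mod_cast h6
  -- the projection
  obtain ⟨q, hq, hq0⟩ := exists_proj (W.map (inc (K := K)))
  let Fam : Fin (finrank ℚ C) ⊕ CPl K → mixedSpace K :=
    Sum.elim (fun j => q (ZV a (fun k => F (j, k)))) (fun w => q (per w))
  let T : (Fin (finrank ℚ C) ⊕ CPl K → ℤ) → mixedSpace K := fun g =>
    ZV a (V (fun j => g (Sum.inl j))) + PV (fun w => g (Sum.inr w))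
  have hTG : ∀ g, T g ∈ Gam a := fun g => (Gam a).add_mem (ZV_mem a _) (PV_mem a _)
  have hFamT : ∀ g : Fin (finrank ℚ C) ⊕ CPl K → ℤ, ∑ i, g i • Fam i = q (T g) := by
    intro g
    have h3 : ZV a (V (fun j => g (Sum.inl j))) =
        ∑ j, g (Sum.inl j) • ZV a (fun k => F (j, k)) := by
      unfold ZV
      simp only [V, Finset.smul_sum]
      rw [Finset.sum_comm]
      refine Finset.sum_congr rfl fun k _ => ?_
      rw [Finset.sum_smul]
      refine Finset.sum_congr rfl fun j _ => ?_
      rw [mul_smul]
    simp only [T, Fintype.sum_sum_type, Fam, Sum.elim_inl, Sum.elim_inr, map_add]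
    rw [h3, map_sum]
    unfold PV
    rw [map_sum]
    congr 1
    · refine Finset.sum_congr rfl fun j _ => ?_
      rw [map_zsmul]
    · refine Finset.sum_congr rfl fun j _ => ?_
      rw [map_zsmul]
  have hreT : ∀ g, reP (T g) =
      (2 : ℝ) • Lam a (fun k => ((V (fun j => g (Sum.inl j)) k : ℤ) : ℝ)) := by
    intro g
    simp only [T, map_add]
    rw [reP_ZV, reP_PV, add_zero]
  have hkey : ∀ g : Fin (finrank ℚ C) ⊕ CPl K → ℤ, reP (T g) ∈ W → ∀ j, g (Sum.inl j) = 0 := by
    intro g hg
    rw [hreT] at hg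
    have h3 := W.smul_mem (2 : ℝ)⁻¹ hg
    rw [smul_smul, inv_mul_cancel₀ two_ne_zero, one_smul] at h3
    exact congrFun (hV _ (hQ _ h3))
  have hT0 : ∀ g : Fin (finrank ℚ C) ⊕ CPl K → ℤ, (∀ j, g (Sum.inl j) = 0) →
      T g = PV (fun w => g (Sum.inr w)) := by
    intro g hg
    have h3 : V (fun j => g (Sum.inl j)) = 0 := by
      funext k
      simp only [V, hg, zero_mul, Finset.sum_const_zero]
      rfl
    simp only [T]
    rw [h3, ZV_zero, zero_add]
  -- independence over the integers
  have hZ : LinearIndependent ℤ Fam := by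
    rw [Fintype.linearIndependent_iff]
    intro g hg
    rw [hFamT] at hg
    have h3 := hq (T g)
    rw [hg, sub_zero] at h3
    obtain ⟨r, hr, hr'⟩ := h3
    have h4 : reP (T g) ∈ W := by
      rw [← hr', reP_inc]
      exact hr
    have h5 := hkey g h4
    have h6 := hT0 g h5
    have h7 : ∀ w, g (Sum.inr w) = 0 := by
      intro w
      have h8 := im_PV (fun w => g (Sum.inr w)) w
      rw [← h6, ← hr', inc_snd, Complex.ofReal_im] at h8
      have h9 : (g (Sum.inr w) : ℝ) = 0 := by
        rcases mul_eq_zero.mp h8.symm with h | h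
        · exact h
        · exact absurd h (by positivity)
      exact_mod_cast h9
    intro i
    rcases i with j | w
    · exact h5 j
    · exact h7 w
  -- dependence over the reals
  have hR : ¬ LinearIndependent ℝ Fam := by
    intro hLI
    set U := (LinearMap.range (Lam a)).comap (reP (K := K)) with hU
    have hUdim : finrank ℝ U ≤ finrank ℝ (LinearMap.range (Lam a)) + Fintype.card (CPl K) := by
      let f : U →ₗ[ℝ] (InfinitePlace K → ℝ) := (reP (K := K)).domRestrict U
      have h3 := LinearMap.finrank_range_add_finrank_ker f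
      have h4 : finrank ℝ (LinearMap.range f) ≤ finrank ℝ (LinearMap.range (Lam a)) := by
        apply Submodule.finrank_mono
        rintro _ ⟨x, rfl⟩
        exact x.2
      have h5 : finrank ℝ (LinearMap.ker f) ≤ Fintype.card (CPl K) := by
        refine le_trans ?_ (finrank_ker_reP (K := K))
        let e : LinearMap.ker f →ₗ[ℝ] LinearMap.ker (reP (K := K)) :=
          { toFun := fun x => ⟨x.1.1, x.2⟩
            map_add' := fun x y => rfl
            map_smul' := fun r x => rfl }
        refine LinearMap.finrank_le_finrank_of_injective (f := e) ?_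
        intro x y hxy
        apply Subtype.ext
        apply Subtype.ext
        have h6 : (e x).1 = (e y).1 := by rw [hxy]
        exact h6
      omega
    have hqU : finrank ℝ (U.map q) + finrank ℝ W ≤ finrank ℝ U := by
      let f : U →ₗ[ℝ] mixedSpace K := q.domRestrict U
      have h3 := LinearMap.finrank_range_add_finrank_ker f
      have h4 : LinearMap.range f = U.map q := by
        ext x
        constructor
        · rintro ⟨u, rfl⟩
          exact ⟨u.1, u.2, rfl⟩
        · rintro ⟨u, hu, rfl⟩
          exact ⟨⟨u, hu⟩, rfl⟩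
      have h5 : finrank ℝ W ≤ finrank ℝ (LinearMap.ker f) := by
        let e : W →ₗ[ℝ] LinearMap.ker f :=
          { toFun := fun r => ⟨⟨inc r.1, by
              show reP (inc r.1) ∈ LinearMap.range (Lam a)
              rw [reP_inc]
              exact hWR r.2⟩, by
              show q (inc r.1) = 0
              exact hq0 _ ⟨r.1, r.2, rfl⟩⟩
            map_add' := fun x y => by
              apply Subtype.ext
              apply Subtype.ext
              exact map_add inc _ _
            map_smul' := fun r x => by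
              apply Subtype.ext
              apply Subtype.ext
              exact map_smul inc _ _ }
        refine LinearMap.finrank_le_finrank_of_injective (f := e) ?_
        intro x y hxy
        apply Subtype.ext
        have h6 : inc x.1 = inc y.1 := congrArg (fun z => z.1.1) hxy
        rw [← reP_inc x.1, h6, reP_inc]
      rw [h4] at h3
      omega
    have hFamU : ∀ i, Fam i ∈ U.map q := by
      intro i
      rcases i with j | w
      · refine ⟨ZV a (fun k => F (j, k)), ?_, rfl⟩
        show reP (ZV a (fun k => F (j, k))) ∈ LinearMap.range (Lam a)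
        rw [reP_ZV]
        exact Submodule.smul_mem _ _ ⟨_, rfl⟩
      · refine ⟨per w, ?_, rfl⟩
        show reP (per w) ∈ LinearMap.range (Lam a)
        rw [reP_per]
        exact Submodule.zero_mem _
    have hcard : Fintype.card (Fin (finrank ℚ C) ⊕ CPl K) ≤ finrank ℝ (U.map q) := by
      have hLI' : LinearIndependent ℝ (fun i => (⟨Fam i, hFamU i⟩ : U.map q)) := by
        apply LinearIndependent.of_comp (U.map q).subtype
        exact hLI
      exact hLI'.fintype_card_le_finrank
    rw [Fintype.card_sum, Fintype.card_fin] at hcard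
    omega
  -- a small combination
  obtain ⟨ε, hε, hlines⟩ := small_mem_lines (Gam a) (Gam_closed a)
  obtain ⟨z, hz, hz0, hzn⟩ := small_combination Fam hZ hR (min ε 1) (lt_min hε one_pos)
  obtain ⟨g, hg⟩ := (Submodule.mem_span_range_iff_exists_fun ℤ).mp hz
  rw [hFamT] at hg
  obtain ⟨r, hr, hr'⟩ := hq (T g)
  have hzr : z = T g - inc r := by
    rw [← hg, hr']
    abel
  have hzG : z ∈ Gam a := by
    rw [hzr]
    exact (Gam a).sub_mem (hTG g) (hWG r hr)
  have hline := hlines z hzG (lt_of_lt_of_le hzn (min_le_left _ _))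
  have hzB : Ex z ∈ B := hle (Ex_mem_identityComponent a z hline)
  have hzW : reP z ∈ W := by
    have h3 := hBW _ hzB
    rwa [lgP_Ex] at h3
  have hTW : reP (T g) ∈ W := by
    have h3 : reP (T g) = reP z + r := by
      rw [hzr, map_sub, reP_inc]
      abel
    rw [h3]
    exact W.add_mem hzW hr
  have hg0 := hkey g hTW
  have hT := hT0 g hg0
  have hgw : ∀ w, g (Sum.inr w) = 0 := by
    intro w
    have h3 := im_PV (fun w => g (Sum.inr w)) w
    have h4 : (z.2 w).im = (g (Sum.inr w) : ℝ) * (2 * Real.pi) := by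
      rw [hzr, hT, Prod.snd_sub, Pi.sub_apply, Complex.sub_im, h3, inc_snd, Complex.ofReal_im,
        sub_zero]
    have hn : ‖z.2 w‖ < 1 := by
      refine lt_of_le_of_lt ?_ (lt_of_lt_of_le hzn (min_le_right _ _))
      exact (norm_le_pi_norm z.2 w).trans (norm_snd_le z)
    have him : |(z.2 w).im| < 1 := lt_of_le_of_lt (Complex.abs_im_le_norm _) hn
    rw [h4, abs_mul, abs_of_pos (by positivity : (0:ℝ) < 2 * Real.pi)] at him
    have hpi := Real.pi_gt_three
    have hlt : |(g (Sum.inr w) : ℝ)| < 1 := by
      by_contra hge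
      push Not at hge
      nlinarith
    have h5 : |g (Sum.inr w)| < 1 := by exact_mod_cast hlt
    exact Int.abs_lt_one_iff.mp h5
  apply hz0
  rw [← hg, hT]
  have h3 : PV (fun w : CPl K => g (Sum.inr w)) = 0 := by
    unfold PV
    refine Finset.sum_eq_zero fun w _ => ?_
    show g (Sum.inr w) • per w = 0
    rw [hgw w, zero_smul]
  rw [h3, map_zero]

end Pool.Agent.H447.Clo
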