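import Mathlib
import Pool.Agent.H447.Clo.RealMain
import Pool.Agent.H447.Clo.Group
import Pool.Agent.H447.Clo.RankP

set_option autoImplicit false
set_option linter.unusedSectionVars false

/-!
# The real part fails
-/

namespace Pool.Agent.H447.Clo

open Module NumberField NumberField.InfinitePlace Pool.Agent.H492R2.Tor Filter Topology

/-- Rational vectors which are independent over `ℚ` are independent over `ℝ`. -/
theorem indep_real {ι P : Type} [Fintype ι] (v : ι → P → ℚ) (h : LinearIndependent ℚ v) :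
    LinearIndependent ℝ (fun i (w : P) => ((v i w : ℚ) : ℝ)) := by
  rw [Fintype.linearIndependent_iff]
  intro r hr i
  rw [← Module.forall_dual_apply_eq_zero_iff ℚ]
  intro φ
  have h1 := Fintype.linearIndependent_iff.mp h (fun i => φ (r i)) (by
    funext w
    have h2 := congrFun hr w
    rw [Finset.sum_apply, Pi.zero_apply] at h2
    rw [Finset.sum_apply, Pi.zero_apply, ← map_zero φ, ← h2, map_sum]
    refine Finset.sum_congr rfl fun i _ => ?_
    rw [Pi.smul_apply, Pi.smul_apply, smul_eq_mul, smul_eq_mul, mul_comm (r i), mul_comm (φ (r i))]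
    have h3 : ((v i w : ℚ) : ℝ) * r i = (v i w) • r i := by rw [Rat.smul_def]
    rw [h3, map_smul, smul_eq_mul])
  exact h1 i

namespace Setup

variable {K N : Type} [Field K] [NumberField K] [Field N] [NumberField N] [IsGalois ℚ N]
  (D : Setup K N)

/-- singularity over the real numbers -/
theorem sing_real (hS : D.Sing) (l : D.I → (N ≃ₐ[ℚ] N) → ℝ)
    (hl : ∀ i g, l i (D.c * g) = l i g) :
    ∃ μ : Fin D.M → ℝ, μ ≠ 0 ∧
      ∀ g', ∑ i, ∑ g, (∑ k, μ k * (D.T i k g : ℝ)) * l i (g' * g) = 0 := by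
  let ln : ℕ → D.I → (N ≃ₐ[ℚ] N) → ℚ := fun n i g => (⌊((n : ℝ) + 1) * l i g⌋ : ℚ) / ((n : ℚ) + 1)
  have hln : ∀ n i g, ln n i (D.c * g) = ln n i g := by
    intro n i g
    simp only [ln, hl]
  choose v hv hrel using fun n => hS (ln n) (hln n)
  let V : ℕ → (Fin D.M → ℝ) := fun n k => ((v n k : ℚ) : ℝ)
  have hV : ∀ n, V n ≠ 0 := by
    intro n h
    apply hv n
    funext k
    have h1 := congrFun h k
    have h2 : ((v n k : ℚ) : ℝ) = 0 := h1
    exact_mod_cast h2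
  let u : ℕ → (Fin D.M → ℝ) := fun n => ‖V n‖⁻¹ • V n
  have hu : ∀ n, u n ∈ Metric.sphere (0 : Fin D.M → ℝ) 1 := by
    intro n
    rw [mem_sphere_zero_iff_norm]
    simp only [u]
    rw [norm_smul, norm_inv, norm_norm, inv_mul_cancel₀ (norm_ne_zero_iff.mpr (hV n))]
  obtain ⟨μ, hμ, φ, hφ, hlim⟩ := (isCompact_sphere (0 : Fin D.M → ℝ) 1).tendsto_subseq hu
  refine ⟨μ, ?_, ?_⟩
  · rintro rfl
    rw [mem_sphere_zero_iff_norm, norm_zero] at hμ
    exact zero_ne_one hμ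
  · intro g'
    have hlnlim : ∀ i g, Tendsto (fun n => ((ln (φ n) i g : ℚ) : ℝ)) atTop (𝓝 (l i g)) := by
      intro i g
      have h1 : Tendsto (fun n : ℕ => ((ln n i g : ℚ) : ℝ)) atTop (𝓝 (l i g)) := by
        rw [tendsto_iff_norm_sub_tendsto_zero]
        refine squeeze_zero (fun _ => norm_nonneg _) (fun n => ?_)
          (tendsto_one_div_add_atTop_nhds_zero_nat (𝕜 := ℝ))
        have hp : (0 : ℝ) < (n : ℝ) + 1 := by positivity
        have h2 := Int.floor_le (((n : ℝ) + 1) * l i g)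
        have h3 := Int.lt_floor_add_one (((n : ℝ) + 1) * l i g)
        have h4 : ((ln n i g : ℚ) : ℝ) = (⌊((n : ℝ) + 1) * l i g⌋ : ℝ) / ((n : ℝ) + 1) := by
          simp only [ln]
          push_cast
          rfl
        rw [h4, Real.norm_eq_abs, abs_le]
        constructor
        · rw [neg_le_sub_iff_le_add, ← add_div, le_div_iff₀' hp]
          exact h3.le
        · have h5 : (⌊((n : ℝ) + 1) * l i g⌋ : ℝ) / ((n : ℝ) + 1) ≤ l i g := by
            rw [div_le_iff₀' hp]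
            exact h2
          have h6 : (0 : ℝ) ≤ 1 / ((n : ℝ) + 1) := by positivity
          linarith
      exact h1.comp hφ.tendsto_atTop
    have hterm : Tendsto (fun n => ∑ i, ∑ g, (∑ k, u (φ n) k * (D.T i k g : ℝ)) *
        ((ln (φ n) i (g' * g) : ℚ) : ℝ)) atTop
        (𝓝 (∑ i, ∑ g, (∑ k, μ k * (D.T i k g : ℝ)) * l i (g' * g))) := by
      refine tendsto_finsetSum _ fun i _ => tendsto_finsetSum _ fun g _ => ?_
      refine Tendsto.mul ?_ (hlnlim i (g' * g))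
      refine tendsto_finsetSum _ fun k _ => ?_
      refine Tendsto.mul_const _ ?_
      exact (tendsto_pi_nhds.mp hlim) k
    have hzero : ∀ n, ∑ i, ∑ g, (∑ k, u (φ n) k * (D.T i k g : ℝ)) *
        ((ln (φ n) i (g' * g) : ℚ) : ℝ) = 0 := by
      intro n
      have h1 := hrel (φ n) g'
      have h2 : ((∑ i, ∑ g, D.e (v (φ n)) i g * ln (φ n) i (g' * g) : ℚ) : ℝ) = 0 := by
        rw [h1]; simp
      have h3 : ∑ i, ∑ g, (∑ k, u (φ n) k * (D.T i k g : ℝ)) *
          ((ln (φ n) i (g' * g) : ℚ) : ℝ) =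
          ‖V (φ n)‖⁻¹ * ((∑ i, ∑ g, D.e (v (φ n)) i g * ln (φ n) i (g' * g) : ℚ) : ℝ) := by
        rw [Rat.cast_sum, Finset.mul_sum]
        refine Finset.sum_congr rfl fun i _ => ?_
        rw [Rat.cast_sum, Finset.mul_sum]
        refine Finset.sum_congr rfl fun g _ => ?_
        rw [Rat.cast_mul, ← mul_assoc]
        congr 1
        unfold e
        rw [Rat.cast_sum, Finset.mul_sum]
        refine Finset.sum_congr rfl fun k _ => ?_
        simp only [u, V, Pi.smul_apply, smul_eq_mul]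
        push_cast
        ring
      rw [h3, h2, mul_zero]
    exact tendsto_nhds_unique hterm (by simp only [hzero]; exact tendsto_const_nhds)

section

variable (τ : N →ₐ[ℚ] ℂ)

/-- For each place of `K` an element of the Galois group. -/
noncomputable def gw (w : InfinitePlace K) : N ≃ₐ[ℚ] N :=
  (exists_gal τ D.ι w.embedding.toRatAlgHom).choose

theorem gw_spec (w : InfinitePlace K) (y : K) : w.embedding y = τ (D.gw τ w (D.ι y)) :=
  (exists_gal τ D.ι w.embedding.toRatAlgHom).choose_spec y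

theorem c_inv : D.c⁻¹ = D.c := inv_eq_of_mul_eq_one_left D.hc

theorem gw_surj (hτ : ∀ y, τ (D.c y) = (starRingEnd ℂ) (τ y)) (g : N ≃ₐ[ℚ] N) :
    ∃ w : InfinitePlace K, (∀ y : K, ((D.gw τ w)⁻¹ * g) (D.ι y) = D.ι y) ∨
      ∀ y : K, ((D.gw τ w)⁻¹ * (D.c * g)) (D.ι y) = D.ι y := by
  let φ : K →+* ℂ := ((τ.comp (g : N →ₐ[ℚ] N)).comp D.ι).toRingHom
  have hφ : ∀ y, φ y = τ (g (D.ι y)) := fun y => rfl
  refine ⟨InfinitePlace.mk φ, ?_⟩
  rcases InfinitePlace.embedding_mk_eq φ with h | h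
  · left
    intro y
    have h1 := D.gw_spec τ (InfinitePlace.mk φ) y
    rw [h, hφ] at h1
    have h2 : g (D.ι y) = D.gw τ (InfinitePlace.mk φ) (D.ι y) := τ.toRingHom.injective h1
    rw [AlgEquiv.mul_apply, h2, ← AlgEquiv.mul_apply, inv_mul_cancel, AlgEquiv.one_apply]
  · right
    intro y
    have h1 := D.gw_spec τ (InfinitePlace.mk φ) y
    rw [h] at h1
    have h3 : (ComplexEmbedding.conjugate φ) y = τ (D.c (g (D.ι y))) := by
      rw [hτ, ← hφ]
      rfl
    rw [h3] at h1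
    have h2 : D.c (g (D.ι y)) = D.gw τ (InfinitePlace.mk φ) (D.ι y) := τ.toRingHom.injective h1
    rw [AlgEquiv.mul_apply, AlgEquiv.mul_apply, h2, ← AlgEquiv.mul_apply, inv_mul_cancel,
      AlgEquiv.one_apply]

/-- logarithm of the absolute value -/
noncomputable def lo (u : Nˣ) : ℝ := Real.log ‖τ (u : N)‖

theorem norm_ne (u : Nˣ) : ‖τ (u : N)‖ ≠ 0 := by
  rw [norm_ne_zero_iff, Ne, map_eq_zero]
  exact u.ne_zero

theorem lo_mul (u v : Nˣ) : lo τ (u * v) = lo τ u + lo τ v := by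
  unfold lo
  rw [Units.val_mul, map_mul, norm_mul, Real.log_mul (norm_ne τ u) (norm_ne τ v)]

theorem lo_one : lo τ 1 = 0 := by
  unfold lo
  simp

theorem lo_zpow (u : Nˣ) (n : ℤ) : lo τ (u ^ n) = n * lo τ u := by
  unfold lo
  rw [Units.val_zpow_eq_zpow_val, map_zpow₀, norm_zpow, Real.log_zpow]

theorem lo_prod {α : Type} (s : Finset α) (f : α → Nˣ) :
    lo τ (∏ a ∈ s, f a) = ∑ a ∈ s, lo τ (f a) := by
  classical
  induction s using Finset.induction_on with
  | empty => simp [lo_one]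
  | insert a s ha ih => rw [Finset.prod_insert ha, Finset.sum_insert ha, lo_mul, ih]

variable (x : D.I → Nˣ)

theorem lo_um_A (h : N ≃ₐ[ℚ] N) (v : Fin D.M → ℤ) :
    lo τ (um h (D.A x v)) = ∑ i, ∑ g : N ≃ₐ[ℚ] N, (D.ez v i g : ℝ) * lo τ (um (h * g) (x i)) := by
  unfold A
  rw [map_prod, lo_prod]
  refine Finset.sum_congr rfl fun i _ => ?_
  rw [map_prod, lo_prod]
  refine Finset.sum_congr rfl fun g _ => ?_
  rw [map_zpow, lo_zpow, um_mul]

/-- The generators. -/
noncomputable def gen (k : Fin D.M) : Kˣ := D.el x (Pi.single k 1)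

theorem log_el (v : Fin D.M → ℤ) (w : InfinitePlace K) :
    Real.log (w (D.el x v : K)) = lo τ (um (D.gw τ w) (D.A x v)) := by
  unfold lo
  rw [← InfinitePlace.norm_embedding_eq, D.gw_spec τ w, coe_um, ← D.el_spec x v]
  rfl

theorem ez_single (k : Fin D.M) (i : D.I) (g : N ≃ₐ[ℚ] N) :
    D.ez (Pi.single k 1) i g = D.T i k g := by
  unfold ez
  rw [Finset.sum_eq_single k]
  · rw [Pi.single_eq_same, one_mul]
  · intro b _ hb
    rw [Pi.single_eq_of_ne hb, zero_mul]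
  · intro h; exact absurd (Finset.mem_univ k) h

theorem Lam_eq (μ : Fin D.M → ℝ) (w : InfinitePlace K) :
    Lam (D.gen x) μ w = ∑ i, ∑ g : N ≃ₐ[ℚ] N, (∑ k, μ k * (D.T i k g : ℝ)) *
      lo τ (um (D.gw τ w * g) (x i)) := by
  rw [Lam_apply]
  unfold gen
  simp only [D.log_el τ x, D.lo_um_A τ x, ez_single, Finset.mul_sum, Finset.sum_mul]
  rw [Finset.sum_comm]
  refine Finset.sum_congr rfl fun i _ => ?_
  rw [Finset.sum_comm]
  refine Finset.sum_congr rfl fun g _ => ?_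
  refine Finset.sum_congr rfl fun k _ => ?_
  ring

theorem Lam_int (v : Fin D.M → ℤ) (w : InfinitePlace K) :
    Lam (D.gen x) (fun k => (v k : ℝ)) w = lo τ (um (D.gw τ w) (D.A x v)) := by
  rw [D.Lam_eq τ x, D.lo_um_A τ x]
  refine Finset.sum_congr rfl fun i _ => Finset.sum_congr rfl fun g _ => ?_
  congr 1
  unfold ez
  push_cast
  rfl

/-- The rational function on the group belonging to an integral vector. -/
noncomputable def yw (n : InfinitePlace K → ℤ) : (N ≃ₐ[ℚ] N) → ℚ := by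
  classical
  exact fun g => ∑ w with D.gw τ w = g, (n w : ℚ)

theorem sum_yw (n : InfinitePlace K → ℤ) (f : (N ≃ₐ[ℚ] N) → ℚ) :
    ∑ g, D.yw τ n g * f g = ∑ w, (n w : ℚ) * f (D.gw τ w) := by
  classical
  rw [← Finset.sum_fiberwise (s := (Finset.univ : Finset (InfinitePlace K)))
    (g := fun w => D.gw τ w)]
  refine Finset.sum_congr rfl fun g _ => ?_
  unfold yw
  rw [Finset.sum_mul]
  refine Finset.sum_congr rfl fun w hw => ?_
  rw [(Finset.mem_filter.mp hw).2]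

theorem mem_KY_real (hx : FreeConj x) (hτ : ∀ y, τ (D.c y) = (starRingEnd ℂ) (τ y))
    (S : Set (InfinitePlace K → ℤ)) (v : Fin D.M → ℤ)
    (h : Lam (D.gen x) (fun k => (v k : ℝ)) ∈ orthP S) :
    (fun k => (v k : ℚ)) ∈ D.KY {y | ∃ n ∈ S, y = D.yw τ n} := by
  rintro _ ⟨n, hn, rfl⟩ i g
  have h1 : ∑ w, Lam (D.gen x) (fun k => (v k : ℝ)) w * (n w : ℝ) = 0 := h n hn
  simp only [D.Lam_int τ x] at h1
  -- a product which is equal to one
  have hR : ∀ w, τ ((um (D.gw τ w) (D.A x v) * um (D.c * D.gw τ w) (D.A x v) : Nˣ) : N) =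
      ((‖τ ((um (D.gw τ w) (D.A x v) : Nˣ) : N)‖ ^ 2 : ℝ) : ℂ) := by
    intro w
    rw [um_mul, Units.val_mul, map_mul, coe_um D.c, hτ, Complex.mul_conj, Complex.normSq_eq_norm_sq]
  have hprod : ∏ w, (um (D.gw τ w) (D.A x v) * um (D.c * D.gw τ w) (D.A x v)) ^ (n w) = 1 := by
    have h2 : τ ((∏ w, (um (D.gw τ w) (D.A x v) * um (D.c * D.gw τ w) (D.A x v)) ^ (n w) : Nˣ) : N)
        = ((∏ w, (‖τ ((um (D.gw τ w) (D.A x v) : Nˣ) : N)‖ ^ 2) ^ (n w) : ℝ) : ℂ) := by
      rw [Units.coe_prod, map_prod, Complex.ofReal_prod]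
      refine Finset.prod_congr rfl fun w _ => ?_
      rw [Units.val_zpow_eq_zpow_val, map_zpow₀, hR, Complex.ofReal_zpow]
    have hpos : ∀ w, 0 < ‖τ ((um (D.gw τ w) (D.A x v) : Nˣ) : N)‖ := fun w =>
      lt_of_le_of_ne (norm_nonneg _) (norm_ne τ _).symm
    have h3 : ∏ w, (‖τ ((um (D.gw τ w) (D.A x v) : Nˣ) : N)‖ ^ 2) ^ (n w) = 1 := by
      have hp : 0 < ∏ w, (‖τ ((um (D.gw τ w) (D.A x v) : Nˣ) : N)‖ ^ 2) ^ (n w) :=
        Finset.prod_pos fun w _ => zpow_pos (pow_pos (hpos w) 2) _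
      apply Real.log_injOn_pos hp (Set.mem_Ioi.mpr one_pos)
      rw [Real.log_one, Real.log_prod (fun w _ => (zpow_pos (pow_pos (hpos w) 2) _).ne')]
      have h4 : ∀ w, Real.log ((‖τ ((um (D.gw τ w) (D.A x v) : Nˣ) : N)‖ ^ 2) ^ (n w)) =
          2 * (lo τ (um (D.gw τ w) (D.A x v)) * (n w : ℝ)) := by
        intro w
        rw [Real.log_zpow, Real.log_pow]
        unfold lo
        push_cast
        ring
      simp only [h4]
      rw [← Finset.mul_sum, h1, mul_zero]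
    rw [h3, Complex.ofReal_one, ← map_one τ] at h2
    exact Units.ext (τ.toRingHom.injective h2)
  simp only [mul_zpow] at hprod
  rw [Finset.prod_mul_distrib, D.prod_um_A (fun w => D.gw τ w) n v,
    D.prod_um_A (fun w => D.c * D.gw τ w) n v, ← Finset.prod_mul_distrib] at hprod
  have hprod' : ∏ i, ∏ g : N ≃ₐ[ℚ] N, um g (x i) ^
      (∑ w, n w * D.ez v i ((D.gw τ w)⁻¹ * g) + ∑ w, n w * D.ez v i ((D.c * D.gw τ w)⁻¹ * g)) =
      1 := by
    rw [← hprod]
    refine Finset.prod_congr rfl fun i _ => ?_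
    rw [← Finset.prod_mul_distrib]
    refine Finset.prod_congr rfl fun g _ => ?_
    rw [zpow_add]
  have h5 : ∑ w, n w * D.ez v i ((D.gw τ w)⁻¹ * g) +
      ∑ w, n w * D.ez v i ((D.c * D.gw τ w)⁻¹ * g) = 0 :=
    congrFun (congrFun (hx (fun i g => ∑ w, n w * D.ez v i ((D.gw τ w)⁻¹ * g) +
      ∑ w, n w * D.ez v i ((D.c * D.gw τ w)⁻¹ * g)) hprod') i) g
  rw [D.sum_yw τ n (fun h => D.e (fun k => (v k : ℚ)) i (h⁻¹ * g) +
    D.e (fun k => (v k : ℚ)) i (h⁻¹ * (D.c * g)))]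
  have h6 : ∀ w, (n w : ℚ) * (D.e (fun k => (v k : ℚ)) i ((D.gw τ w)⁻¹ * g) +
      D.e (fun k => (v k : ℚ)) i ((D.gw τ w)⁻¹ * (D.c * g))) =
      ((n w * D.ez v i ((D.gw τ w)⁻¹ * g) : ℤ) : ℚ) +
      ((n w * D.ez v i ((D.c * D.gw τ w)⁻¹ * g) : ℤ) : ℚ) := by
    intro w
    have h7 : (D.c * D.gw τ w)⁻¹ * g = (D.gw τ w)⁻¹ * (D.c * g) := by
      rw [mul_inv_rev, c_inv, mul_assoc]
    rw [e_cast, e_cast, h7]
    push_cast
    ring
  simp only [h6]
  rw [Finset.sum_add_distrib, ← Int.cast_sum, ← Int.cast_sum, ← Int.cast_add, h5, Int.cast_zero]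

theorem UY_le_real (hτ : ∀ y, τ (D.c y) = (starRingEnd ℂ) (τ y))
    (S : Set (InfinitePlace K → ℤ)) :
    finrank ℚ (D.UY {y | ∃ n ∈ S, y = D.yw τ n}) ≤ finrank ℝ (orthP S) := by
  set U := D.UY {y | ∃ n ∈ S, y = D.yw τ n} with hU
  let f : U →ₗ[ℚ] (InfinitePlace K → ℚ) :=
    { toFun := fun u w => u.1 (D.gw τ w)
      map_add' := fun a b => rfl
      map_smul' := fun r a => rfl }
  have hf : Function.Injective f := by
    rw [← LinearMap.ker_eq_bot, LinearMap.ker_eq_bot']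
    intro u hu
    apply Subtype.ext
    funext g
    obtain ⟨w, hw | hw⟩ := D.gw_surj τ hτ g
    · have h1 := u.2.2.1 (D.gw τ w) ((D.gw τ w)⁻¹ * g) hw
      rw [mul_inv_cancel_left] at h1
      rw [h1]
      exact congrFun hu w
    · have h1 := u.2.2.1 (D.gw τ w) ((D.gw τ w)⁻¹ * (D.c * g)) hw
      rw [mul_inv_cancel_left, u.2.1] at h1
      rw [h1]
      exact congrFun hu w
  let b := finBasis ℚ U
  have hLI : LinearIndependent ℚ (fun j => f (b j)) := b.linearIndependent.map' f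
    (LinearMap.ker_eq_bot.mpr hf)
  have hLR := indep_real (fun j => f (b j)) hLI
  have hmem : ∀ j, (fun w => ((f (b j) w : ℚ) : ℝ)) ∈ orthP S := by
    intro j n hn
    have h1 := (b j).2.2.2 (D.yw τ n) ⟨n, hn, rfl⟩
    rw [D.sum_yw τ n] at h1
    have h2 : ((∑ w, (n w : ℚ) * (b j).1 (D.gw τ w) : ℚ) : ℝ) = 0 := by rw [h1]; simp
    rw [← h2, Rat.cast_sum]
    refine Finset.sum_congr rfl fun w _ => ?_
    push_cast
    rw [mul_comm]
    rfl
  have hLI' : LinearIndependent ℝ (fun j => (⟨fun w => ((f (b j) w : ℚ) : ℝ), hmem j⟩ :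
      orthP S)) := by
    apply LinearIndependent.of_comp (orthP S).subtype
    exact hLR
  have h := hLI'.fintype_card_le_finrank
  rwa [Fintype.card_fin] at h

end

/-- The real part of the expected answer fails. -/
theorem not_real (hS : D.Semi) (hS' : D.Sing) (τ : N →ₐ[ℚ] ℂ)
    (hτ : ∀ y, τ (D.c y) = (starRingEnd ℂ) (τ y)) : ¬ ExpectedAnswerReal K := by
  obtain ⟨x, β, hβ, hx⟩ := exists_free (N := N) D.I (B := 1) one_ne_zero
  apply not_real_of (D.gen x)
  · obtain ⟨μ, hμ, hrel⟩ := D.sing_real hS' (fun i g => lo τ (um g (x i))) (by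
      intro i g
      unfold lo
      rw [um_mul, coe_um D.c, hτ, Complex.norm_conj])
    refine ⟨μ, hμ, ?_⟩
    funext w
    rw [D.Lam_eq τ x]
    exact hrel (D.gw τ w)
  · intro S
    refine ⟨D.KY {y | ∃ n ∈ S, y = D.yw τ n}, fun v hv => D.mem_KY_real τ x hx hτ S v hv, ?_⟩
    exact (hS _).trans (D.UY_le_real τ hτ S)

end Setup

end Pool.Agent.H447.Clo
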